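import Mathlib

/-! Equivariant linear algebra on free modules over sets with a group action. -/

namespace Pool.Agent.H59

open Finsupp

section basic

variable {G : Type*} [Group G] (R : Type*) [CommRing R]

/-- orbits of a subgroup -/
abbrev QQ (N : Subgroup G) (S : Type*) [MulAction G S] := MulAction.orbitRel.Quotient N S

/-- class of an element -/
def cl {S : Type*} [MulAction G S] (N : Subgroup G) (s : S) : QQ N S :=
  Quotient.mk (MulAction.orbitRel N S) s

variable {S S' S'' : Type*} [MulAction G S] [MulAction G S'] [MulAction G S'']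

theorem cl_eq_iff {N : Subgroup G} {s t : S} : cl N s = cl N t ↔ ∃ n ∈ N, n • t = s := by
  constructor
  · intro h
    obtain ⟨n, hn⟩ := (MulAction.orbitRel_apply.1 (Quotient.exact h))
    exact ⟨n, n.2, hn⟩
  · rintro ⟨n, hn, rfl⟩
    refine Quotient.sound (MulAction.orbitRel_apply.2 ⟨⟨n, hn⟩, rfl⟩)

theorem cl_out {N : Subgroup G} (q : QQ N S) : cl N q.out = q := Quotient.out_eq _

/-- the group element relating `s` to the representative of its orbit -/
noncomputable def rho (N : Subgroup G) (s : S) : G := (cl_eq_iff.1 (cl_out (cl N s)).symm).choose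

theorem rho_mem (N : Subgroup G) (s : S) : rho N s ∈ N :=
  (cl_eq_iff.1 (cl_out (cl N s)).symm).choose_spec.1

theorem rho_smul (N : Subgroup G) (s : S) : rho N s • (cl N s).out = s :=
  (cl_eq_iff.1 (cl_out (cl N s)).symm).choose_spec.2

theorem cl_smul {N : Subgroup G} {n : G} (hn : n ∈ N) (s : S) : cl N (n • s) = cl N s :=
  cl_eq_iff.2 ⟨n, hn, rfl⟩

theorem eq_of_smul_eq (free : ∀ (g : G) (s : S), g • s = s → g = 1) {g g' : G} {s : S}
    (h : g • s = g' • s) : g = g' := by
  have := free (g'⁻¹ * g) s (by rw [mul_smul, h, inv_smul_smul])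
  rw [inv_mul_eq_one] at this
  exact this.symm

theorem rho_smul_eq (free : ∀ (g : G) (s : S), g • s = s → g = 1) {N : Subgroup G} {n : G}
    (hn : n ∈ N) (s : S) : rho N (n • s) = n * rho N s := by
  apply eq_of_smul_eq free (s := (cl N s).out)
  rw [mul_smul, rho_smul]
  have := rho_smul N (n • s)
  rw [cl_smul hn] at this
  exact this

/-- projection to orbits -/
noncomputable def pr (N : Subgroup G) (S : Type*) [MulAction G S] : (S →₀ R) →ₗ[R] (QQ N S →₀ R) :=
  Finsupp.lmapDomain R R (cl N)

/-- section of the projection -/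
noncomputable def sec (N : Subgroup G) (S : Type*) [MulAction G S] : (QQ N S →₀ R) →ₗ[R] (S →₀ R) :=
  Finsupp.lmapDomain R R (fun q => Quotient.out q)

/-- action on chains -/
noncomputable def ac (S : Type*) [MulAction G S] (g : G) : (S →₀ R) →ₗ[R] (S →₀ R) :=
  Finsupp.lmapDomain R R (fun s => g • s)

theorem pr_single (N : Subgroup G) (s : S) (r : R) :
    pr R N S (single s r) = single (cl N s) r := by
  simp [pr, Finsupp.mapDomain_single]

theorem sec_single (N : Subgroup G) (q : QQ N S) (r : R) :
    sec R N S (single q r) = single q.out r := by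
  simp [sec, Finsupp.mapDomain_single]

theorem ac_single (g : G) (s : S) (r : R) : ac R S g (single s r) = single (g • s) r := by
  simp [ac, Finsupp.mapDomain_single]

theorem pr_sec (N : Subgroup G) (u : QQ N S →₀ R) : pr R N S (sec R N S u) = u := by
  induction u using Finsupp.induction_linear with
  | zero => simp
  | add f g hf hg => rw [map_add, map_add, hf, hg]
  | single q r => rw [sec_single, pr_single, cl_out]

theorem pr_ac {N : Subgroup G} {n : G} (hn : n ∈ N) (x : S →₀ R) :
    pr R N S (ac R S n x) = pr R N S x := by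
  induction x using Finsupp.induction_linear with
  | zero => simp
  | add f g hf hg => rw [map_add, map_add, map_add, hf, hg]
  | single q r => rw [ac_single, pr_single, pr_single, cl_smul hn]

theorem ac_mul (g g' : G) (x : S →₀ R) : ac R S (g * g') x = ac R S g (ac R S g' x) := by
  induction x using Finsupp.induction_linear with
  | zero => simp
  | add f g hf hg => simp only [map_add, hf, hg]
  | single q r => simp only [ac_single, mul_smul]

/-- the kernel of the projection is spanned by differences -/
theorem pr_induction {N : Subgroup G} (P : Submodule R (S →₀ R))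
    (hP : ∀ n ∈ N, ∀ s : S, single (n • s) 1 - single s 1 ∈ P) {x : S →₀ R}
    (hx : pr R N S x = 0) : x ∈ P := by
  have h1 : ∀ x : S →₀ R, x - sec R N S (pr R N S x) ∈ P := by
    intro x
    induction x using Finsupp.induction_linear with
    | zero => simp
    | add f g hf hg =>
      have : f + g - sec R N S (pr R N S (f + g)) =
        (f - sec R N S (pr R N S f)) + (g - sec R N S (pr R N S g)) := by
        simp only [map_add]; abel
      rw [this]
      exact P.add_mem hf hg
    | single s r =>
      rw [pr_single, sec_single]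
      have h2 := hP (rho N s) (rho_mem N s) (cl N s).out
      rw [rho_smul] at h2
      have h3 := P.smul_mem r h2
      rw [smul_sub, smul_single, smul_single, smul_eq_mul, mul_one] at h3
      exact h3
  have := h1 x
  rwa [hx, map_zero, sub_zero] at this

variable {R}

/-- equivariance -/
def Eqv (N : Subgroup G) (f : (S →₀ R) →ₗ[R] (S' →₀ R)) : Prop :=
  ∀ n ∈ N, ∀ x, f (ac R S n x) = ac R S' n (f x)

theorem Eqv.mono {N M : Subgroup G} (h : M ≤ N) {f : (S →₀ R) →ₗ[R] (S' →₀ R)} (hf : Eqv N f) :
    Eqv M f := fun n hn => hf n (h hn)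

theorem Eqv.pr_eq_zero {N : Subgroup G} {f : (S →₀ R) →ₗ[R] (S' →₀ R)} (hf : Eqv N f)
    {x : S →₀ R} (hx : pr R N S x = 0) : pr R N S' (f x) = 0 := by
  have : x ∈ LinearMap.ker ((pr R N S').comp f) := by
    refine pr_induction R _ (fun n hn s => ?_) hx
    rw [LinearMap.mem_ker, LinearMap.comp_apply, ← ac_single, map_sub, map_sub, hf n hn, pr_ac R hn,
      sub_self]
  exact this

theorem Eqv.pr_congr {N : Subgroup G} {f : (S →₀ R) →ₗ[R] (S' →₀ R)} (hf : Eqv N f)
    {x y : S →₀ R} (hx : pr R N S x = pr R N S y) : pr R N S' (f x) = pr R N S' (f y) := by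
  rw [← sub_eq_zero, ← map_sub, ← map_sub]
  apply hf.pr_eq_zero
  rw [map_sub, hx, sub_self]

theorem pr_ac_normal {N : Subgroup G} [N.Normal] (g : G) {x : S →₀ R} (hx : pr R N S x = 0) :
    pr R N S (ac R S g x) = 0 := by
  have : x ∈ LinearMap.ker ((pr R N S).comp (ac R S g)) := by
    refine pr_induction R _ (fun n hn s => ?_) hx
    have h1 : g • n • s = (g * n * g⁻¹) • g • s := by
      rw [← mul_smul, ← mul_smul]; congr 1; group
    rw [LinearMap.mem_ker, LinearMap.comp_apply, map_sub, ac_single, ac_single, map_sub, h1,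
      pr_single, pr_single, cl_smul (Subgroup.Normal.conj_mem inferInstance n hn g), sub_self]
  exact this

theorem pr_le {N M : Subgroup G} (h : M ≤ N) {x : S →₀ R} (hx : pr R M S x = 0) :
    pr R N S x = 0 := by
  have : x ∈ LinearMap.ker (pr R N S) := by
    refine pr_induction R _ (fun n hn s => ?_) hx
    rw [LinearMap.mem_ker, map_sub, pr_single, pr_single, cl_smul (h hn), sub_self]
  exact this

/-- induced map on orbit modules -/
noncomputable def ind (N : Subgroup G) (f : (S →₀ R) →ₗ[R] (S' →₀ R)) :
    (QQ N S →₀ R) →ₗ[R] (QQ N S' →₀ R) := (pr R N S').comp (f.comp (sec R N S))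

theorem Eqv.ind_pr {N : Subgroup G} {f : (S →₀ R) →ₗ[R] (S' →₀ R)} (hf : Eqv N f) (x : S →₀ R) :
    ind N f (pr R N S x) = pr R N S' (f x) := by
  simp only [ind, LinearMap.comp_apply]
  exact hf.pr_congr (pr_sec R N _)

/-- lift of a map between orbit modules -/
noncomputable def lft (N : Subgroup G) (g : (QQ N S →₀ R) →ₗ[R] (QQ N S' →₀ R)) :
    (S →₀ R) →ₗ[R] (S' →₀ R) :=
  Finsupp.linearCombination R (fun s => ac R S' (rho N s) (sec R N S' (g (single (cl N s) 1))))

theorem eqv_lft (free : ∀ (g : G) (s : S), g • s = s → g = 1) (N : Subgroup G)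
    (g : (QQ N S →₀ R) →ₗ[R] (QQ N S' →₀ R)) : Eqv N (lft N g) := by
  intro n hn x
  induction x using Finsupp.induction_linear with
  | zero => simp
  | add f g hf hg => simp only [map_add, hf, hg]
  | single s r =>
    simp only [ac_single, lft, Finsupp.linearCombination_single, map_smul, rho_smul_eq free hn,
      cl_smul hn, ac_mul]

theorem pr_lft (N : Subgroup G) (g : (QQ N S →₀ R) →ₗ[R] (QQ N S' →₀ R)) (x : S →₀ R) :
    pr R N S' (lft N g x) = g (pr R N S x) := by
  induction x using Finsupp.induction_linear with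
  | zero => simp
  | add f g hf hg => simp only [map_add, hf, hg]
  | single s r =>
    simp only [lft, Finsupp.linearCombination_single, map_smul, pr_ac R (rho_mem N s), pr_sec,
      pr_single]
    rw [← map_smul, smul_single, smul_eq_mul, mul_one]

end basic

/-! ### chains of subgroups -/

section chain

variable {G : Type*} [Group G] (R : Type*) [CommRing R] {S : Type*} [MulAction G S]

theorem mapDomain_apply_sum {A B : Type*} [DecidableEq B] (f : A → B) (x : A →₀ R) (b : B) :
    Finsupp.mapDomain f x b = ∑ a ∈ x.support, if f a = b then x a else 0 := by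
  rw [Finsupp.mapDomain, Finsupp.sum, Finsupp.finsetSum_apply]
  refine Finset.sum_congr rfl (fun a _ => ?_)
  rw [Finsupp.single_apply]

/-- finitely many conditions along a chain -/
theorem exists_chain_le {c : Set (Subgroup G)} (hc : IsChain (· ≤ ·) c) (hne : c.Nonempty)
    {J : Type*} (s : Finset J) (f : J → Subgroup G) (hf : ∀ j ∈ s, f j ∈ c) :
    ∃ N ∈ c, ∀ j ∈ s, N ≤ f j := by
  classical
  induction s using Finset.induction_on with
  | empty => exact ⟨hne.choose, hne.choose_spec, by simp⟩
  | insert a s ha ih =>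
    obtain ⟨N, hN, h⟩ := ih (fun j hj => hf j (Finset.mem_insert_of_mem hj))
    have hfa := hf a (Finset.mem_insert_self a s)
    rcases hc.total hN hfa with h1 | h1
    · refine ⟨N, hN, fun j hj => ?_⟩
      rcases Finset.mem_insert.1 hj with rfl | hj
      · exact h1
      · exact h j hj
    · refine ⟨f a, hfa, fun j hj => ?_⟩
      rcases Finset.mem_insert.1 hj with rfl | hj
      · exact le_rfl
      · exact h1.trans (h j hj)

theorem pr_sInf (free : ∀ (g : G) (s : S), g • s = s → g = 1) {c : Set (Subgroup G)}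
    (hc : IsChain (· ≤ ·) c) (hne : c.Nonempty) {x : S →₀ R}
    (h : ∀ N ∈ c, pr R N S x = 0) : pr R (sInf c) S x = 0 := by
  classical
  -- for every pair choose a subgroup separating
  have key : ∀ st : S × S, ∃ N ∈ c, cl N st.1 = cl N st.2 → cl (sInf c) st.1 = cl (sInf c) st.2 := by
    rintro ⟨s, t⟩
    by_cases hst : ∀ N ∈ c, cl N s = cl N t
    · obtain ⟨N₀, hN₀⟩ := hne
      refine ⟨N₀, hN₀, fun h0 => ?_⟩
      obtain ⟨n, hn, hns⟩ := cl_eq_iff.1 h0
      refine cl_eq_iff.2 ⟨n, ?_, hns⟩
      rw [Subgroup.mem_sInf]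
      intro N hN
      obtain ⟨n', hn', hns'⟩ := cl_eq_iff.1 (hst N hN)
      rw [eq_of_smul_eq free (hns.trans hns'.symm)]
      exact hn'
    · push Not at hst
      obtain ⟨N, hN, h1⟩ := hst
      exact ⟨N, hN, fun h2 => absurd h2 h1⟩
  choose f hf hf' using key
  obtain ⟨N, hN, hle⟩ := exists_chain_le hc hne (x.support ×ˢ x.support) f (fun j _ => hf j)
  have sep : ∀ s ∈ x.support, ∀ t ∈ x.support, cl N s = cl N t → cl (sInf c) s = cl (sInf c) t := by
    intro s hs t ht hst
    apply hf' (s, t)
    obtain ⟨n, hn, hns⟩ := cl_eq_iff.1 hst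
    exact cl_eq_iff.2 ⟨n, hle (s, t) (Finset.mem_product.2 ⟨hs, ht⟩) hn, hns⟩
  ext q
  simp only [pr, Finsupp.lmapDomain_apply, Finsupp.coe_zero, Pi.zero_apply]
  rw [mapDomain_apply_sum]
  by_cases hq : ∃ s ∈ x.support, cl (sInf c) s = q
  · obtain ⟨s₀, hs₀, rfl⟩ := hq
    have h1 := DFunLike.congr_fun (h N hN) (cl N s₀)
    simp only [pr, Finsupp.lmapDomain_apply, Finsupp.coe_zero, Pi.zero_apply] at h1
    rw [mapDomain_apply_sum] at h1
    refine Eq.trans ?_ h1
    refine Finset.sum_congr rfl (fun s hs => ?_)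
    have : cl (sInf c) s = cl (sInf c) s₀ ↔ cl N s = cl N s₀ := by
      constructor
      · intro h2
        obtain ⟨n, hn, hns⟩ := cl_eq_iff.1 h2
        exact cl_eq_iff.2 ⟨n, (Subgroup.mem_sInf.1 hn) N hN, hns⟩
      · exact sep s hs s₀ hs₀
    simp only [this]
  · push Not at hq
    refine Finset.sum_eq_zero (fun s hs => ?_)
    rw [if_neg (hq s hs)]

end chain

/-! ### base change -/

section bc

variable (R : Type*) [CommRing R] {S S' S'' : Type*}

/-- reduction of coefficients -/
noncomputable def red (S : Type*) : (S →₀ ℤ) →+ (S →₀ R) :=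
  Finsupp.mapRange.addMonoidHom (Int.castAddHom R)

theorem red_single (s : S) (r : ℤ) : red R S (single s r) = single s (r : R) := by
  simp [red]

/-- base change of a linear map -/
noncomputable def bc (f : (S →₀ ℤ) →ₗ[ℤ] (S' →₀ ℤ)) : (S →₀ R) →ₗ[R] (S' →₀ R) :=
  Finsupp.linearCombination R (fun s => red R S' (f (single s 1)))

theorem red_zsmul (n : ℤ) (x : S →₀ ℤ) : red R S (n • x) = (n : R) • red R S x := by
  rw [map_zsmul, Int.cast_smul_eq_zsmul]

theorem bc_single (f : (S →₀ ℤ) →ₗ[ℤ] (S' →₀ ℤ)) (s : S) (r : R) :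
    bc R f (single s r) = r • red R S' (f (single s 1)) := by
  rw [bc, Finsupp.linearCombination_single]

theorem bc_red (f : (S →₀ ℤ) →ₗ[ℤ] (S' →₀ ℤ)) (x : S →₀ ℤ) :
    bc R f (red R S x) = red R S' (f x) := by
  induction x using Finsupp.induction_linear with
  | zero => simp
  | add f g hf hg => simp only [map_add, hf, hg]
  | single s r =>
    rw [red_single, bc, Finsupp.linearCombination_single, ← red_zsmul, ← map_smul, smul_single,
      smul_eq_mul, mul_one]

theorem bc_comp (f : (S →₀ ℤ) →ₗ[ℤ] (S' →₀ ℤ)) (g : (S' →₀ ℤ) →ₗ[ℤ] (S'' →₀ ℤ)) (x : S →₀ R) :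
    bc R (g.comp f) x = bc R g (bc R f x) := by
  induction x using Finsupp.induction_linear with
  | zero => simp
  | add f g hf hg => simp only [map_add, hf, hg]
  | single s r =>
    rw [bc_single, bc_single, map_smul, bc_red]
    rfl

theorem bc_sub (f g : (S →₀ ℤ) →ₗ[ℤ] (S' →₀ ℤ)) (x : S →₀ R) :
    bc R (f - g) x = bc R f x - bc R g x := by
  induction x using Finsupp.induction_linear with
  | zero => simp
  | add f g hf hg => simp only [map_add, hf, hg]; abel
  | single s r =>
    simp only [bc, Finsupp.linearCombination_single, LinearMap.sub_apply, map_sub, smul_sub]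

theorem bc_id (x : S →₀ R) : bc R (LinearMap.id : (S →₀ ℤ) →ₗ[ℤ] (S →₀ ℤ)) x = x := by
  induction x using Finsupp.induction_linear with
  | zero => simp
  | add f g hf hg => simp only [map_add, hf, hg]
  | single s r =>
    simp only [bc, Finsupp.linearCombination_single, LinearMap.id_apply, red_single, Int.cast_one,
      smul_single, smul_eq_mul, mul_one]

theorem bc_ext {f g : (S →₀ ℤ) →ₗ[ℤ] (S' →₀ ℤ)} (h : ∀ x, f x = g x) : f = g := LinearMap.ext h

variable {G : Type*} [Group G] [MulAction G S] [MulAction G S']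

theorem red_pr (N : Subgroup G) (x : S →₀ ℤ) : red R _ (pr ℤ N S x) = pr R N S (red R S x) := by
  induction x using Finsupp.induction_linear with
  | zero => simp
  | add f g hf hg => simp only [map_add, hf, hg]
  | single s r => rw [pr_single, red_single, red_single, pr_single]

theorem red_ac (g : G) (x : S →₀ ℤ) : red R _ (ac ℤ S g x) = ac R S g (red R S x) := by
  induction x using Finsupp.induction_linear with
  | zero => simp
  | add f g hf hg => simp only [map_add, hf, hg]
  | single s r => rw [ac_single, red_single, red_single, ac_single]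

theorem eqv_bc {N : Subgroup G} {f : (S →₀ ℤ) →ₗ[ℤ] (S' →₀ ℤ)} (hf : Eqv N f) :
    Eqv N (bc R f) := by
  intro n hn x
  induction x using Finsupp.induction_linear with
  | zero => simp
  | add f g hf hg => simp only [map_add, hf, hg]
  | single s r =>
    simp only [ac_single, bc, Finsupp.linearCombination_single, map_smul]
    rw [← red_ac, ← hf n hn, ac_single]

theorem red_surjective (p : ℕ) (x : S →₀ ZMod p) : ∃ y : S →₀ ℤ, red (ZMod p) S y = x := by
  induction x using Finsupp.induction_linear with
  | zero => exact ⟨0, map_zero _⟩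
  | add f g hf hg =>
    obtain ⟨y, rfl⟩ := hf
    obtain ⟨z, rfl⟩ := hg
    exact ⟨y + z, map_add _ _ _⟩
  | single s r =>
    obtain ⟨n, rfl⟩ := ZMod.intCast_surjective r
    exact ⟨single s n, red_single _ _ _⟩

theorem red_eq_zero_iff (p : ℕ) (x : S →₀ ℤ) :
    red (ZMod p) S x = 0 ↔ ∃ y : S →₀ ℤ, x = (p : ℤ) • y := by
  constructor
  · intro h
    have h1 : ∀ s, (p : ℤ) ∣ x s := by
      intro s
      have := DFunLike.congr_fun h s
      have h2 : ((x s : ℤ) : ZMod p) = 0 := by simpa [red] using this
      exact (ZMod.intCast_zmod_eq_zero_iff_dvd _ _).1 h2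
    refine ⟨Finsupp.mapRange (fun n => n / (p : ℤ)) (by simp) x, ?_⟩
    ext s
    simp only [Finsupp.smul_apply, Finsupp.mapRange_apply, smul_eq_mul]
    exact (Int.mul_ediv_cancel' (h1 s)).symm
  · rintro ⟨y, rfl⟩
    rw [red_zsmul]
    simp

end bc

end Pool.Agent.H59
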