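import Mathlib

/-! Elementary singular chains, indexed by the number of vertices. -/

open Topology Set

namespace Pool.Agent.H59

section Alt

variable (R : Type*) [CommRing R] {A B C : Type*} {n : ℕ}

/-- Alternating sum of faces, extended linearly. -/
noncomputable def altbd (face : A → Fin (n + 1) → B) : (A →₀ R) →ₗ[R] (B →₀ R) :=
  Finsupp.linearCombination R
    (fun a : A => ∑ i : Fin (n + 1), (-1 : R) ^ (i : ℕ) • Finsupp.single (face a i) (1 : R))

theorem altbd_single (face : A → Fin (n + 1) → B) (a : A) (r : R) :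
    altbd R face (Finsupp.single a r) =
      r • ∑ i : Fin (n + 1), (-1 : R) ^ (i : ℕ) • Finsupp.single (face a i) (1 : R) := by
  simp [altbd, Finsupp.linearCombination_single]

theorem alt_sum_zero {M : Type*} [AddCommGroup M] [Module R M] (n : ℕ)
    (f : Fin (n + 2) → Fin (n + 1) → M)
    (h : ∀ i j : Fin (n + 1), i ≤ j → f j.succ i = f i.castSucc j) :
    ∑ i : Fin (n + 2), ∑ j : Fin (n + 1), ((-1 : R) ^ (i : ℕ) * (-1 : R) ^ (j : ℕ)) • f i j = 0 := by
  classical
  rw [← Finset.sum_product']
  let P := Fin (n + 2) × Fin (n + 1)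
  let S : Finset P := {ij : P | (ij.1 : ℕ) ≤ (ij.2 : ℕ)}
  rw [Finset.univ_product_univ, ← Finset.sum_add_sum_compl S, ← eq_neg_iff_add_eq_zero,
    ← Finset.sum_neg_distrib]
  let φ : ∀ ij : P, ij ∈ S → P := fun ij hij =>
    (ij.2.succ, Fin.castLT ij.1 (lt_of_le_of_lt (Finset.mem_filter.mp hij).right (Fin.is_lt ij.2)))
  apply Finset.sum_bij φ
  · intro ij hij
    simp_rw [S, φ, Finset.compl_filter, Finset.mem_filter_univ, Fin.val_succ,
      Fin.val_castLT] at hij ⊢
    lia
  · rintro ⟨i, j⟩ hij ⟨i', j'⟩ hij' h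
    rw [Prod.mk_inj]
    exact ⟨by simpa [φ, Fin.castSucc_castLT] using! congr_arg Fin.castSucc (congr_arg Prod.snd h),
      by simpa [φ] using! congr_arg Prod.fst h⟩
  · rintro ⟨i', j'⟩ hij'
    simp_rw [S, Finset.compl_filter, Finset.mem_filter_univ, not_le] at hij'
    refine ⟨(Fin.castSucc j', i'.pred <| ?_), ?_, ?_⟩
    · rintro rfl
      simp only [Fin.val_zero, not_lt_zero] at hij'
    · simpa [S] using! Nat.le_sub_one_of_lt hij'
    · simp only [φ, Fin.castLT_castSucc, Fin.succ_pred]
  · rintro ⟨i, j⟩ hij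
    have hij' : (i : ℕ) ≤ (j : ℕ) := by simpa [S] using hij
    dsimp [φ]
    rw [← neg_smul]
    have := h (Fin.castLT i (lt_of_le_of_lt hij' (Fin.is_lt j))) j (by simpa [Fin.le_def] using hij')
    rw [Fin.castSucc_castLT] at this
    rw [this]
    congr 1
    simp only [pow_add, pow_one, mul_neg, neg_mul, neg_neg, mul_one]
    ring

theorem altbd_altbd (faceA : A → Fin (n + 2) → B) (faceB : B → Fin (n + 1) → C)
    (h : ∀ a, ∀ i j : Fin (n + 1), i ≤ j → faceB (faceA a j.succ) i = faceB (faceA a i.castSucc) j)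
    (x : A →₀ R) : altbd R faceB (altbd R faceA x) = 0 := by
  induction x using Finsupp.induction_linear with
  | zero => simp
  | add f g hf hg => simp [hf, hg]
  | single a r =>
    rw [altbd_single, map_smul, map_sum]
    simp_rw [map_smul, altbd_single, one_smul, Finset.smul_sum, smul_smul]
    have := alt_sum_zero R n (fun i j => Finsupp.single (faceB (faceA a i) j) (1 : R)) (by
      intro i j hij
      rw [h a i j hij])
    have h2 := congrArg (fun v => r • v) this
    rw [smul_zero] at h2
    rw [← h2]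
    simp only [Finset.smul_sum, smul_smul]

variable {A' B' : Type*}

theorem altbd_mapDomain (face : A → Fin (n + 1) → B) (face' : A' → Fin (n + 1) → B')
    (f : A → A') (g : B → B') (h : ∀ a i, face' (f a) i = g (face a i)) (x : A →₀ R) :
    altbd R face' (Finsupp.mapDomain f x) = Finsupp.mapDomain g (altbd R face x) := by
  induction x using Finsupp.induction_linear with
  | zero => simp
  | add u v hu hv => simp [Finsupp.mapDomain_add, hu, hv]
  | single a r =>
    rw [Finsupp.mapDomain_single, altbd_single, altbd_single, Finsupp.mapDomain_smul,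
      Finsupp.mapDomain_finsetSum]
    simp_rw [h, Finsupp.mapDomain_smul, Finsupp.mapDomain_single]

theorem altbd_mapRange {R' : Type*} [CommRing R'] (φ : R →+* R') (face : A → Fin (n + 1) → B)
    (x : A →₀ R) :
    altbd R' face (Finsupp.mapRange φ (map_zero φ) x) =
      Finsupp.mapRange φ (map_zero φ) (altbd R face x) := by
  induction x using Finsupp.induction_linear with
  | zero => simp
  | add u v hu hv =>
    rw [Finsupp.mapRange_add (map_add φ), map_add, hu, hv, map_add, Finsupp.mapRange_add (map_add φ)]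
  | single a r =>
    rw [Finsupp.mapRange_single, altbd_single, altbd_single]
    classical
    ext b
    simp only [Finsupp.smul_apply, Finsupp.finsetSum_apply, Finsupp.mapRange_apply, map_mul,
      smul_eq_mul, map_sum, Finsupp.single_apply, map_pow, map_neg, map_one, apply_ite φ, map_zero]

end Alt

/-- The standard simplex with `n` vertices (so of dimension `n - 1`). -/
abbrev Dl (n : ℕ) := stdSimplex ℝ (Fin n)

/-- The `i`-th coface map. -/
noncomputable def cf {n : ℕ} (i : Fin (n + 1)) : C(Dl n, Dl (n + 1)) :=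
  ⟨stdSimplex.map (Fin.succAbove i), stdSimplex.continuous_map _⟩

/-- Singular simplices with `n` vertices. -/
abbrev Smp (n : ℕ) (Y : Type*) [TopologicalSpace Y] := C(Dl n, Y)

variable {Y Z : Type*} [TopologicalSpace Y] [TopologicalSpace Z]

/-- The `i`-th face of a singular simplex. -/
noncomputable def fc {n : ℕ} (σ : Smp (n + 1) Y) (i : Fin (n + 1)) : Smp n Y := σ.comp (cf i)

theorem succAbove_succAbove' {n : ℕ} (i j : Fin (n + 1)) (hij : i ≤ j) :
    (Fin.succAbove j.succ) ∘ (Fin.succAbove i) =
      (Fin.succAbove i.castSucc) ∘ (Fin.succAbove j) := by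
  ext k : 1
  simp only [Function.comp]
  ext
  simp only [Fin.succAbove, Fin.lt_def, Fin.le_def] at *
  split_ifs <;> simp_all <;> lia

theorem cf_comp_cf {n : ℕ} (i j : Fin (n + 1)) (hij : i ≤ j) :
    (cf j.succ).comp (cf i) = (cf i.castSucc).comp (cf j) := by
  ext1 x
  simp only [cf, ContinuousMap.comp_apply, ContinuousMap.coe_mk]
  rw [stdSimplex.map_comp_apply, stdSimplex.map_comp_apply, succAbove_succAbove' i j hij]

theorem fc_fc {n : ℕ} (σ : Smp (n + 2) Y) (i j : Fin (n + 1)) (hij : i ≤ j) :
    fc (fc σ j.succ) i = fc (fc σ i.castSucc) j := by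
  simp only [fc, ContinuousMap.comp_assoc, cf_comp_cf i j hij]

/-- Singular chains with coefficients in `R` spanned by simplices with `n` vertices. -/
abbrev Ch (R : Type*) [CommRing R] (n : ℕ) (Y : Type*) [TopologicalSpace Y] := Smp n Y →₀ R

/-- The boundary map. -/
noncomputable def bd (R : Type*) [CommRing R] (n : ℕ) (Y : Type*) [TopologicalSpace Y] :
    Ch R (n + 1) Y →ₗ[R] Ch R n Y :=
  altbd R (fun σ i => fc σ i)

variable {R : Type*} [CommRing R]

theorem bd_single (n : ℕ) (σ : Smp (n + 1) Y) (r : R) :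
    bd R n Y (Finsupp.single σ r) =
      r • ∑ i : Fin (n + 1), (-1 : R) ^ (i : ℕ) • Finsupp.single (fc σ i) (1 : R) :=
  altbd_single R _ σ r

@[simp] theorem bd_bd (n : ℕ) (x : Ch R (n + 2) Y) : bd R n Y (bd R (n + 1) Y x) = 0 :=
  altbd_altbd R _ _ (fun a i j hij => fc_fc a i j hij) x

/-- push-forward of chains under a continuous map -/
noncomputable def pf (R : Type*) [CommRing R] (n : ℕ) (f : C(Y, Z)) : Ch R n Y →ₗ[R] Ch R n Z :=
  Finsupp.lmapDomain R R (fun σ => f.comp σ)

@[simp] theorem pf_single (n : ℕ) (f : C(Y, Z)) (σ : Smp n Y) (r : R) :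
    pf R n f (Finsupp.single σ r) = Finsupp.single (f.comp σ) r := by
  simp [pf, Finsupp.mapDomain_single]

theorem bd_pf (n : ℕ) (f : C(Y, Z)) (x : Ch R (n + 1) Y) :
    bd R n Z (pf R (n + 1) f x) = pf R n f (bd R n Y x) :=
  altbd_mapDomain R (fun σ i => fc σ i) (fun σ i => fc σ i) (fun σ => f.comp σ)
    (fun σ => f.comp σ) (fun _ _ => rfl) x

end Pool.Agent.H59
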