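import Mathlib
import Pool.Agent.H59.Sing

open Topology Set CategoryTheory CategoryTheory.Limits Simplicial
namespace Pool.Agent.H59

section Bridge
variable (Y : Type) [TopologicalSpace Y]

/-- The singular simplicial set. -/
noncomputable abbrev SS : SSet.{0} := TopCat.toSSet.obj (TopCat.of Y)

/-- Simplices of the singular simplicial set are singular simplices. -/
noncomputable def smpEquiv (n : ℕ) : (SS Y) _⦋n⦌ ≃ Smp (n+1) Y :=
  TopCat.toSSetObjEquiv (TopCat.of Y) (.op ⦋n⦌)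

lemma smpEquiv_δ (n : ℕ) (x : (SS Y) _⦋n+1⦌) (i : Fin (n+2)) :
    smpEquiv Y n ((SS Y).δ i x) = fc (smpEquiv Y (n+1) x) i := by
  rfl

/-- Mathlib's singular chain complex. -/
noncomputable abbrev SC : ChainComplex (ModuleCat.{0} ℤ) ℕ :=
  (SS Y).chainComplex (ModuleCat.of ℤ ℤ)

/-- Comparison map from Mathlib's chains to elementary chains. -/
noncomputable def toCh (n : ℕ) : (SC Y).X n ⟶ ModuleCat.of ℤ (Ch ℤ (n+1) Y) :=
  Sigma.desc (fun x : (SS Y) _⦋n⦌ => ModuleCat.ofHom (Finsupp.lsingle (smpEquiv Y n x)))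

lemma ι_toCh (n : ℕ) (x : (SS Y) _⦋n⦌) :
    (SS Y).ιChainComplex x ≫ toCh Y n =
      ModuleCat.ofHom (Finsupp.lsingle (M := ℤ) (R := ℤ) (smpEquiv Y n x)) :=
  Sigma.ι_desc _ _

lemma ι_toCh_one (n : ℕ) (x : (SS Y) _⦋n⦌) :
    (toCh Y n).hom (((SS Y).ιChainComplex (R := ModuleCat.of ℤ ℤ) x).hom (1 : ℤ)) =
      Finsupp.single (smpEquiv Y n x) (1 : ℤ) :=
  congrArg (fun f => f.hom (1 : ℤ)) (ι_toCh Y n x)

/-- Comparison map from elementary chains to Mathlib's chains. -/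
noncomputable def ofCh (n : ℕ) : Ch ℤ (n+1) Y →ₗ[ℤ] (SC Y).X n :=
  Finsupp.linearCombination ℤ
    (fun σ : Smp (n+1) Y => ((SS Y).ιChainComplex (R := ModuleCat.of ℤ ℤ)
      ((smpEquiv Y n).symm σ)).hom (1 : ℤ))

lemma ofCh_single (n : ℕ) (σ : Smp (n+1) Y) :
    ofCh Y n (Finsupp.single σ 1) = ((SS Y).ιChainComplex (R := ModuleCat.of ℤ ℤ)
      ((smpEquiv Y n).symm σ)).hom (1 : ℤ) := by
  rw [ofCh, Finsupp.linearCombination_single]
  exact @one_smul ℤ ((SC Y).X n) _ ((SC Y).X n).isModule.toMulAction _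

lemma toCh_ofCh (n : ℕ) (c : Ch ℤ (n+1) Y) : (toCh Y n).hom (ofCh Y n c) = c := by
  have : (toCh Y n).hom ∘ₗ ofCh Y n = LinearMap.id := by
    ext σ : 2
    ext
    · simp only [LinearMap.comp_apply, Finsupp.lsingle_apply, LinearMap.id_apply]
      rw [ofCh_single, ι_toCh_one]
      simp
  exact LinearMap.congr_fun this c

lemma ofCh_toCh (n : ℕ) (c : (SC Y).X n) : ofCh Y n ((toCh Y n).hom c) = c := by
  have : toCh Y n ≫ ModuleCat.ofHom (ofCh Y n) = 𝟙 _ := by
    apply SSet.chainComplex_hom_ext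
    intro x
    rw [← Category.assoc, ι_toCh, Category.comp_id]
    ext
    change ofCh Y n (Finsupp.single _ (1 : ℤ)) = _
    rw [ofCh_single]
    simp
  exact congrArg (fun f => f.hom c) this

lemma toCh_comm (n : ℕ) (c : (SC Y).X (n+1)) :
    (toCh Y n).hom (((SC Y).d (n+1) n).hom c) = bd ℤ (n+1) Y ((toCh Y (n+1)).hom c) := by
  have : (SC Y).d (n+1) n ≫ toCh Y n = toCh Y (n+1) ≫ ModuleCat.ofHom (bd ℤ (n+1) Y) := by
    apply SSet.chainComplex_hom_ext
    intro x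
    rw [← Category.assoc, ← Category.assoc, ι_toCh, SSet.ιChainComplex_d]
    have hL : (∑ i : Fin (n+2), (-1 : ℤ) ^ i.val • (SS Y).ιChainComplex (R := ModuleCat.of ℤ ℤ)
        ((SS Y).δ i x)) ≫ toCh Y n = ∑ i : Fin (n+2), (-1 : ℤ) ^ i.val •
          ModuleCat.ofHom (Finsupp.lsingle (M := ℤ) (R := ℤ) (fc (smpEquiv Y (n+1) x) i)) := by
      rw [Preadditive.sum_comp]
      apply Finset.sum_congr rfl
      intro i _
      rw [Preadditive.zsmul_comp, ι_toCh, smpEquiv_δ]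
    refine Eq.trans hL ?_
    apply ModuleCat.hom_ext
    apply LinearMap.ext_ring
    rw [ModuleCat.hom_sum, LinearMap.sum_apply]
    change _ = bd ℤ (n+1) Y (Finsupp.single (smpEquiv Y (n+1) x) (1 : ℤ))
    rw [bd_single, one_smul]
    apply Finset.sum_congr rfl
    intro i _
    rfl
  exact congrArg (fun f => f.hom c) this

end Bridge

theorem isZero_singularHomology_iff (Y : Type) [TopologicalSpace Y] (m : ℕ) :
    IsZero (((AlgebraicTopology.singularHomologyFunctor (ModuleCat.{0} ℤ) (m + 1)).obj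
      (ModuleCat.of ℤ ℤ)).obj (TopCat.of Y)) ↔
    ∀ z : Ch ℤ (m + 2) Y, bd ℤ (m + 1) Y z = 0 → ∃ b : Ch ℤ (m + 3) Y, bd ℤ (m + 2) Y b = z := by
  change IsZero ((SC Y).homology (m+1)) ↔ _
  rw [← HomologicalComplex.exactAt_iff_isZero_homology,
    HomologicalComplex.exactAt_iff' _ (m+2) (m+1) m (by simp) (by simp)]
  rw [ShortComplex.moduleCat_exact_iff]
  constructor
  · intro h z hz
    obtain ⟨b, hb⟩ := h (ofCh Y (m+1) z) (by
      have h1 := toCh_comm Y m (ofCh Y (m+1) z)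
      rw [toCh_ofCh, hz] at h1
      have h2 := congrArg (ofCh Y m) h1
      rw [ofCh_toCh, map_zero] at h2
      exact h2)
    refine ⟨(toCh Y (m+2)).hom b, ?_⟩
    rw [← toCh_comm]
    have h3 := congrArg (toCh Y (m+1)).hom hb
    rw [toCh_ofCh] at h3
    exact h3
  · intro h x hx
    obtain ⟨b, hb⟩ := h ((toCh Y (m+1)).hom x) (by
      rw [← toCh_comm]
      have := congrArg (toCh Y m).hom hx
      exact this.trans (map_zero (toCh Y m).hom))
    refine ⟨ofCh Y (m+2) b, ?_⟩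
    have h1 := toCh_comm Y (m+1) (ofCh Y (m+2) b)
    rw [toCh_ofCh, hb] at h1
    have h2 := congrArg (ofCh Y (m+1)) h1
    rw [ofCh_toCh, ofCh_toCh] at h2
    exact h2

end Pool.Agent.H59
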