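import Pool.Agent.H59.Sing

/-! Affine simplices in convex spaces, barycentric subdivision and prism operators. -/

open Topology Set

namespace Pool.Agent.H59

/-- convex combinations in a standard simplex -/
noncomputable def cmbDl {m n : ℕ} (w : Fin m → Dl n) (x : Dl m) : Dl n :=
  ⟨∑ i, x i • (w i : Fin n → ℝ), (convex_stdSimplex ℝ (Fin n)).sum_mem (fun i _ => x.2.1 i)
    (x.2.2) (fun i _ => (w i).2)⟩

/-- A space with a notion of finite convex combinations. -/
class CvxSp (K : Type*) [TopologicalSpace K] where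
  comb : ∀ {n : ℕ}, (Fin n → K) → Dl n → K
  comb_vertex : ∀ {n : ℕ} (v : Fin n → K) (i : Fin n), comb v (stdSimplex.vertex i) = v i
  comb_comb : ∀ {m n : ℕ} (v : Fin n → K) (w : Fin m → Dl n) (x : Dl m),
    comb (fun i => comb v (w i)) x = comb v (cmbDl w x)
  cont : ∀ {n : ℕ} (v : Fin n → K), Continuous (comb v)

open CvxSp

section ofConvex

variable {V : Type*} [AddCommGroup V] [Module ℝ V] [TopologicalSpace V] [ContinuousAdd V]
  [ContinuousSMul ℝ V]

/-- convex subsets have convex combinations -/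
@[reducible] noncomputable def CvxSp.ofConvex (K : Set V) (hK : Convex ℝ K) : CvxSp K where
  comb v x := ⟨∑ i, x i • (v i : V), hK.sum_mem (fun i _ => x.2.1 i) (x.2.2) (fun i _ => (v i).2)⟩
  comb_vertex v i := by
    apply Subtype.ext
    simp only [stdSimplex.vertex_coe]
    rw [Finset.sum_eq_single i]
    · simp
    · intro j _ hj
      simp [Pi.single_eq_of_ne hj]
    · simp
  comb_comb v w x := by
    apply Subtype.ext
    simp only [cmbDl]
    simp only [Finset.smul_sum, smul_smul]
    rw [Finset.sum_comm]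
    refine Finset.sum_congr rfl (fun j _ => ?_)
    rw [← Finset.sum_smul]
    congr 1
    change _ = (∑ i, x i • (w i : Fin _ → ℝ)) j
    simp [Finset.sum_apply]
  cont v := by
    apply Continuous.subtype_mk
    refine continuous_finsetSum _ (fun i _ => ?_)
    refine Continuous.smul ?_ continuous_const
    exact (continuous_apply i).comp continuous_subtype_val

end ofConvex

noncomputable instance (n : ℕ) : CvxSp (Dl n) :=
  CvxSp.ofConvex (stdSimplex ℝ (Fin n)) (convex_stdSimplex ℝ (Fin n))

noncomputable instance : CvxSp unitInterval :=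
  CvxSp.ofConvex (Set.Icc (0:ℝ) 1) (convex_Icc 0 1)

theorem comb_Dl {m n : ℕ} (w : Fin m → Dl n) (x : Dl m) : comb w x = cmbDl w x := rfl

instance instCvxProd {K K' : Type*} [TopologicalSpace K] [TopologicalSpace K'] [CvxSp K] [CvxSp K'] :
    CvxSp (K × K') where
  comb v x := (comb (fun i => (v i).1) x, comb (fun i => (v i).2) x)
  comb_vertex v i := by simp [comb_vertex]
  comb_comb v w x := by
    ext
    · exact comb_comb (fun i => (v i).1) w x
    · exact comb_comb (fun i => (v i).2) w x
  cont v := (cont _).prodMk (cont _)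

section

variable {K K' : Type*} [TopologicalSpace K] [TopologicalSpace K'] [CvxSp K] [CvxSp K']

theorem comb_prod {n : ℕ} (v : Fin n → K × K') (x : Dl n) :
    comb v x = (comb (fun i => (v i).1) x, comb (fun i => (v i).2) x) := rfl

theorem comb_const {n : ℕ} (c : K) (x : Dl n) : comb (fun _ : Fin n => c) x = c := by
  have h1 : c = comb (fun _ : Fin 1 => c) (stdSimplex.vertex 0) :=
    (comb_vertex (fun _ : Fin 1 => c) 0).symm
  have h2 : (fun _ : Fin n => c) = fun i : Fin n =>
      comb (fun _ : Fin 1 => c) ((fun _ => stdSimplex.vertex 0 : Fin n → Dl 1) i) := by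
    funext i; exact h1
  calc comb (fun _ : Fin n => c) x = comb (fun i : Fin n =>
      comb (fun _ : Fin 1 => c) ((fun _ => stdSimplex.vertex 0 : Fin n → Dl 1) i)) x := by rw [← h2]
    _ = comb (fun _ : Fin 1 => c) (cmbDl (fun _ => stdSimplex.vertex 0 : Fin n → Dl 1) x) :=
        comb_comb _ _ _
    _ = c := by
        rw [Subsingleton.elim (cmbDl (fun _ => stdSimplex.vertex 0 : Fin n → Dl 1) x)
          (stdSimplex.vertex 0), comb_vertex]

/-- The tuple of vertices. -/
noncomputable def vtx (n : ℕ) : Fin n → Dl n := fun i => stdSimplex.vertex i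

theorem comb_vtx {n : ℕ} (x : Dl n) : comb (vtx n) x = x := by
  apply Subtype.ext
  change ∑ i, x i • (Pi.single i 1 : Fin n → ℝ) = _
  ext j
  simp [Finset.sum_apply, Pi.single_apply]
  rfl

theorem map_eq_comb {m n : ℕ} (f : Fin m → Fin n) (x : Dl m) :
    stdSimplex.map f x = comb (fun j => (stdSimplex.vertex (f j) : Dl n)) x := by
  apply Subtype.ext
  change FunOnFinite.linearMap ℝ ℝ f x = ∑ i, x i • (Pi.single (f i) 1 : Fin n → ℝ)
  ext j
  classical
  rw [FunOnFinite.linearMap_apply_apply]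
  simp only [Finset.sum_apply, Pi.smul_apply, Pi.single_apply, smul_eq_mul, mul_ite, mul_one,
    mul_zero]
  rw [Finset.sum_filter]
  refine Finset.sum_congr rfl (fun i _ => ?_)
  simp only [eq_comm]

theorem comb_map {m n : ℕ} (v : Fin n → K) (f : Fin m → Fin n) (x : Dl m) :
    comb v (stdSimplex.map f x) = comb (v ∘ f) x := by
  rw [map_eq_comb, comb_Dl, ← comb_comb]
  congr 1
  funext j
  exact comb_vertex v (f j)

/-- Affine maps of convex spaces -/
def IsAff (φ : K → K') : Prop := ∀ (n : ℕ) (v : Fin n → K) (x : Dl n), φ (comb v x) = comb (φ ∘ v) x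

theorem isAff_comb {n : ℕ} (v : Fin n → K) : IsAff (comb v : Dl n → K) := by
  intro m w x
  rw [comb_Dl, ← comb_comb]
  rfl

end

/-- Chains on tuples of points -/
abbrev LL (n : ℕ) (K : Type*) := (Fin n → K) →₀ ℤ

section LLsec

variable {K K' K₂ K₂' : Type*}

/-- boundary on tuples -/
noncomputable def bdL (n : ℕ) (K : Type*) : LL (n + 1) K →ₗ[ℤ] LL n K :=
  altbd ℤ (fun (v : Fin (n + 1) → K) i => v ∘ i.succAbove)

@[simp] theorem bdL_bdL (n : ℕ) (x : LL (n + 2) K) : bdL n K (bdL (n + 1) K x) = 0 := by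
  refine altbd_altbd ℤ _ _ (fun v i j hij => ?_) x
  rw [Function.comp_assoc, Function.comp_assoc, succAbove_succAbove' i j hij]

/-- induced map on tuples -/
noncomputable def mapL (n : ℕ) (φ : K → K') : LL n K →ₗ[ℤ] LL n K' :=
  Finsupp.lmapDomain ℤ ℤ (fun v => φ ∘ v)

@[simp] theorem mapL_single (n : ℕ) (φ : K → K') (v : Fin n → K) (r : ℤ) :
    mapL n φ (Finsupp.single v r) = Finsupp.single (φ ∘ v) r := by
  simp [mapL, Finsupp.mapDomain_single]

theorem bdL_mapL (n : ℕ) (φ : K → K') (x : LL (n + 1) K) :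
    bdL n K' (mapL (n + 1) φ x) = mapL n φ (bdL n K x) :=
  altbd_mapDomain ℤ (fun (v : Fin (n + 1) → K) i => v ∘ i.succAbove)
    (fun (v : Fin (n + 1) → K') i => v ∘ i.succAbove) (fun v => φ ∘ v) (fun v => φ ∘ v)
    (fun _ _ => rfl) x

/-- cone operator -/
noncomputable def cone (n : ℕ) (b : K) : LL n K →ₗ[ℤ] LL (n + 1) K :=
  Finsupp.lmapDomain ℤ ℤ (fun v => (Fin.cons b v : Fin (n + 1) → K))

@[simp] theorem cone_single (n : ℕ) (b : K) (v : Fin n → K) (r : ℤ) :
    cone n b (Finsupp.single v r) = Finsupp.single (Fin.cons b v : Fin (n + 1) → K) r := by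
  simp [cone, Finsupp.mapDomain_single]

theorem cons_comp_zero {n : ℕ} (b : K) (v : Fin n → K) :
    (Fin.cons b v : Fin (n + 1) → K) ∘ (0 : Fin (n + 1)).succAbove = v := by
  funext i
  simp

theorem cons_comp_succ {n : ℕ} (b : K) (v : Fin (n + 1) → K) (j : Fin (n + 1)) :
    (Fin.cons b v : Fin (n + 2) → K) ∘ (j.succ).succAbove =
      (Fin.cons b (v ∘ j.succAbove) : Fin (n + 1) → K) := by
  funext i
  refine Fin.cases ?_ (fun i => ?_) i
  · simp
  · simp

theorem bdL_cone_zero (b : K) (x : LL 0 K) : bdL 0 K (cone 0 b x) = x := by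
  induction x using Finsupp.induction_linear with
  | zero => simp
  | add u v hu hv => simp [hu, hv]
  | single a r =>
    rw [cone_single]
    simp only [bdL, altbd_single]
    rw [Fin.sum_univ_succ, cons_comp_zero]
    simp

theorem bdL_cone_succ (n : ℕ) (b : K) (x : LL (n + 1) K) :
    bdL (n + 1) K (cone (n + 1) b x) = x - cone n b (bdL n K x) := by
  induction x using Finsupp.induction_linear with
  | zero => simp
  | add u v hu hv => rw [map_add, map_add, hu, hv, map_add, map_add]; abel
  | single a r =>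
    rw [cone_single]
    simp only [bdL, altbd_single]
    rw [Fin.sum_univ_succ, cons_comp_zero]
    simp only [Fin.val_zero, pow_zero, one_smul, map_smul, map_sum, cone_single, Fin.val_succ,
      cons_comp_succ, smul_add, pow_succ, mul_neg, mul_one, neg_smul, Finset.sum_neg_distrib,
      smul_neg, sub_eq_add_neg, Finsupp.smul_single, smul_eq_mul]

theorem mapL_cone (n : ℕ) (φ : K → K') (b : K) (x : LL n K) :
    mapL (n + 1) φ (cone n b x) = cone n (φ b) (mapL n φ x) := by
  induction x using Finsupp.induction_linear with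
  | zero => simp
  | add u v hu hv => simp [hu, hv]
  | single a r =>
    rw [cone_single, mapL_single, mapL_single, cone_single]
    congr 1
    funext i
    refine Fin.cases ?_ (fun i => ?_) i <;> simp

/-- the general homotopy between two chain maps on tuples -/
noncomputable def htpy (f g : ∀ n, LL n K →ₗ[ℤ] LL n K') (apex : ∀ n, (Fin (n + 1) → K) → K') :
    ∀ n, LL n K →ₗ[ℤ] LL (n + 1) K'
  | 0 => 0
  | n + 1 => Finsupp.linearCombination ℤ (fun v : Fin (n + 1) → K =>
      cone (n + 1) (apex n v) (f (n + 1) (Finsupp.single v 1) - g (n + 1) (Finsupp.single v 1) -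
        htpy f g apex n (bdL n K (Finsupp.single v 1))))

theorem htpy_succ_single (f g : ∀ n, LL n K →ₗ[ℤ] LL n K') (apex : ∀ n, (Fin (n + 1) → K) → K')
    (n : ℕ) (v : Fin (n + 1) → K) :
    htpy f g apex (n + 1) (Finsupp.single v 1) =
      cone (n + 1) (apex n v) (f (n + 1) (Finsupp.single v 1) - g (n + 1) (Finsupp.single v 1) -
        htpy f g apex n (bdL n K (Finsupp.single v 1))) := by
  rw [htpy, Finsupp.linearCombination_single, one_smul]

/-- two linear maps on finitely supported functions agreeing on basis vectors agree -/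
theorem lin_ext {α M : Type*} [AddCommGroup M] {f g : (α →₀ ℤ) →ₗ[ℤ] M}
    (h : ∀ a, f (Finsupp.single a 1) = g (Finsupp.single a 1)) (x : α →₀ ℤ) : f x = g x := by
  have : f = g := by
    apply Finsupp.lhom_ext'
    intro a
    apply LinearMap.ext_ring
    simpa using h a
  rw [this]

theorem htpy_spec (f g : ∀ n, LL n K →ₗ[ℤ] LL n K') (apex : ∀ n, (Fin (n + 1) → K) → K')
    (hf : ∀ n x, bdL n K' (f (n + 1) x) = f n (bdL n K x))
    (hg : ∀ n x, bdL n K' (g (n + 1) x) = g n (bdL n K x))
    (h0 : f 0 = g 0) (n : ℕ) (x : LL (n + 1) K) :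
    bdL (n + 1) K' (htpy f g apex (n + 1) x) = f (n + 1) x - g (n + 1) x - htpy f g apex n (bdL n K x) := by
  induction n with
  | zero =>
    refine lin_ext (f := (bdL 1 K').comp (htpy f g apex 1))
      (g := f 1 - g 1 - (htpy f g apex 0).comp (bdL 0 K)) (fun v => ?_) x
    simp only [LinearMap.comp_apply, LinearMap.sub_apply]
    rw [htpy_succ_single, bdL_cone_succ]
    simp [hf, hg, h0, htpy]
  | succ n ih =>
    refine lin_ext (f := (bdL (n + 2) K').comp (htpy f g apex (n + 2)))
      (g := f (n + 2) - g (n + 2) - (htpy f g apex (n + 1)).comp (bdL (n + 1) K)) (fun v => ?_) x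
    simp only [LinearMap.comp_apply, LinearMap.sub_apply]
    rw [htpy_succ_single, bdL_cone_succ]
    simp only [map_sub, hf, hg, ih, bdL_bdL, map_zero, sub_zero, sub_self]

theorem htpy_nat (f g : ∀ n, LL n K →ₗ[ℤ] LL n K') (apex : ∀ n, (Fin (n + 1) → K) → K')
    (f₂ g₂ : ∀ n, LL n K₂ →ₗ[ℤ] LL n K₂') (apex₂ : ∀ n, (Fin (n + 1) → K₂) → K₂')
    (φ : K → K₂) (φ' : K' → K₂')
    (hf : ∀ n x, mapL n φ' (f n x) = f₂ n (mapL n φ x))
    (hg : ∀ n x, mapL n φ' (g n x) = g₂ n (mapL n φ x))
    (ha : ∀ n v, φ' (apex n v) = apex₂ n (φ ∘ v)) (n : ℕ) (x : LL n K) :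
    mapL (n + 1) φ' (htpy f g apex n x) = htpy f₂ g₂ apex₂ n (mapL n φ x) := by
  induction n with
  | zero => simp [htpy]
  | succ n ih =>
    refine lin_ext (f := (mapL (n + 2) φ').comp (htpy f g apex (n + 1)))
      (g := (htpy f₂ g₂ apex₂ (n + 1)).comp (mapL (n + 1) φ)) (fun v => ?_) x
    simp only [LinearMap.comp_apply]
    rw [mapL_single, htpy_succ_single, htpy_succ_single, mapL_cone, ha]
    simp only [map_sub, hf, hg, ih, ← bdL_mapL, mapL_single]

end LLsec

section Sd

variable {K K' : Type*} [TopologicalSpace K] [TopologicalSpace K'] [CvxSp K] [CvxSp K']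

/-- barycenter of a nonempty tuple -/
noncomputable def bary (n : ℕ) (v : Fin (n + 1) → K) : K := comb v stdSimplex.barycenter

/-- barycentric subdivision on tuples -/
noncomputable def SdL : ∀ n, LL n K →ₗ[ℤ] LL n K
  | 0 => LinearMap.id
  | n + 1 => Finsupp.linearCombination ℤ (fun v : Fin (n + 1) → K =>
      cone n (bary n v) (SdL n (bdL n K (Finsupp.single v 1))))

theorem SdL_succ_single (n : ℕ) (v : Fin (n + 1) → K) :
    SdL (n + 1) (Finsupp.single v 1) = cone n (bary n v) (SdL n (bdL n K (Finsupp.single v 1))) := by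
  rw [SdL, Finsupp.linearCombination_single, one_smul]

theorem bdL_SdL (n : ℕ) (x : LL (n + 1) K) : bdL n K (SdL (n + 1) x) = SdL n (bdL n K x) := by
  induction n with
  | zero =>
    refine lin_ext (f := (bdL 0 K).comp (SdL 1)) (g := (SdL 0).comp (bdL 0 K)) (fun v => ?_) x
    simp only [LinearMap.comp_apply]
    rw [SdL_succ_single, bdL_cone_zero]
  | succ n ih =>
    refine lin_ext (f := (bdL (n + 1) K).comp (SdL (n + 2)))
      (g := (SdL (n + 1)).comp (bdL (n + 1) K)) (fun v => ?_) x
    simp only [LinearMap.comp_apply]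
    rw [SdL_succ_single, bdL_cone_succ, ih, bdL_bdL, map_zero, map_zero, sub_zero]

theorem mapL_SdL (φ : K → K') (hφ : IsAff φ) (n : ℕ) (x : LL n K) :
    mapL n φ (SdL n x) = SdL n (mapL n φ x) := by
  induction n with
  | zero => simp [SdL]
  | succ n ih =>
    refine lin_ext (f := (mapL (n + 1) φ).comp (SdL (n + 1)))
      (g := (SdL (n + 1)).comp (mapL (n + 1) φ)) (fun v => ?_) x
    simp only [LinearMap.comp_apply]
    rw [mapL_single, SdL_succ_single, SdL_succ_single, mapL_cone, ih, ← bdL_mapL, mapL_single]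
    congr 1
    rw [bary, hφ, bary]

/-- homotopy between identity and subdivision -/
noncomputable def TL (n : ℕ) : LL n K →ₗ[ℤ] LL (n + 1) K :=
  htpy (fun _ => LinearMap.id) (fun n => SdL n) (fun n v => bary n v) n

theorem bdL_TL (n : ℕ) (x : LL (n + 1) K) :
    bdL (n + 1) K (TL (n + 1) x) = x - SdL (n + 1) x - TL n (bdL n K x) :=
  htpy_spec (fun _ => LinearMap.id) (fun n => SdL n) (fun n v => bary n v)
    (fun _ _ => rfl) (fun n x => bdL_SdL n x) rfl n x

theorem mapL_TL (φ : K → K') (hφ : IsAff φ) (n : ℕ) (x : LL n K) :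
    mapL (n + 1) φ (TL n x) = TL n (mapL n φ x) :=
  htpy_nat _ _ _ _ _ _ φ φ (fun _ _ => rfl) (fun n x => mapL_SdL φ hφ n x)
    (fun n v => by rw [bary, hφ, bary]) n x

/-- prism operator -/
noncomputable def PL (n : ℕ) : LL n K →ₗ[ℤ] LL (n + 1) (K × unitInterval) :=
  htpy (fun n => mapL n (fun k => (k, (1 : unitInterval)))) (fun n => mapL n (fun k => (k, 0)))
    (fun _ v => (v 0, 0)) n

theorem bdL_PL (n : ℕ) (x : LL (n + 1) K) :
    bdL (n + 1) (K × unitInterval) (PL (n + 1) x) =
      mapL (n + 1) (fun k => (k, (1 : unitInterval))) x - mapL (n + 1) (fun k => (k, 0)) x -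
        PL n (bdL n K x) := by
  refine htpy_spec (fun n => mapL n (fun k => (k, (1 : unitInterval))))
    (fun n => mapL n (fun k => (k, 0))) (fun _ v => (v 0, 0))
    (fun n x => bdL_mapL n _ x) (fun n x => bdL_mapL n _ x) ?_ n x
  refine LinearMap.ext (fun x => lin_ext (fun v => ?_) x)
  rw [mapL_single, mapL_single]
  congr 1
  exact Subsingleton.elim _ _

theorem mapL_PL (φ : K → K') (n : ℕ) (x : LL n K) :
    mapL (n + 1) (Prod.map φ id) (PL n x) = PL n (mapL n φ x) := by
  refine htpy_nat _ _ _ _ _ _ φ (Prod.map φ id) (fun n x => ?_) (fun n x => ?_) (fun n v => rfl) n x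
  · refine lin_ext (f := (mapL n (Prod.map φ id)).comp (mapL n (fun k => (k, (1 : unitInterval)))))
      (g := (mapL n (fun k => (k, (1 : unitInterval)))).comp (mapL n φ)) (fun v => ?_) x
    simp only [LinearMap.comp_apply, mapL_single]
    rfl
  · refine lin_ext (f := (mapL n (Prod.map φ id)).comp (mapL n (fun k => (k, (0 : unitInterval)))))
      (g := (mapL n (fun k => (k, (0 : unitInterval)))).comp (mapL n φ)) (fun v => ?_) x
    simp only [LinearMap.comp_apply, mapL_single]
    rfl

end Sd

end Pool.Agent.H59
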