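import Pool.Agent.H59.Cells

/-! CW complexes of dimension at most two: goodness of covers. -/

open Topology Set Metric

namespace Pool.Agent.H59

section

variable {X : Type} [TopologicalSpace X] [T2Space X] [CWComplex (Set.univ : Set X)]

open CWComplex in
/-- the cells of dimension `n` are attached to the skeleton below -/
noncomputable def attSkel (n : ℕ) :
    Att (skeletonLT (Set.univ : Set X) n : Set X) (skeletonLT (Set.univ : Set X) (n + 1) : Set X) n where
  ι := cell (Set.univ : Set X) n
  Φ := fun i => map n i
  cont := fun i => continuousOn n i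
  bdry := fun i x hx => cellFrontier_subset_skeletonLT n i (mem_image_of_mem _ hx)
  inj := by
    intro i j x hx y hy h
    by_cases hij : i = j
    · subst hij
      refine ⟨rfl, ?_⟩
      refine (map n i).injOn ?_ ?_ h <;> rw [source_eq] <;> assumption
    · exfalso
      have hd : Disjoint (openCell n i) (openCell n j) := by
        refine disjoint_openCell_of_ne (fun h => hij ?_)
        simpa using h
      exact Set.disjoint_left.1 hd (mem_image_of_mem _ hx) (h ▸ mem_image_of_mem _ hy)
  disj := fun i x hx h => Set.disjoint_left.1 (disjoint_skeletonLT_openCell (n := (n : ℕ∞)) (j := i) le_rfl) h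
    (mem_image_of_mem _ hx)
  cover := by
    rw [← skeletonLT_union_iUnion_closedCell_eq_skeletonLT_succ]
    apply subset_antisymm
    · refine union_subset subset_union_left (iUnion_subset fun i => ?_)
      rw [← cellFrontier_union_openCell_eq_closedCell]
      refine union_subset ((cellFrontier_subset_skeletonLT n i).trans subset_union_left) ?_
      exact subset_union_of_subset_right (subset_iUnion (fun i => openCell n i) i) _
    · refine union_subset_union_right _ (iUnion_mono fun i => ?_)
      exact openCell_subset_closedCell n i
  closedA := (skeletonLT (Set.univ : Set X) n).closed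
  top := by
    intro S hS hSA hcell
    refine isClosed_of_disjoint_openCell_or_isClosed_inter_closedCell (subset_univ S) ?_
    intro m hm j
    rcases lt_trichotomy m n with h | h | h
    · right
      have : closedCell m j ⊆ (skeletonLT (Set.univ : Set X) n : Set X) := by
        refine (closedCell_subset_skeletonLT m j).trans (skeletonLT_mono ?_)
        exact_mod_cast h
      rw [← inter_eq_right.2 this, ← inter_assoc]
      exact hSA.inter isClosed_closedCell
    · subst h
      exact Or.inr (hcell j)
    · left
      refine Disjoint.mono_left hS (disjoint_skeletonLT_openCell ?_)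
      exact_mod_cast h

theorem skeletonLT_three (hdim : ∀ n : ℕ, 2 < n → IsEmpty (RelCWComplex.cell (Set.univ : Set X) n)) :
    (CWComplex.skeletonLT (Set.univ : Set X) (2 + 1 : ℕ) : Set X) = univ := by
  apply eq_univ_of_forall
  intro x
  have hx : x ∈ (CWComplex.skeletonLT (Set.univ : Set X) ⊤ : Set X) := by
    rw [CWComplex.skeletonLT_top]; exact mem_univ _
  rw [SetLike.mem_coe, CWComplex.mem_skeletonLT_iff] at hx ⊢
  obtain ⟨m, _, j, hj⟩ := hx
  refine ⟨m, ?_, j, hj⟩
  by_contra h
  have : 2 < m := by
    by_contra h'
    apply h
    have : m < 2 + 1 := by lia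
    exact_mod_cast this
  exact (hdim m this).false j

variable {E : Type} [TopologicalSpace E] (G : Type) [Group G] [MulAction G E]
  [ContinuousConstSMul G E]

/-- The cover of a two-dimensional CW complex has an equivariant contraction of its chains in
degrees above two. -/
theorem goodOn_cw (hdim : ∀ n : ℕ, 2 < n → IsEmpty (RelCWComplex.cell (Set.univ : Set X) n))
    {p : E → X} (hp : IsCoveringMap p) (hpG : ∀ (g : G) (e : E), p (g • e) = p e) :
    GoodOn G (univ : Set E) 3 := by
  have h0 : GoodOn G (p ⁻¹' (CWComplex.skeletonLT (Set.univ : Set X) (0 + 1) : Set X)) 1 := by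
    refine goodOn_preimage_discrete G hp (fun m σ hσ => ?_)
    refine (attSkel (X := X) 0).const_of_finite (F := univ) finite_univ σ (fun x => ?_)
    rcases (attSkel (X := X) 0).mem_Z (hσ x) with h | ⟨i, y, hy, h⟩
    · exfalso
      have : (CWComplex.skeletonLT (Set.univ : Set X) ((0 : ℕ) : ℕ∞) : Set X) = ∅ := by
        exact_mod_cast CWComplex.skeletonLT_zero_eq_empty
      rw [this] at h
      exact h
    · rw [← h]
      exact ((attSkel (X := X) 0).Φ_mem_csf hy).2 (mem_univ _)
  have h1 : GoodOn G (p ⁻¹' (CWComplex.skeletonLT (Set.univ : Set X) (1 + 1) : Set X)) 2 := by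
    refine (attSkel (X := X) 1).goodOn_attach G hp hpG le_rfl ?_ ?_
    · exact (attSkel (X := X) 1).goodOn_ann_one G hp hpG
    · simpa using h0
  have h2 : GoodOn G (p ⁻¹' (CWComplex.skeletonLT (Set.univ : Set X) (2 + 1) : Set X)) 3 := by
    refine (attSkel (X := X) 2).goodOn_attach G hp hpG (by norm_num) ?_ ?_
    · exact (attSkel (X := X) 2).goodOn_ann_two G hp hpG
    · have e : ((2 : ℕ) : ℕ∞) = 1 + 1 := by norm_num
      rw [e]
      exact h1
  have e : (CWComplex.skeletonLT (Set.univ : Set X) (2 + 1) : Set X) = univ := by
    have := skeletonLT_three hdim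
    exact_mod_cast this
  rw [e, preimage_univ] at h2
  exact h2

end

end Pool.Agent.H59
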