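import Pool.Agent.H59.Geo

/-! Goodness of preimages of unions of cells, and attaching of cells. -/

open Topology Set Metric

namespace Pool.Agent.H59

/-! ### the stretching homotopy -/

/-- stretching homotopy -/
noncomputable def stretch {k : ℕ} (x : Fin k → ℝ) (t : unitInterval) : Fin k → ℝ :=
  ((1 - (t : ℝ)) + t * max ‖x‖ (1 / 2))⁻¹ • x

section stretch

variable {k : ℕ}

theorem stretch_den_pos (x : Fin k → ℝ) (t : unitInterval) :
    0 < (1 - (t : ℝ)) + t * max ‖x‖ (1 / 2) := by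
  have h0 := t.2.1
  have h1 := t.2.2
  have h2 : (1 : ℝ) / 2 ≤ max ‖x‖ (1 / 2) := le_max_right _ _
  nlinarith

theorem continuous_stretch :
    Continuous (fun q : (Fin k → ℝ) × unitInterval => stretch q.1 q.2) := by
  have h : Continuous (fun q : (Fin k → ℝ) × unitInterval =>
      (1 - (q.2 : ℝ)) + q.2 * max ‖q.1‖ (1 / 2)) := by fun_prop
  exact Continuous.smul (h.inv₀ (fun q => (stretch_den_pos q.1 q.2).ne')) continuous_fst

theorem stretch_zero (x : Fin k → ℝ) : stretch x 0 = x := by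
  simp [stretch]

theorem norm_stretch (x : Fin k → ℝ) (t : unitInterval) :
    ‖stretch x t‖ = ‖x‖ / ((1 - (t : ℝ)) + t * max ‖x‖ (1 / 2)) := by
  rw [stretch, norm_smul, norm_inv, Real.norm_of_nonneg (stretch_den_pos x t).le]
  exact (div_eq_inv_mul _ _).symm

theorem stretch_mem {x : Fin k → ℝ} (hx : x ∈ closedBall 0 1) (t : unitInterval) :
    stretch x t ∈ closedBall (0 : Fin k → ℝ) 1 := by
  rw [mem_closedBall_zero_iff] at *
  rw [norm_stretch, div_le_one (stretch_den_pos x t)]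
  have h0 := t.2.1
  have h1 := t.2.2
  have h2 : ‖x‖ ≤ max ‖x‖ (1 / 2) := le_max_left _ _
  nlinarith

theorem le_norm_stretch {x : Fin k → ℝ} (hx : x ∈ closedBall 0 1) (t : unitInterval) :
    ‖x‖ ≤ ‖stretch x t‖ := by
  rw [mem_closedBall_zero_iff] at hx
  rw [norm_stretch, le_div_iff₀ (stretch_den_pos x t)]
  have h0 := t.2.1
  have h1 := t.2.2
  have h2 : max ‖x‖ (1 / 2) ≤ 1 := max_le hx (by norm_num)
  have h3 := norm_nonneg x
  nlinarith [mul_nonneg h3 h0]

theorem stretch_sphere {x : Fin k → ℝ} (hx : x ∈ sphere 0 1) (t : unitInterval) :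
    stretch x t = x := by
  rw [mem_sphere_zero_iff_norm] at hx
  rw [stretch, hx, max_eq_left (by norm_num)]
  simp

theorem stretch_one {x : Fin k → ℝ} (hx : 1 / 2 < ‖x‖) : stretch x 1 ∈ sphere (0 : Fin k → ℝ) 1 := by
  rw [mem_sphere_zero_iff_norm, norm_stretch, max_eq_left hx.le]
  have : ‖x‖ ≠ 0 := by linarith
  simp [this]

end stretch

/-! ### contracting parts of a cell -/

section part

variable {k : ℕ}

/-- parts of a ball -/
def DT (T : Set (Fin k)) : Set (Fin k → ℝ) := {x | x ∈ ball 0 1 ∧ ∀ i ∈ T, 1 / 2 < |x i|}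

open Classical in
/-- endpoint of the contraction -/
noncomputable def cT (T : Set (Fin k)) (x : Fin k → ℝ) : Fin k → ℝ :=
  fun i => if i ∈ T then 3 / 4 * (x i / |x i|) else 0

/-- contraction of a part -/
noncomputable def hT (T : Set (Fin k)) (x : Fin k → ℝ) (t : unitInterval) : Fin k → ℝ :=
  (1 - (t : ℝ)) • x + (t : ℝ) • cT T x

theorem sgn_cases {r : ℝ} (hr : 1 / 2 < |r|) :
    (1 / 2 < r ∧ r / |r| = 1) ∨ (r < -(1 / 2) ∧ r / |r| = -1) := by
  rcases lt_abs.1 hr with h | h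
  · left
    have : 0 < r := by linarith
    rw [abs_of_pos this]
    exact ⟨h, div_self this.ne'⟩
  · right
    have : r < 0 := by linarith
    rw [abs_of_neg this]
    exact ⟨by linarith, by rw [div_neg, div_self this.ne]⟩

/-- the finite target set -/
def F34 (k : ℕ) : Set (Fin k → ℝ) := {x | ∀ i, x i ∈ ({3 / 4, -(3 / 4), 0} : Set ℝ)}

theorem finite_F34 : (F34 k).Finite := by
  have : F34 k = Set.pi univ (fun _ => ({3 / 4, -(3 / 4), 0} : Set ℝ)) := by
    ext x; simp [F34]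
  rw [this]
  exact Set.Finite.pi (fun _ => by simp)

theorem cT_mem_F34 {T : Set (Fin k)} {x : Fin k → ℝ} (hx : x ∈ DT T) : cT T x ∈ F34 k := by
  intro i
  simp only [cT]
  split_ifs with h
  · rcases sgn_cases (hx.2 i h) with ⟨_, h2⟩ | ⟨_, h2⟩ <;> rw [h2] <;> simp
  · simp

theorem cT_mem_ball {T : Set (Fin k)} {x : Fin k → ℝ} (hx : x ∈ DT T) :
    cT T x ∈ ball (0 : Fin k → ℝ) 1 := by
  rw [mem_ball_zero_iff, pi_norm_lt_iff (by norm_num)]
  intro i
  have := cT_mem_F34 hx i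
  simp only [mem_insert_iff, mem_singleton_iff] at this
  rcases this with h | h | h <;> rw [h] <;> norm_num

theorem hT_mem {T : Set (Fin k)} {x : Fin k → ℝ} (hx : x ∈ DT T) (t : unitInterval) :
    hT T x t ∈ DT T := by
  have h0 := t.2.1
  have h1 := t.2.2
  refine ⟨?_, fun i hi => ?_⟩
  · exact (convex_ball (0 : Fin k → ℝ) 1) hx.1 (cT_mem_ball hx) (by linarith) h0 (by ring)
  · simp only [hT, Pi.add_apply, Pi.smul_apply, smul_eq_mul, cT, if_pos hi]
    rcases sgn_cases (hx.2 i hi) with ⟨h2, h3⟩ | ⟨h2, h3⟩ <;> rw [h3, lt_abs]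
    · left
      have := (convex_Ioi (1 / 2 : ℝ)) (mem_Ioi.2 h2) (mem_Ioi.2 (by norm_num : (1 / 2 : ℝ) < 3 / 4))
        (by linarith : (0 : ℝ) ≤ 1 - t) h0 (by ring)
      simpa using this
    · right
      have := (convex_Iio (-(1 / 2) : ℝ)) (mem_Iio.2 h2)
        (mem_Iio.2 (by norm_num : (-(3 / 4) : ℝ) < -(1 / 2)))
        (by linarith : (0 : ℝ) ≤ 1 - t) h0 (by ring)
      simp only [smul_eq_mul, mem_Iio] at this
      linarith

theorem hT_zero (T : Set (Fin k)) (x : Fin k → ℝ) : hT T x 0 = x := by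
  simp [hT]

theorem hT_one (T : Set (Fin k)) (x : Fin k → ℝ) : hT T x 1 = cT T x := by
  simp [hT]

theorem continuousOn_hT (T : Set (Fin k)) :
    ContinuousOn (fun q : (Fin k → ℝ) × unitInterval => hT T q.1 q.2) (DT T ×ˢ univ) := by
  have : ContinuousOn (fun q : (Fin k → ℝ) × unitInterval => cT T q.1) (DT T ×ˢ univ) := by
    rw [continuousOn_pi]
    intro i
    simp only [cT]
    by_cases hi : i ∈ T
    · simp only [if_pos hi]
      refine ContinuousOn.mul continuousOn_const (ContinuousOn.div (by fun_prop) (by fun_prop) ?_)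
      intro q hq h
      have := hq.1.2 i hi
      rw [h] at this
      norm_num at this
    · simp only [if_neg hi]
      exact continuousOn_const
  have h1 : Continuous (fun q : (Fin k → ℝ) × unitInterval => (1 - (q.2 : ℝ)) • q.1) := by
    fun_prop
  have h2 : Continuous (fun q : (Fin k → ℝ) × unitInterval => (q.2 : ℝ)) := by fun_prop
  exact ContinuousOn.add h1.continuousOn (ContinuousOn.smul h2.continuousOn this)

end part

namespace Att

variable {X : Type} [TopologicalSpace X] [T2Space X] {A Z : Set X} {k : ℕ} (a : Att A Z k)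

/-- simplices inside a discrete set of points in the cells are constant -/
theorem const_of_finite {F : Set (Fin k → ℝ)} (hF : F.Finite) {m : ℕ} (σ : Smp (m + 1) X)
    (hσ : ∀ x, σ x ∈ a.cs F) (x y : Dl (m + 1)) : σ x = σ y := by
  have hc : ∀ x y, a.crd (σ x) = a.crd (σ y) := by
    have c1 : Continuous (fun x => a.crd (σ x)) :=
      (a.continuousOn_crd).comp_continuous σ.continuous (fun x => a.cs_mono (subset_univ _) (hσ x))
    have c2 : IsPreconnected (range (fun x => a.crd (σ x))) := isPreconnected_range c1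
    have c3 : range (fun x => a.crd (σ x)) ⊆ F := by
      rintro _ ⟨x, rfl⟩
      have := hσ x
      simp only [cs] at this
      rw [mem_csf] at this
      obtain ⟨i, y, hy, hyF, h⟩ := this
      simp only
      rw [← h, a.crd_Φ hy]
      exact hyF
    have c4 : (range (fun x => a.crd (σ x))).Subsingleton :=
      hF.countable.isTotallyDisconnected _ c3 c2
    intro x y
    exact c4 (mem_range_self x) (mem_range_self y)
  have hx := hσ x
  simp only [cs] at hx
  rw [mem_csf] at hx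
  obtain ⟨i, u, hu, huF, hux⟩ := hx
  classical
  obtain ⟨O, hO, hOi⟩ := a.exists_open (fun j => if j = i then univ else ∅)
    (fun j => by split_ifs; exacts [isOpen_univ, isOpen_empty])
  obtain ⟨O', hO', hOi'⟩ := a.exists_open (fun j => if j = i then ∅ else univ)
    (fun j => by split_ifs; exacts [isOpen_empty, isOpen_univ])
  have hZ : ∀ x, σ x ∈ Z := fun x => a.csf_subset _ (hσ x)
  have key : ∀ x, (σ x ∈ O ↔ ∃ v ∈ ball (0 : Fin k → ℝ) 1, a.Φ i v = σ x) ∧
      (σ x ∈ O ∨ σ x ∈ O') ∧ ¬ (σ x ∈ O ∧ σ x ∈ O') := by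
    intro x
    have h1 := hσ x
    simp only [cs] at h1
    rw [mem_csf] at h1
    obtain ⟨j, v, hv, hvF, hvx⟩ := h1
    have e1 : σ x ∈ O ↔ j = i := by
      have : σ x ∈ O ↔ σ x ∈ Z ∩ O := ⟨fun h => ⟨hZ x, h⟩, fun h => h.2⟩
      rw [this, hOi, ← hvx, a.Φ_mem_csf hv]
      by_cases hj : j = i <;> simp [hj]
    have e2 : σ x ∈ O' ↔ j ≠ i := by
      have : σ x ∈ O' ↔ σ x ∈ Z ∩ O' := ⟨fun h => ⟨hZ x, h⟩, fun h => h.2⟩
      rw [this, hOi', ← hvx, a.Φ_mem_csf hv]
      by_cases hj : j = i <;> simp [hj]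
    rw [e1, e2]
    refine ⟨⟨?_, ?_⟩, ?_, ?_⟩
    · rintro rfl
      exact ⟨v, hv, hvx⟩
    · rintro ⟨w, hw, hwx⟩
      exact (a.inj _ _ _ hv _ hw (hvx.trans hwx.symm)).1
    · by_cases hj : j = i <;> simp [hj]
    · rintro ⟨h1, h2⟩
      exact h2 h1
  have hOall : ∀ y, σ y ∈ O := by
    have hcl : IsClopen (σ ⁻¹' O) := by
      refine ⟨?_, hO.preimage σ.continuous⟩
      have : σ ⁻¹' O = (σ ⁻¹' O')ᶜ := by
        ext y
        have := key y
        simp only [mem_preimage, mem_compl_iff]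
        tauto
      rw [this]
      exact (hO'.preimage σ.continuous).isClosed_compl
    have := hcl.eq_univ ⟨x, ?_⟩
    · intro y
      have hy : y ∈ σ ⁻¹' O := by rw [this]; exact mem_univ _
      exact hy
    · exact (key x).1.2 ⟨u, hu, hux⟩
  obtain ⟨v, hv, hvy⟩ := (key y).1.1 (hOall y)
  have := hc x y
  rw [← hux, ← hvy, a.crd_Φ hu, a.crd_Φ hv] at this
  rw [← hux, ← hvy, this]

variable {E : Type} [TopologicalSpace E] (G : Type) [Group G] [MulAction G E]
  [ContinuousConstSMul G E]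

theorem goodOn_DT {p : E → X} (hp : IsCoveringMap p) (hpG : ∀ (g : G) (e : E), p (g • e) = p e)
    (T : Set (Fin k)) : GoodOn G (p ⁻¹' (a.cs (DT T))) 1 := by
  refine goodOn_lift G hp hpG (B := a.cs (DT T ∩ F34 k)) (a.cs_mono inter_subset_left)
    (a.ext (hT T)) ?_ ?_ ?_ ?_ ?_
  · exact a.continuousOn_ext_cell (hT T) (continuousOn_hT T) (fun x hx t => (hT_mem hx t).1)
  · intro z hz
    simp only [cs] at hz
    rw [mem_csf] at hz
    obtain ⟨i, x, hx, hxD, rfl⟩ := hz
    rw [a.ext_Φ _ hx, hT_zero]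
  · intro z hz t
    simp only [cs] at hz
    rw [mem_csf] at hz
    obtain ⟨i, x, hx, hxD, rfl⟩ := hz
    rw [a.ext_Φ _ hx]
    exact (a.Φ_mem_csf (hT_mem hxD t).1).2 (hT_mem hxD t)
  · intro z hz
    simp only [cs] at hz
    rw [mem_csf] at hz
    obtain ⟨i, x, hx, hxD, rfl⟩ := hz
    rw [a.ext_Φ _ hx]
    refine (a.Φ_mem_csf (hT_mem hxD 1).1).2 ⟨hT_mem hxD 1, ?_⟩
    rw [hT_one]
    exact cT_mem_F34 hxD
  · exact goodOn_preimage_discrete G hp (fun m σ hσ x y =>
      a.const_of_finite (finite_F34.subset inter_subset_right) σ hσ x y)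

end Att

/-! ### annuli -/

/-- the annulus -/
def ann (k : ℕ) : Set (Fin k → ℝ) := {x | x ∈ ball 0 1 ∧ 1 / 2 < ‖x‖}

theorem lt_norm_iff {k : ℕ} {r : ℝ} (hr : 0 ≤ r) (x : Fin k → ℝ) :
    r < ‖x‖ ↔ ∃ i, r < |x i| := by
  rw [← not_iff_not]
  push Not
  exact pi_norm_le_iff_of_nonneg hr

theorem ann_one : ann 1 = DT {0} := by
  ext x
  simp only [ann, DT, mem_ofPred_eq, mem_singleton_iff, forall_eq, lt_norm_iff (by norm_num : (0 : ℝ) ≤ 1 / 2),
    Fin.exists_fin_one]

theorem ann_two : ann 2 = DT {0} ∪ DT {1} := by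
  ext x
  simp only [ann, DT, mem_ofPred_eq, mem_union, mem_singleton_iff, forall_eq,
    lt_norm_iff (by norm_num : (0 : ℝ) ≤ 1 / 2), Fin.exists_fin_two]
  tauto

theorem isOpen_abs_lt {k : ℕ} (i : Fin k) : IsOpen {x : Fin k → ℝ | 1 / 2 < |x i|} :=
  isOpen_lt continuous_const (by fun_prop)

namespace Att

variable {X : Type} [TopologicalSpace X] [T2Space X] {A Z : Set X}
  {E : Type} [TopologicalSpace E] (G : Type) [Group G] [MulAction G E]
  [ContinuousConstSMul G E]

theorem goodOn_ann_one (a : Att A Z 1) {p : E → X} (hp : IsCoveringMap p)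
    (hpG : ∀ (g : G) (e : E), p (g • e) = p e) : GoodOn G (p ⁻¹' (a.cs (ann 1))) 1 := by
  rw [ann_one]
  exact a.goodOn_DT G hp hpG _

theorem goodOn_ann_two (a : Att A Z 2) {p : E → X} (hp : IsCoveringMap p)
    (hpG : ∀ (g : G) (e : E), p (g • e) = p e) : GoodOn G (p ⁻¹' (a.cs (ann 2))) 2 := by
  obtain ⟨O₁, hO₁, h₁⟩ := a.exists_open (fun _ => {x | 1 / 2 < |x 0|}) (fun _ => isOpen_abs_lt 0)
  obtain ⟨O₂, hO₂, h₂⟩ := a.exists_open (fun _ => {x | 1 / 2 < |x 1|}) (fun _ => isOpen_abs_lt 1)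
  have hZ : a.cs (ann 2) = Z ∩ a.cs (ann 2) := (inter_eq_right.2 (a.csf_subset _)).symm
  have e₁ : a.cs (ann 2) ∩ O₁ = a.cs (DT {0}) := by
    rw [hZ, inter_assoc, inter_comm _ O₁, ← inter_assoc, h₁]
    change a.cs _ ∩ a.cs _ = _
    rw [a.cs_inter]
    congr 1
    ext x
    simp only [ann_two, DT, mem_inter_iff, mem_union, mem_ofPred_eq, mem_singleton_iff, forall_eq]
    tauto
  have e₂ : a.cs (ann 2) ∩ O₂ = a.cs (DT {1}) := by
    rw [hZ, inter_assoc, inter_comm _ O₂, ← inter_assoc, h₂]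
    change a.cs _ ∩ a.cs _ = _
    rw [a.cs_inter]
    congr 1
    ext x
    simp only [ann_two, DT, mem_inter_iff, mem_union, mem_ofPred_eq, mem_singleton_iff, forall_eq]
    tauto
  refine goodOn_union_preimage G hp hpG hO₁ hO₂ ?_ ?_ ?_ ?_
  · intro z hz
    simp only [cs] at hz
    rw [mem_csf] at hz
    obtain ⟨i, x, hx, hxD, rfl⟩ := hz
    rw [ann_two] at hxD
    rcases hxD with hxD | hxD
    · left
      have : a.Φ i x ∈ a.cs (DT {0}) := (a.Φ_mem_csf hx).2 hxD
      rw [← e₁] at this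
      exact this.2
    · right
      have : a.Φ i x ∈ a.cs (DT {1}) := (a.Φ_mem_csf hx).2 hxD
      rw [← e₂] at this
      exact this.2
  · rw [e₁, e₂, a.cs_inter]
    have : DT ({0} : Set (Fin 2)) ∩ DT {1} = DT univ := by
      ext x
      simp only [DT, mem_inter_iff, mem_ofPred_eq, mem_singleton_iff, forall_eq, mem_univ,
        true_implies, Fin.forall_fin_two]
      tauto
    rw [this]
    exact a.goodOn_DT G hp hpG _
  · rw [e₁]
    exact (a.goodOn_DT G hp hpG _).mono G (by norm_num)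
  · rw [e₂]
    exact (a.goodOn_DT G hp hpG _).mono G (by norm_num)

theorem goodOn_attach {k : ℕ} (a : Att A Z k) {p : E → X} (hp : IsCoveringMap p)
    (hpG : ∀ (g : G) (e : E), p (g • e) = p e) (hk : 1 ≤ k)
    (hann : GoodOn G (p ⁻¹' (a.cs (ann k))) k) (hA : GoodOn G (p ⁻¹' A) k) :
    GoodOn G (p ⁻¹' Z) (k + 1) := by
  have hO₁ : IsOpen (a.cs (closedBall 0 (1 / 2)))ᶜ :=
    (a.closed_cs _ isClosed_closedBall (closedBall_subset_ball (by norm_num))).isOpen_compl
  have hO₂ : IsOpen Aᶜ := a.closedA.isOpen_compl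
  have e₂ : Z ∩ Aᶜ = a.cs (DT ∅) := by
    ext z
    constructor
    · rintro ⟨h1, h2⟩
      obtain ⟨i, x, hx, rfl⟩ := (a.mem_Z h1).resolve_left h2
      exact (a.Φ_mem_csf hx).2 ⟨hx, by simp⟩
    · intro h
      exact ⟨a.csf_subset _ h, a.csf_not_mem_A h⟩
  have m₁ : ∀ {i x}, x ∈ ball (0 : Fin k → ℝ) 1 →
      (a.Φ i x ∈ Z ∩ (a.cs (closedBall 0 (1 / 2)))ᶜ ↔ 1 / 2 < ‖x‖) := by
    intro i x hx
    have : a.Φ i x ∈ Z := a.Φ_mem_Z (ball_subset_closedBall hx)
    simp only [mem_inter_iff, this, true_and, mem_compl_iff, cs]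
    rw [a.Φ_mem_csf hx, mem_closedBall_zero_iff, not_le]
  have mA : A ⊆ Z ∩ (a.cs (closedBall 0 (1 / 2)))ᶜ := by
    intro z hz
    exact ⟨a.A_subset hz, fun h => a.csf_not_mem_A h hz⟩
  have m₁' : ∀ {i x}, x ∈ closedBall (0 : Fin k → ℝ) 1 → 1 / 2 < ‖x‖ →
      a.Φ i x ∈ Z ∩ (a.cs (closedBall 0 (1 / 2)))ᶜ := by
    intro i x hx h
    rw [← sphere_union_ball] at hx
    rcases hx with hx | hx
    · exact mA (a.bdry i x hx)
    · exact (m₁ hx).2 h
  refine goodOn_union_preimage G hp hpG hO₁ hO₂ ?_ ?_ ?_ ?_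
  · intro z hz
    by_cases h : z ∈ A
    · exact Or.inl (mA h).2
    · exact Or.inr h
  · have : Z ∩ (a.cs (closedBall 0 (1 / 2)))ᶜ ∩ (Z ∩ Aᶜ) = a.cs (ann k) := by
      rw [e₂]
      ext z
      constructor
      · rintro ⟨h1, h2⟩
        simp only [cs] at h2
        rw [mem_csf] at h2
        obtain ⟨i, x, hx, hxD, rfl⟩ := h2
        exact (a.Φ_mem_csf hx).2 ⟨hx, (m₁ hx).1 h1⟩
      · intro h
        simp only [cs] at h
        rw [mem_csf] at h
        obtain ⟨i, x, hx, hxD, rfl⟩ := h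
        exact ⟨(m₁ hx).2 hxD.2, (a.Φ_mem_csf hx).2 ⟨hx, by simp⟩⟩
    rw [this]
    exact hann
  · refine (goodOn_lift G hp hpG mA (a.ext stretch) ?_ ?_ ?_ ?_ hA).mono G (by lia)
    · exact (a.continuousOn_ext stretch continuous_stretch.continuousOn
        (fun x hx t => stretch_mem hx t) (fun x hx t => stretch_sphere hx t)).mono
        (prod_mono inter_subset_left subset_rfl)
    · intro z hz
      rcases a.mem_Z hz.1 with h | ⟨i, x, hx, rfl⟩
      · exact a.ext_A _ h _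
      · rw [a.ext_Φ _ hx, stretch_zero]
    · intro z hz t
      rcases a.mem_Z hz.1 with h | ⟨i, x, hx, rfl⟩
      · rw [a.ext_A _ h _]
        exact hz
      · rw [a.ext_Φ _ hx]
        have hx' := ball_subset_closedBall hx
        exact m₁' (stretch_mem hx' t) (lt_of_lt_of_le ((m₁ hx).1 hz) (le_norm_stretch hx' t))
    · intro z hz
      rcases a.mem_Z hz.1 with h | ⟨i, x, hx, rfl⟩
      · rw [a.ext_A _ h _]
        exact h
      · rw [a.ext_Φ _ hx]
        exact a.bdry i _ (stretch_one ((m₁ hx).1 hz))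
  · rw [e₂]
    exact (a.goodOn_DT G hp hpG _).mono G (by lia)

end Att

end Pool.Agent.H59
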