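import Pool.Agent.H59.Core
import Pool.Agent.H59.CW
import Pool.Agent.H59.SingBridge

/-! From covering spaces to the algebraic core. -/

open Topology Set CategoryTheory CategoryTheory.Limits

namespace Pool.Agent.H59

instance instContractibleDl (n : ℕ) : ContractibleSpace (Dl (n + 1)) :=
  (convex_stdSimplex ℝ (Fin (n + 1))).contractibleSpace
    ⟨(stdSimplex.vertex (S := ℝ) (0 : Fin (n + 1))).1, (stdSimplex.vertex (0 : Fin (n + 1))).2⟩

instance instLPCDl (n : ℕ) : LocallyPathConnectedSpace (Dl (n + 1)) :=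
  (convex_stdSimplex ℝ (Fin (n + 1))).locallyPathConnectedSpace

section quot

variable {E Y N : Type*} [TopologicalSpace E] [TopologicalSpace Y] [Group N] [MulAction N E]

theorem exists_lift_smp {q : C(E, Y)} (hq : IsQuotientCoveringMap q N) (m : ℕ)
    (τ : Smp (m + 1) Y) : ∃ σ : Smp (m + 1) E, q.comp σ = τ := by
  let v : Dl (m + 1) := stdSimplex.vertex (0 : Fin (m + 1))
  obtain ⟨e, he⟩ := hq.surjective (τ v)
  obtain ⟨σ, ⟨-, h⟩, -⟩ := hq.isCoveringMap.existsUnique_continuousMap_lifts τ v e he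
  refine ⟨σ, ?_⟩
  ext x
  exact congrFun h x

theorem exists_smul_smp [ContinuousConstSMul N E] {q : C(E, Y)} (hq : IsQuotientCoveringMap q N)
    (m : ℕ) (σ σ' : Smp (m + 1) E) (h : q.comp σ = q.comp σ') : ∃ n : N, n • σ' = σ := by
  let v : Dl (m + 1) := stdSimplex.vertex (0 : Fin (m + 1))
  have h1 : q (σ v) = q (σ' v) := DFunLike.congr_fun h v
  obtain ⟨n, hn⟩ := hq.apply_eq_iff_mem_orbit.1 h1
  refine ⟨n, ?_⟩
  apply DFunLike.coe_injective
  refine hq.isCoveringMap.eq_of_comp_eq (n • σ').continuous σ.continuous ?_ v ?_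
  · funext x
    simp only [Function.comp_apply, ContinuousMap.smul_apply]
    rw [hq.map_smul]
    exact (DFunLike.congr_fun h x).symm
  · exact hn

end quot

section

variable {E G : Type} [TopologicalSpace E] [Group G] [MulAction G E]

/-- the quotient map as a bundled continuous map -/
def qm (N : Subgroup G) : C(E, MulAction.orbitRel.Quotient N E) :=
  ⟨Quotient.mk (MulAction.orbitRel N E), continuous_quotient_mk'⟩

theorem isQuotientCoveringMap_qm {X : Type} [TopologicalSpace X] {p : E → X}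
    (hp : IsQuotientCoveringMap p G) (N : Subgroup G) :
    IsQuotientCoveringMap (qm N : C(E, MulAction.orbitRel.Quotient N E)) N := by
  have := hp.toContinuousConstSMul
  have c : ContinuousConstSMul N E := ⟨fun n => continuous_const_smul (n : G)⟩
  exact
    { toIsQuotientMap := isQuotientMap_quotient_mk'
      toContinuousConstSMul := c
      apply_eq_iff_mem_orbit := by
        intro e₁ e₂
        constructor
        · intro h
          exact MulAction.orbitRel_apply.1 (Quotient.exact h)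
        · intro h
          exact Quotient.sound (MulAction.orbitRel_apply.2 h)
      disjoint := by
        intro e
        obtain ⟨U, hU, h⟩ := hp.disjoint e
        refine ⟨U, hU, fun n hn => ?_⟩
        exact Subtype.ext (h n hn) }

variable [ContinuousConstSMul G E]

theorem pf_gm_eq_ac (m : ℕ) (g : G) (x : Ch ℤ m E) : pf ℤ m (gm g) x = ac ℤ (Smp m E) g x := rfl

theorem pf_qm_eq_zero_iff {X : Type} [TopologicalSpace X] {p : E → X}
    (hp : IsQuotientCoveringMap p G) (N : Subgroup G) (m : ℕ) (x : Ch ℤ (m + 1) E) :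
    pf ℤ (m + 1) (qm N) x = 0 ↔ pr ℤ N (Smp (m + 1) E) x = 0 := by
  have hq := isQuotientCoveringMap_qm hp N
  have c : ContinuousConstSMul N E := hq.toContinuousConstSMul
  let ι : QQ N (Smp (m + 1) E) → Smp (m + 1) (MulAction.orbitRel.Quotient N E) :=
    fun q => (qm N).comp q.out
  have hι : ∀ σ : Smp (m + 1) E, ι (cl N σ) = (qm N).comp σ := by
    intro σ
    obtain ⟨n, hn, h⟩ := cl_eq_iff.1 (cl_out (cl N σ))
    simp only [ι]
    rw [← h]
    ext x
    simp only [ContinuousMap.comp_apply, ContinuousMap.smul_apply]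
    exact hq.map_smul ⟨n, hn⟩
  have hinj : Function.Injective ι := by
    intro a b hab
    obtain ⟨n, hn⟩ := exists_smul_smp hq m a.out b.out hab
    rw [← cl_out a, ← cl_out b]
    exact cl_eq_iff.2 ⟨n, n.2, hn⟩
  have key : pf ℤ (m + 1) (qm N) x = Finsupp.mapDomain ι (pr ℤ N (Smp (m + 1) E) x) := by
    rw [pr, Finsupp.lmapDomain_apply, ← Finsupp.mapDomain_comp, pf, Finsupp.lmapDomain_apply]
    congr 1
    funext σ
    exact (hι σ).symm
  rw [key]
  constructor
  · intro h
    exact Finsupp.mapDomain_injective hinj (by rw [h, Finsupp.mapDomain_zero])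
  · intro h
    rw [h, Finsupp.mapDomain_zero]

omit [ContinuousConstSMul G E] in
theorem pf_qm_surjective {X : Type} [TopologicalSpace X] {p : E → X}
    (hp : IsQuotientCoveringMap p G) (N : Subgroup G) (m : ℕ)
    (y : Ch ℤ (m + 1) (MulAction.orbitRel.Quotient N E)) :
    ∃ x : Ch ℤ (m + 1) E, pf ℤ (m + 1) (qm N) x = y := by
  have hq := isQuotientCoveringMap_qm hp N
  induction y using Finsupp.induction_linear with
  | zero => exact ⟨0, map_zero _⟩
  | add f g hf hg =>
    obtain ⟨a, rfl⟩ := hf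
    obtain ⟨b, rfl⟩ := hg
    exact ⟨a + b, map_add _ _ _⟩
  | single τ r =>
    obtain ⟨σ, rfl⟩ := exists_lift_smp hq m τ
    exact ⟨Finsupp.single σ r, pf_single _ _ _ _⟩

theorem hom_iff {X : Type} [TopologicalSpace X] {p : E → X}
    (hp : IsQuotientCoveringMap p G) (N : Subgroup G) (m : ℕ) :
    (∀ z : Ch ℤ (m + 2) E, pr ℤ N _ (bd ℤ (m + 1) E z) = 0 →
      ∃ b, pr ℤ N _ (z - bd ℤ (m + 2) E b) = 0) ↔
    IsZero (((AlgebraicTopology.singularHomologyFunctor (ModuleCat.{0} ℤ) (m + 1)).obj
      (ModuleCat.of ℤ ℤ)).obj (TopCat.of (MulAction.orbitRel.Quotient N E))) := by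
  rw [isZero_singularHomology_iff]
  constructor
  · intro h z hz
    obtain ⟨z, rfl⟩ := pf_qm_surjective hp N (m + 1) z
    rw [bd_pf, pf_qm_eq_zero_iff hp] at hz
    obtain ⟨b, hb⟩ := h z hz
    rw [← pf_qm_eq_zero_iff hp, map_sub, sub_eq_zero] at hb
    exact ⟨pf ℤ (m + 3) (qm N) b, by rw [bd_pf, hb]⟩
  · intro h z hz
    rw [← pf_qm_eq_zero_iff hp, ← bd_pf] at hz
    obtain ⟨b, hb⟩ := h _ hz
    obtain ⟨b, rfl⟩ := pf_qm_surjective hp N (m + 2) b
    refine ⟨b, ?_⟩
    rw [← pf_qm_eq_zero_iff hp, map_sub, ← bd_pf, hb, sub_self]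

theorem cf_vertex {n : ℕ} (i : Fin (n + 1)) (j : Fin n) :
    cf i (stdSimplex.vertex j) = stdSimplex.vertex (i.succAbove j) := by
  simp only [cf, ContinuousMap.coe_mk]
  exact stdSimplex.map_vertex _ _

/-- the vertices of `Dl 1` -/
theorem smp_one_ext {Y : Type*} [TopologicalSpace Y] {σ τ : Smp 1 Y}
    (h : σ (stdSimplex.vertex 0) = τ (stdSimplex.vertex 0)) : σ = τ := by
  ext x
  have : x = stdSimplex.vertex (S := ℝ) (0 : Fin 1) := Subsingleton.elim _ _
  rw [this, h]

theorem exists_path_chain [PathConnectedSpace E] (x y : Smp 1 E) :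
    ∃ c : Ch ℤ 2 E, bd ℤ 1 E c = Finsupp.single y 1 - Finsupp.single x 1 := by
  let x' := x (stdSimplex.vertex 0)
  let y' := y (stdSimplex.vertex 0)
  let γ : Path x' y' := PathConnectedSpace.somePath x' y'
  let f : C(Dl 2, unitInterval) := ⟨fun t => ⟨t.1 1, ⟨t.2.1 1, by
    have := t.2.2
    rw [Fin.sum_univ_two] at this
    have h0 := t.2.1 0
    linarith⟩⟩, by
      refine Continuous.subtype_mk ?_ _
      exact (continuous_apply 1).comp continuous_subtype_val⟩
  let σ : Smp 2 E := γ.toContinuousMap.comp f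
  refine ⟨Finsupp.single σ 1, ?_⟩
  rw [bd_single, Fin.sum_univ_two]
  have h0 : fc σ 0 = y := by
    apply smp_one_ext
    have : f (cf 0 (stdSimplex.vertex 0)) = 1 := by
      rw [cf_vertex]
      exact Subtype.ext (by simp [f, stdSimplex.vertex])
    simp only [fc, σ, ContinuousMap.comp_apply]
    rw [this]
    exact γ.target
  have h1 : fc σ 1 = x := by
    apply smp_one_ext
    have : f (cf 1 (stdSimplex.vertex 0)) = 0 := by
      rw [cf_vertex]
      exact Subtype.ext (by simp [f, stdSimplex.vertex])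
    simp only [fc, σ, ContinuousMap.comp_apply]
    rw [this]
    exact γ.source
  rw [h0, h1]
  simp [sub_eq_add_neg]

end

end Pool.Agent.H59
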