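import Pool.Agent.H59.Det

/-! The main algebraic argument: minimal elements of the poset of acyclic normal subgroups. -/

namespace Pool.Agent.H59

open Finsupp

/-- The algebraic set-up. -/
structure Core (G : Type*) [Group G] (S1 S2 S3 S4 : Type*) [MulAction G S1] [MulAction G S2]
    [MulAction G S3] [MulAction G S4] where
  d2 : (S2 →₀ ℤ) →ₗ[ℤ] (S1 →₀ ℤ)
  d3 : (S3 →₀ ℤ) →ₗ[ℤ] (S2 →₀ ℤ)
  d4 : (S4 →₀ ℤ) →ₗ[ℤ] (S3 →₀ ℤ)
  h : (S3 →₀ ℤ) →ₗ[ℤ] (S4 →₀ ℤ)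
  e2 : ∀ (g : G) x, d2 (ac ℤ S2 g x) = ac ℤ S1 g (d2 x)
  e3 : ∀ (g : G) x, d3 (ac ℤ S3 g x) = ac ℤ S2 g (d3 x)
  e4 : ∀ (g : G) x, d4 (ac ℤ S4 g x) = ac ℤ S3 g (d4 x)
  eh : ∀ (g : G) x, h (ac ℤ S3 g x) = ac ℤ S4 g (h x)
  d23 : ∀ x, d2 (d3 x) = 0
  d34 : ∀ x, d3 (d4 x) = 0
  d4h : ∀ x, d4 (h (d4 x)) = d4 x
  free2 : ∀ (g : G) (s : S2), g • s = s → g = 1
  free3 : ∀ (g : G) (s : S3), g • s = s → g = 1
  path : ∀ x y : S1, ∃ c, d2 c = single y 1 - single x 1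
  H1 : ∀ z, d2 z = 0 → ∃ b, d3 b = z
  ne : Nonempty S1

theorem exists_retraction {F V W : Type*} [Field F] [AddCommGroup V] [Module F V] [AddCommGroup W]
    [Module F W] (e : V →ₗ[F] V) (d : V →ₗ[F] W)
    (inj : ∀ u ∈ LinearMap.range e, d u = 0 → u = 0) :
    ∃ r : W →ₗ[F] V, ∀ u, r (d (e u)) = e u := by
  obtain ⟨g, hg⟩ := LinearMap.exists_leftInverse_of_injective
    (d.comp (LinearMap.range e).subtype) (by
      rw [LinearMap.ker_eq_bot']
      rintro ⟨u, hu⟩ h0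
      exact Subtype.ext (inj u hu h0))
  refine ⟨(LinearMap.range e).subtype.comp g, fun u => ?_⟩
  have := LinearMap.congr_fun hg ⟨e u, LinearMap.mem_range_self _ _⟩
  simp only [LinearMap.comp_apply, LinearMap.id_apply, Submodule.subtype_apply] at this
  simp only [LinearMap.comp_apply, this, Submodule.subtype_apply]

namespace Core

variable {G : Type*} [Group G] {S1 S2 S3 S4 : Type*} [MulAction G S1] [MulAction G S2]
    [MulAction G S3] [MulAction G S4] (C : Core G S1 S2 S3 S4)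

/-- the projection -/
noncomputable def e : (S3 →₀ ℤ) →ₗ[ℤ] (S3 →₀ ℤ) := LinearMap.id - C.d4.comp C.h

theorem e_apply (x) : C.e x = x - C.d4 (C.h x) := rfl

theorem e_d4 (x) : C.e (C.d4 x) = 0 := by rw [e_apply, d4h, sub_self]

theorem e_e (x) : C.e (C.e x) = C.e x := by
  conv_lhs => rw [C.e_apply x, map_sub, C.e_d4, sub_zero]

theorem d3_e (x) : C.d3 (C.e x) = C.d3 x := by rw [e_apply, map_sub, d34, sub_zero]

theorem eqv2 (N : Subgroup G) : Eqv N C.d2 := fun g _ x => C.e2 g x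
theorem eqv3 (N : Subgroup G) : Eqv N C.d3 := fun g _ x => C.e3 g x
theorem eqv4 (N : Subgroup G) : Eqv N C.d4 := fun g _ x => C.e4 g x
theorem eqve (N : Subgroup G) : Eqv N C.e := fun g _ x => by
  rw [e_apply, e_apply, C.eh, C.e4, map_sub]

/-- vanishing of integral first homology -/
def Hom1Z (N : Subgroup G) : Prop :=
  ∀ z : S2 →₀ ℤ, pr ℤ N S1 (C.d2 z) = 0 → ∃ b, pr ℤ N S2 (z - C.d3 b) = 0

/-- vanishing of integral second homology -/
def Hom2Z (N : Subgroup G) : Prop :=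
  ∀ z : S3 →₀ ℤ, pr ℤ N S2 (C.d3 z) = 0 → ∃ b, pr ℤ N S3 (z - C.d4 b) = 0

/-- vanishing of the second homology modulo `p` -/
def V (p : ℕ) (N : Subgroup G) : Prop :=
  ∀ w : S3 →₀ ℤ, C.e w = w → pr (ZMod p) N S2 (red (ZMod p) S2 (C.d3 w)) = 0 →
    pr (ZMod p) N S3 (red (ZMod p) S3 w) = 0

theorem V_of_acyclic {N : Subgroup G} (h1 : C.Hom1Z N) (h2 : C.Hom2Z N) {p : ℕ} (hp : p ≠ 0) :
    C.V p N := by
  intro w hw h
  rw [← red_pr, red_eq_zero_iff] at h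
  obtain ⟨y, hy⟩ := h
  have hy0 : pr ℤ N S1 (C.d2 (sec ℤ N S2 y)) = 0 := by
    have e1 : (p : ℤ) • pr ℤ N S1 (C.d2 (sec ℤ N S2 y)) = 0 := by
      rw [← map_smul, ← map_smul, ← map_smul, ← hy]
      have := (C.eqv2 N).pr_congr (pr_sec ℤ N (pr ℤ N S2 (C.d3 w)))
      rw [this, C.d23, map_zero]
    exact (smul_eq_zero.1 e1).resolve_left (by exact_mod_cast hp)
  obtain ⟨u, hu⟩ := h1 _ hy0
  obtain ⟨b, hb⟩ := h2 (w - (p : ℤ) • u) (by
    rw [map_sub, pr_sec, sub_eq_zero] at hu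
    rw [map_sub, map_sub, hy, map_smul, map_smul, hu, sub_self])
  have h3 := (C.eqve N).pr_eq_zero hb
  rw [map_sub, C.e_d4, sub_zero, map_sub, map_smul, hw, map_sub, map_smul, sub_eq_zero] at h3
  rw [← red_pr, red_eq_zero_iff]
  exact ⟨_, h3⟩

theorem V_sInf {p : ℕ} {c : Set (Subgroup G)} (hc : IsChain (· ≤ ·) c) (hne : c.Nonempty)
    (h : ∀ N ∈ c, C.V p N) : C.V p (sInf c) := by
  intro w hw h0
  apply pr_sInf _ C.free3 hc hne
  intro N hN
  exact h N hN w hw (pr_le (sInf_le hN) h0)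

theorem Hom2Z_of_V {N : Subgroup G} (h : ∀ p : ℕ, p.Prime → C.V p N) : C.Hom2Z N := by
  intro z hz
  refine ⟨C.h z, ?_⟩
  rw [← e_apply]
  have h1 : ∀ p : ℕ, p.Prime → ∀ q, (p : ℤ) ∣ pr ℤ N S3 (C.e z) q := by
    intro p hp q
    have h2 := h p hp (C.e z) (C.e_e z) (by rw [C.d3_e, ← red_pr, hz, map_zero])
    rw [← red_pr, red_eq_zero_iff] at h2
    obtain ⟨y, hy⟩ := h2
    rw [hy, Finsupp.smul_apply, smul_eq_mul]
    exact dvd_mul_right _ _
  ext q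
  rw [Finsupp.coe_zero, Pi.zero_apply]
  by_contra hne
  obtain ⟨p, hp1, hp2⟩ := Nat.exists_infinite_primes ((pr ℤ N S3 (C.e z) q).natAbs + 1)
  have h3 := Int.natCast_dvd.1 (h1 p hp2 q)
  have h4 := Nat.le_of_dvd (Int.natAbs_pos.2 hne) h3
  omega

theorem torsion_prime {N : Subgroup G} {p : ℕ} (hp : p.Prime) (h : C.V p N) (y : QQ N S2 →₀ ℤ)
    (hy : (p : ℤ) • y ∈ LinearMap.range (ind N C.d3)) : y ∈ LinearMap.range (ind N C.d3) := by
  obtain ⟨b, hb⟩ := hy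
  have h1 : pr ℤ N S2 (C.d3 (C.e (sec ℤ N S3 b))) = (p : ℤ) • y := by
    rw [C.d3_e, ← (C.eqv3 N).ind_pr, pr_sec, hb]
  have h2 := h (C.e (sec ℤ N S3 b)) (C.e_e _) (by
    rw [← red_pr, h1, red_zsmul]; simp)
  rw [← red_pr, red_eq_zero_iff] at h2
  obtain ⟨y', hy'⟩ := h2
  refine ⟨y', ?_⟩
  have h3 : (p : ℤ) • ind N C.d3 y' = (p : ℤ) • y := by
    rw [← map_smul, ← hy', (C.eqv3 N).ind_pr, h1]
  rw [← sub_eq_zero, ← smul_sub, smul_eq_zero] at h3
  exact sub_eq_zero.1 (h3.resolve_left (by exact_mod_cast hp.ne_zero))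

theorem torsion {N : Subgroup G} (h : ∀ p : ℕ, p.Prime → C.V p N) (n : ℕ) (hn : n ≠ 0) :
    ∀ (y : QQ N S2 →₀ ℤ) (_ : (n : ℤ) • y ∈ LinearMap.range (ind N C.d3)),
      y ∈ LinearMap.range (ind N C.d3) := by
  induction n using Nat.recOnMul with
  | zero => exact absurd rfl hn
  | one => intro y hy; simpa using hy
  | prime p hp => exact C.torsion_prime hp (h p hp)
  | mul a b ha hb =>
    intro y hy
    rw [Nat.cast_mul, mul_smul] at hy
    exact hb (by rintro rfl; simp at hn) y (ha (by rintro rfl; simp at hn) _ hy)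

/-- passing to the quotient by the first homology -/
theorem V_of_kernel {H : Type*} [AddCommGroup H] [IsAddTorsionFree H] (N M : Subgroup G)
    (χ : G → H) (hχ : ∀ n ∈ N, ∀ m ∈ N, χ (n * m) = χ n + χ m)
    (hM : ∀ g, g ∈ M ↔ g ∈ N ∧ χ g = 0) {p : ℕ} (hp : p.Prime) (h : C.V p N) : C.V p M := by
  have : Fact p.Prime := ⟨hp⟩
  have hMN : M ≤ N := fun g hg => ((hM g).1 hg).1
  let F := ZMod p
  let eF : (S3 →₀ F) →ₗ[F] (S3 →₀ F) := bc F C.e
  let dF : (S3 →₀ F) →ₗ[F] (S2 →₀ F) := bc F C.d3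
  have heF : Eqv N eF := eqv_bc F (C.eqve N)
  have hdF : Eqv N dF := eqv_bc F (C.eqv3 N)
  let eQ := ind N eF
  let dQ := ind N dF
  have inj : ∀ u ∈ LinearMap.range eQ, dQ u = 0 → u = 0 := by
    rintro _ ⟨u', rfl⟩ hu
    obtain ⟨y, hy⟩ := red_surjective p (sec F N S3 u')
    have e1 : pr F N S3 (red F S3 (C.e y)) = eQ u' := by
      rw [← bc_red, hy]
      change pr F N S3 (eF _) = _
      rw [← heF.ind_pr, pr_sec]
    have e2 := h (C.e y) (C.e_e y) (by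
      rw [← bc_red]
      change pr F N S2 (dF _) = _
      rw [← hdF.ind_pr]
      change dQ _ = 0
      rw [e1, hu])
    rw [← e1]
    exact e2
  obtain ⟨rQ, hrQ⟩ := exists_retraction eQ dQ inj
  let r : (S2 →₀ F) →ₗ[F] (S3 →₀ F) := lft N rQ
  have hr : Eqv N r := eqv_lft C.free2 N rQ
  let ψ : (S3 →₀ F) →ₗ[F] (S3 →₀ F) := eF - r.comp (dF.comp eF)
  have hψ : Eqv N ψ := by
    intro n hn x
    simp only [ψ, LinearMap.sub_apply, LinearMap.comp_apply, map_sub]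
    rw [heF n hn, hdF n hn, hr n hn]
  have hψ0 : ∀ x, pr F N S3 (ψ x) = 0 := by
    intro x
    simp only [ψ, LinearMap.sub_apply, LinearMap.comp_apply, map_sub, r]
    rw [pr_lft, ← hdF.ind_pr, ← heF.ind_pr]
    change eQ _ - rQ (dQ (eQ _)) = 0
    rw [hrQ, sub_self]
  intro w hw h0
  apply pr_eq_zero_of_fixed C.free3 N M χ hχ hM ψ hψ hψ0
  have e3 : eF (red F S3 w) = red F S3 w := by
    change bc F C.e _ = _
    rw [bc_red, hw]
  have e4 : dF (red F S3 w) = red F S2 (C.d3 w) := bc_red _ _ _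
  simp only [ψ, LinearMap.sub_apply, LinearMap.comp_apply, map_sub]
  rw [e3, e4, (hr.mono hMN).pr_eq_zero h0, sub_zero]

/-- every `N` with the vanishing property contains a smaller one, equal to `N` only if the first
homology vanishes -/
theorem exists_sharp {N : Subgroup G} (hN : N.Normal) (h : ∀ p : ℕ, p.Prime → C.V p N) :
    ∃ M : Subgroup G, M ≤ N ∧ M.Normal ∧ (∀ p : ℕ, p.Prime → C.V p M) ∧ (N ≤ M → C.Hom1Z N) := by
  classical
  obtain ⟨x₀⟩ := C.ne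
  let B := LinearMap.range (ind N C.d3)
  have tf : IsAddTorsionFree ((QQ N S2 →₀ ℤ) ⧸ B) := by
    refine ⟨fun n hn x y hxy => ?_⟩
    obtain ⟨x, rfl⟩ := B.mkQ_surjective x
    obtain ⟨y, rfl⟩ := B.mkQ_surjective y
    simp only at hxy
    rw [← map_nsmul, ← map_nsmul, ← sub_eq_zero, ← map_sub, ← nsmul_sub,
      Submodule.mkQ_apply, Submodule.Quotient.mk_eq_zero] at hxy
    rw [← sub_eq_zero, ← map_sub, Submodule.mkQ_apply, Submodule.Quotient.mk_eq_zero]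
    refine C.torsion h n hn _ ?_
    rw [natCast_zsmul]
    exact hxy
  choose c hc using fun g : G => C.path x₀ (g • x₀)
  let q : (S2 →₀ ℤ) →ₗ[ℤ] ((QQ N S2 →₀ ℤ) ⧸ B) := B.mkQ.comp (pr ℤ N S2)
  let χ : G → ((QQ N S2 →₀ ℤ) ⧸ B) := fun g => q (c g)
  have q_d3 : ∀ b, q (C.d3 b) = 0 := by
    intro b
    simp only [q, LinearMap.comp_apply]
    rw [← (C.eqv3 N).ind_pr, Submodule.mkQ_apply, Submodule.Quotient.mk_eq_zero]
    exact LinearMap.mem_range_self _ _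
  have q_eq : ∀ c c', C.d2 c = C.d2 c' → q c = q c' := by
    intro c c' hcc
    obtain ⟨b, hb⟩ := C.H1 (c - c') (by rw [map_sub, hcc, sub_self])
    rw [← sub_eq_zero, ← map_sub, ← hb, q_d3]
  have q_ac : ∀ n ∈ N, ∀ c, q (ac ℤ S2 n c) = q c := by
    intro n hn c
    simp only [q, LinearMap.comp_apply, pr_ac ℤ hn]
  have q_zero : ∀ c, q c = 0 → ∃ b, pr ℤ N S2 (c - C.d3 b) = 0 := by
    intro c hq
    simp only [q, LinearMap.comp_apply] at hq
    rw [Submodule.mkQ_apply, Submodule.Quotient.mk_eq_zero] at hq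
    obtain ⟨u, hu⟩ := hq
    refine ⟨sec ℤ N S3 u, ?_⟩
    rw [map_sub, ← (C.eqv3 N).ind_pr, pr_sec, hu, sub_self]
  have q_zero' : ∀ (g : G) c, q c = 0 → q (ac ℤ S2 g c) = 0 := by
    intro g c h0
    obtain ⟨b, hb⟩ := q_zero c h0
    have h1 := pr_ac_normal g hb
    rw [map_sub, map_sub, sub_eq_zero, ← C.e3] at h1
    have h2 := q_d3 (ac ℤ S3 g b)
    simp only [q, LinearMap.comp_apply] at h2 ⊢
    rw [h1, h2]
  have hχ : ∀ n ∈ N, ∀ m ∈ N, χ (n * m) = χ n + χ m := by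
    intro n hn m _
    have h1 : C.d2 (c (n * m)) = C.d2 (c n + ac ℤ S2 n (c m)) := by
      rw [hc, map_add, hc, C.e2, hc, map_sub, ac_single, ac_single, mul_smul]
      abel
    have h2 := q_eq _ _ h1
    rw [map_add, q_ac n hn] at h2
    exact h2
  have χ_one : χ 1 = 0 := by
    have h1 := hχ 1 N.one_mem 1 N.one_mem
    rw [mul_one] at h1
    exact left_eq_add.1 h1
  let M : Subgroup G :=
    { carrier := {g | g ∈ N ∧ χ g = 0}
      mul_mem' := by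
        rintro a b ⟨h1, h2⟩ ⟨h3, h4⟩
        exact ⟨N.mul_mem h1 h3, by rw [hχ a h1 b h3, h2, h4, add_zero]⟩
      one_mem' := ⟨N.one_mem, χ_one⟩
      inv_mem' := by
        rintro a ⟨h1, h2⟩
        refine ⟨N.inv_mem h1, ?_⟩
        have h3 := hχ a h1 a⁻¹ (N.inv_mem h1)
        rw [mul_inv_cancel, χ_one, h2, zero_add] at h3
        exact h3.symm }
  have hM : ∀ g, g ∈ M ↔ g ∈ N ∧ χ g = 0 := fun g => Iff.rfl
  refine ⟨M, fun g hg => hg.1, ⟨?_⟩, fun p hp => C.V_of_kernel N M χ hχ hM hp (h p hp), ?_⟩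
  · rintro g ⟨h1, h2⟩ k
    have h3 : k * g * k⁻¹ ∈ N := hN.conj_mem g h1 k
    refine ⟨h3, ?_⟩
    have h4 : C.d2 (c (k * g * k⁻¹)) =
        C.d2 (c k + ac ℤ S2 k (c g) - ac ℤ S2 (k * g * k⁻¹) (c k)) := by
      rw [hc, map_sub, map_add, hc, C.e2, C.e2, hc, hc, map_sub, map_sub, ac_single, ac_single,
        ac_single, ac_single, ← mul_smul, ← mul_smul, inv_mul_cancel_right]
      abel
    have h5 := q_eq _ _ h4
    rw [map_sub, map_add, q_ac _ h3, q_zero' _ _ h2, add_zero, sub_self] at h5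
    exact h5
  · intro hNM z hz
    have h1 : C.d2 z ∈ (LinearMap.ker q).map C.d2 := by
      refine pr_induction ℤ _ (fun n hn s => ?_) hz
      obtain ⟨d, hd⟩ := C.path x₀ s
      refine ⟨c n + ac ℤ S2 n d - d, ?_, ?_⟩
      · rw [SetLike.mem_coe, LinearMap.mem_ker, map_sub, map_add, q_ac n hn, add_sub_cancel_right]
        exact (hNM hn).2
      · rw [map_sub, map_add, hc, C.e2, hd, map_sub, ac_single, ac_single]
        abel
    obtain ⟨c', h2, h3⟩ := h1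
    apply q_zero
    rw [← q_eq _ _ h3]
    exact h2

/-- The main algebraic theorem. -/
theorem exists_minimal {P : Subgroup G} (hP : P.Normal) (h1 : C.Hom1Z P) (h2 : C.Hom2Z P) :
    ∃ R : Subgroup G, R.Normal ∧ C.Hom1Z R ∧ C.Hom2Z R ∧
      ∀ Q : Subgroup G, Q.Normal → C.Hom1Z Q → C.Hom2Z Q → Q ≤ R → Q = R := by
  let T : Set (Subgroup G)ᵒᵈ := {N | (OrderDual.ofDual N).Normal ∧
    ∀ p : ℕ, p.Prime → C.V p (OrderDual.ofDual N)}
  have memT : ∀ N : Subgroup G, N.Normal → C.Hom1Z N → C.Hom2Z N → OrderDual.toDual N ∈ T :=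
    fun N hN a b => ⟨hN, fun p hp => C.V_of_acyclic a b hp.ne_zero⟩
  obtain ⟨R', hPR, hR⟩ := zorn_le_nonempty₀ T (by
    intro c hcT hc y hy
    let c' : Set (Subgroup G) := {N | OrderDual.toDual N ∈ c}
    have hc' : IsChain (· ≤ ·) c' := by
      intro a ha b hb hab
      rcases hc ha hb (fun h => hab (OrderDual.toDual.injective h)) with h | h
      · exact Or.inr h
      · exact Or.inl h
    have hne : c'.Nonempty := ⟨OrderDual.ofDual y, hy⟩
    refine ⟨OrderDual.toDual (sInf c'), ⟨?_, fun p hp => ?_⟩, fun N hN => ?_⟩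
    · refine ⟨fun n hn g => ?_⟩
      rw [OrderDual.ofDual_toDual, Subgroup.mem_sInf] at *
      intro N hN
      exact (hcT hN).1.conj_mem n (hn N hN) g
    · exact C.V_sInf hc' hne (fun N hN => (hcT hN).2 p hp)
    · exact (sInf_le hN : sInf c' ≤ OrderDual.ofDual N)) (OrderDual.toDual P) (memT P hP h1 h2)
  let R : Subgroup G := OrderDual.ofDual R'
  have hRT := hR.1
  have hmin : ∀ Q : Subgroup G, Q.Normal → (∀ p : ℕ, p.Prime → C.V p Q) → Q ≤ R → R ≤ Q := by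
    intro Q hQ hV hQR
    exact hR.2 (y := OrderDual.toDual Q) ⟨hQ, hV⟩ hQR
  obtain ⟨M, hMR, hMn, hMV, hM1⟩ := C.exists_sharp hRT.1 hRT.2
  refine ⟨R, hRT.1, hM1 (hmin M hMn hMV hMR), C.Hom2Z_of_V hRT.2, ?_⟩
  intro Q hQ a b hQR
  exact le_antisymm hQR (hmin Q hQ (memT Q hQ a b).2 hQR)

end Core

end Pool.Agent.H59
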