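import Pool.Agent.H59.Alg

/-! The determinant lemma. -/

namespace Pool.Agent.H59

open Finsupp

theorem eq_zero_of_fixed {D F B : Type*} [CommRing D] [IsDomain D] [Field F] (ε : D →+* F)
    (Ψ : (B →₀ D) →ₗ[D] (B →₀ D)) (hΨ : ∀ u b, ε (Ψ u b) = 0) (v : B →₀ D) (hv : Ψ v = v) :
    v = 0 := by
  classical
  let s := v.support
  let M : Matrix s s D := fun i j => Ψ (single (j : B) 1) i
  have hdet : (1 - M).det ≠ 0 := by
    intro h
    have h1 := congrArg ε h
    rw [RingHom.map_det, map_zero] at h1
    have h2 : ε.mapMatrix (1 - M) = 1 := by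
      rw [map_sub, map_one, sub_eq_self]
      ext i j
      exact hΨ _ _
    rw [h2, Matrix.det_one] at h1
    exact one_ne_zero h1
  have hsum : v = ∑ j : s, v j • single (j : B) (1 : D) := by
    ext b
    rw [Finsupp.finsetSum_apply]
    simp only [Finsupp.smul_apply, Finsupp.single_apply, smul_eq_mul, mul_ite, mul_one, mul_zero]
    by_cases hb : b ∈ s
    · rw [Finset.sum_eq_single (⟨b, hb⟩ : s)]
      · simp
      · intro c _ hc
        rw [if_neg]
        intro h
        exact hc (Subtype.ext h)
      · simp
    · rw [Finsupp.notMem_support_iff.1 hb, Finset.sum_eq_zero]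
      intro c _
      rw [if_neg]
      intro h
      exact hb (h ▸ c.2)
  have hmul : (1 - M).mulVec (fun i : s => v i) = 0 := by
    ext i
    rw [Matrix.sub_mulVec, Matrix.one_mulVec]
    simp only [Pi.sub_apply, Pi.zero_apply, Matrix.mulVec, dotProduct]
    have h1 := DFunLike.congr_fun hv (i : B)
    rw [hsum, map_sum, Finsupp.finsetSum_apply, ← hsum] at h1
    rw [sub_eq_zero, ← h1]
    refine Finset.sum_congr rfl (fun j _ => ?_)
    rw [map_smul, Finsupp.smul_apply, smul_eq_mul, mul_comm]
  have := Matrix.eq_zero_of_mulVec_eq_zero hdet hmul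
  rw [hsum]
  refine Finset.sum_eq_zero (fun j _ => ?_)
  rw [congrFun this j]
  simp

open scoped AddMonoidAlgebra in
theorem pr_eq_zero_of_fixed {G F H S : Type*} [Group G] [Field F] [AddCommGroup H]
    [IsAddTorsionFree H] [MulAction G S] (free : ∀ (g : G) (s : S), g • s = s → g = 1)
    (N M : Subgroup G) (χ : G → H) (hχ : ∀ n ∈ N, ∀ m ∈ N, χ (n * m) = χ n + χ m)
    (hM : ∀ g, g ∈ M ↔ g ∈ N ∧ χ g = 0) (ψ : (S →₀ F) →ₗ[F] (S →₀ F)) (hψ : Eqv N ψ)
    (hbar : ∀ x, pr F N S (ψ x) = 0) (w : S →₀ F) (hw : pr F M S (ψ w) = pr F M S w) :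
    pr F M S w = 0 := by
  classical
  have uq : TwoUniqueSums H :=
    TwoUniqueSums.of_injective_addHom (DivisibleHull.coeAddMonoidHom (M := H)).toAddHom
      DivisibleHull.coe_injective inferInstance
  have dom : IsDomain F[H] := inferInstance
  -- augmentation
  let ε : F[H] →+* F :=
    AddMonoidAlgebra.liftNCRingHom (RingHom.id F) (1 : Multiplicative H →* F)
      (fun _ _ => Commute.all _ _)
  have hε : ∀ h r, ε (AddMonoidAlgebra.single h r) = r := by
    intro h r
    simp [ε, AddMonoidAlgebra.liftNCRingHom]
  let e : S → (QQ N S →₀ F[H]) := fun s =>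
    single (cl N s) (AddMonoidAlgebra.single (χ (rho N s)) 1)
  let Φ : (S →₀ F) →ₗ[F] (QQ N S →₀ F[H]) := Finsupp.linearCombination F e
  have Φ_single : ∀ s r, Φ (single s r) = single (cl N s) (AddMonoidAlgebra.single (χ (rho N s)) r) := by
    intro s r
    simp only [Φ, Finsupp.linearCombination_single, e, smul_single, AddMonoidAlgebra.smul_single,
      smul_eq_mul, mul_one]
  have Φ_ac : ∀ n ∈ N, ∀ x, Φ (ac F S n x) = (AddMonoidAlgebra.single (χ n) (1 : F)) • Φ x := by
    intro n hn x
    induction x using Finsupp.induction_linear with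
    | zero => simp
    | add f g hf hg => simp only [map_add, hf, hg, smul_add]
    | single s r =>
      rw [ac_single, Φ_single, Φ_single, cl_smul hn, rho_smul_eq free hn, hχ n hn _ (rho_mem N s),
        smul_single, smul_eq_mul, AddMonoidAlgebra.single_mul_single, one_mul]
  -- the induced endomorphism
  let Ψ : (QQ N S →₀ F[H]) →ₗ[F[H]] (QQ N S →₀ F[H]) :=
    Finsupp.linearCombination F[H] (fun q => Φ (ψ (single q.out 1)))
  have hΨΦ : ∀ x, Ψ (Φ x) = Φ (ψ x) := by
    intro x
    induction x using Finsupp.induction_linear with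
    | zero => simp
    | add f g hf hg => simp only [map_add, hf, hg]
    | single s r =>
      have h1 : single s r = r • ac F S (rho N s) (single (cl N s).out (1 : F)) := by
        rw [ac_single, rho_smul, smul_single, smul_eq_mul, mul_one]
      rw [Φ_single]
      simp only [Ψ, Finsupp.linearCombination_single]
      rw [h1, map_smul, map_smul, hψ _ (rho_mem N s), Φ_ac _ (rho_mem N s), ← smul_assoc]
      congr 1
      rw [AddMonoidAlgebra.smul_single, smul_eq_mul, mul_one]
  have hεΦ : ∀ x q, ε (Φ x q) = pr F N S x q := by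
    intro x q
    induction x using Finsupp.induction_linear with
    | zero => simp
    | add f g hf hg => simp only [map_add, Finsupp.add_apply, hf, hg]
    | single s r =>
      rw [Φ_single, pr_single, Finsupp.single_apply, Finsupp.single_apply]
      split_ifs
      · exact hε _ _
      · exact map_zero _
  have hΨε : ∀ u b, ε (Ψ u b) = 0 := by
    intro u b
    induction u using Finsupp.induction_linear with
    | zero => simp
    | add f g hf hg => rw [map_add, Finsupp.add_apply, map_add, hf, hg, add_zero]
    | single q d =>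
      simp only [Ψ, Finsupp.linearCombination_single, Finsupp.smul_apply, smul_eq_mul, map_mul]
      rw [hεΦ, hbar]
      simp
  -- kernel of Φ
  have Φ_zero : ∀ x, pr F M S x = 0 → Φ x = 0 := by
    intro x hx
    have : x ∈ LinearMap.ker Φ := by
      refine pr_induction F _ (fun n hn s => ?_) hx
      obtain ⟨h1, h2⟩ := (hM n).1 hn
      rw [LinearMap.mem_ker, ← ac_single, map_sub, Φ_ac n h1, h2]
      rw [sub_eq_zero]
      have : (AddMonoidAlgebra.single (0 : H) (1 : F)) = 1 := rfl
      rw [this, one_smul]
    exact this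
  have zero_Φ : ∀ x, Φ x = 0 → pr F M S x = 0 := by
    intro x hx
    let j : S → QQ N S × H := fun s => (cl N s, χ (rho N s))
    have h1 : Finsupp.mapDomain j x = 0 := by
      have h2 : ∀ y : S →₀ F, ∀ q h, (Φ y q).coeff h = Finsupp.mapDomain j y (q, h) := by
        intro y q h
        induction y using Finsupp.induction_linear with
        | zero => simp
        | add f g hf hg =>
          rw [map_add, Finsupp.add_apply, AddMonoidAlgebra.coeff_add, Finsupp.add_apply, hf, hg,
            Finsupp.mapDomain_add, Finsupp.add_apply]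
        | single s r =>
          rw [Φ_single, Finsupp.mapDomain_single, Finsupp.single_apply, Finsupp.single_apply]
          by_cases hq : cl N s = q
          · rw [if_pos hq, AddMonoidAlgebra.coeff_single, Finsupp.single_apply]
            simp only [j, Prod.mk.injEq, hq, true_and]
          · rw [if_neg hq, if_neg]
            · simp
            · intro h
              exact hq (congrArg Prod.fst h)
      ext ⟨q, h⟩
      rw [← h2, hx]
      simp
    have h3 : ∀ s t, j s = j t → cl M s = cl M t := by
      intro s t hst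
      simp only [j, Prod.mk.injEq] at hst
      refine cl_eq_iff.2 ⟨rho N s * (rho N t)⁻¹, ?_, ?_⟩
      · rw [hM]
        refine ⟨N.mul_mem (rho_mem N s) (N.inv_mem (rho_mem N t)), ?_⟩
        have h4 := hχ (rho N s * (rho N t)⁻¹) (N.mul_mem (rho_mem N s) (N.inv_mem (rho_mem N t)))
          (rho N t) (rho_mem N t)
        rw [inv_mul_cancel_right, hst.2] at h4
        exact (right_eq_add.1 h4)
      · have h5 := rho_smul N s
        rw [mul_smul]
        have h6 : (rho N t)⁻¹ • t = (cl N t).out := by
          rw [inv_smul_eq_iff]; exact (rho_smul N t).symm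
        rw [h6, ← hst.1, h5]
    rcases isEmpty_or_nonempty S with hS | hS
    · have : x = 0 := Subsingleton.elim _ _
      rw [this, map_zero]
    · let k : QQ N S × H → QQ M S := fun y => cl M (Function.invFun j y)
      have hk : ∀ s, k (j s) = cl M s := by
        intro s
        exact h3 _ _ (Function.invFun_eq (f := j) ⟨s, rfl⟩)
      have : pr F M S x = Finsupp.mapDomain k (Finsupp.mapDomain j x) := by
        rw [← Finsupp.mapDomain_comp, pr, Finsupp.lmapDomain_apply]
        congr 1
        funext s
        exact (hk s).symm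
      rw [this, h1, Finsupp.mapDomain_zero]
  apply zero_Φ
  refine eq_zero_of_fixed ε Ψ hΨε _ ?_
  rw [hΨΦ, ← sub_eq_zero, ← map_sub]
  apply Φ_zero
  rw [map_sub, hw, sub_self]

end Pool.Agent.H59
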