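import Mathlib

/-! Dictionary between regular covers and normal subgroups of the deck group. -/

open Topology Set CategoryTheory CategoryTheory.Limits

namespace Pool.Agent.H59

theorem lpc_of_localHomeo {E X : Type*} [TopologicalSpace E] [TopologicalSpace X] {f : E → X}
    (hf : IsLocalHomeomorph f) [LocallyPathConnectedSpace X] : LocallyPathConnectedSpace E := by
  let cs : ChartedSpace X E :=
    { atlas := univ
      chartAt := fun e => (hf e).choose
      mem_chart_source := fun e => (hf e).choose_spec.1
      chart_mem_atlas := fun _ => mem_univ _ }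
  exact ChartedSpace.locallyPathConnectedSpace (H := X) (M := E)

section mono

open Path.Homotopic

variable {E' X : Type*} [TopologicalSpace E'] [TopologicalSpace X]

theorem monodromy_symm_apply {p' : E' → X} (cov : IsCoveringMap p') {x y : X}
    (γ : Path.Homotopic.Quotient x y) (e : p' ⁻¹' {x}) :
    cov.monodromy (Quotient.symm γ) (cov.monodromy γ e) = e := by
  rw [← cov.monodromy_trans_apply, Path.Homotopic.Quotient.trans_symm, cov.monodromy_refl]
  rfl

theorem equivOfPath_apply {x y : X} (γ : Path x y) (ω : FundamentalGroup X x) :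
    FundamentalGroup.fundamentalGroupMulEquivOfPath γ ω =
      Quotient.trans (Quotient.symm (Path.Homotopic.Quotient.mk γ)) (Quotient.trans ω (Path.Homotopic.Quotient.mk γ)) := by
  rfl

/-- the transported image of the fundamental group of a cover is a stabiliser -/
theorem mem_transport_iff {p' : C(E', X)} (cov : IsCoveringMap p') (e' : E') {x₀ : X}
    (γ : Path (p' e') x₀) (δ : FundamentalGroup X x₀) :
    δ ∈ (FundamentalGroup.map p' e').range.map
        (FundamentalGroup.fundamentalGroupMulEquivOfPath γ).toMonoidHom ↔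
      cov.monodromy (x := x₀) (y := x₀) δ (cov.monodromy (Path.Homotopic.Quotient.mk γ) ⟨e', rfl⟩) =
        cov.monodromy (Path.Homotopic.Quotient.mk γ) ⟨e', rfl⟩ := by
  constructor
  · rintro ⟨_, ⟨ω, rfl⟩, rfl⟩
    change cov.monodromy (x := x₀) (y := x₀)
      (FundamentalGroup.fundamentalGroupMulEquivOfPath γ (FundamentalGroup.map p' e' ω)) _ = _
    rw [equivOfPath_apply, cov.monodromy_trans_apply, monodromy_symm_apply,
      cov.monodromy_trans_apply]
    congr 1
    exact cov.monodromy_map (x := e') (y := e') ω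
  · intro h
    let ε : Path.Homotopic.Quotient (p' e') (p' e') :=
      Quotient.trans (Path.Homotopic.Quotient.mk γ) (Quotient.trans (δ : Path.Homotopic.Quotient x₀ x₀) (Quotient.symm (Path.Homotopic.Quotient.mk γ)))
    have hε : cov.monodromy ε ⟨e', rfl⟩ = ⟨e', rfl⟩ := by
      simp only [ε]
      rw [cov.monodromy_trans_apply, cov.monodromy_trans_apply, h, monodromy_symm_apply]
    have hε' : e' = (cov.monodromy ε ⟨e', rfl⟩ : E') := by rw [hε]
    let ω : Path.Homotopic.Quotient e' e' := (cov.liftPathQuotient ε ⟨e', rfl⟩).cast rfl hε'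
    have hω : Path.Homotopic.Quotient.map ω p' = ε := by
      have h1 := cov.map_liftPathQuotient ε ⟨e', rfl⟩
      change Path.Homotopic.Quotient.map ((cov.liftPathQuotient ε ⟨e', rfl⟩).cast rfl hε') p' = ε
      rw [Path.Homotopic.Quotient.map_cast]
      change Path.Homotopic.Quotient.cast (Path.Homotopic.Quotient.map _ _) _ _ = _
      erw [h1]
      exact (Path.Homotopic.Quotient.cast_cast ..).trans (Path.Homotopic.Quotient.cast_rfl_rfl _)
    refine ⟨FundamentalGroup.map p' e' ω, ⟨ω, rfl⟩, ?_⟩
    change FundamentalGroup.fundamentalGroupMulEquivOfPath γ (FundamentalGroup.map p' e' ω) = δ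
    rw [equivOfPath_apply]
    change Quotient.trans (Quotient.symm (Path.Homotopic.Quotient.mk γ)) (Quotient.trans (Path.Homotopic.Quotient.map ω p') (Path.Homotopic.Quotient.mk γ)) = _
    rw [hω]
    simp only [ε, Path.Homotopic.Quotient.trans_assoc, Path.Homotopic.Quotient.symm_trans,
      Path.Homotopic.Quotient.trans_refl]
    rw [← Path.Homotopic.Quotient.trans_assoc, Path.Homotopic.Quotient.symm_trans,
      Path.Homotopic.Quotient.refl_trans]

theorem monodromy_comp {E : Type*} [TopologicalSpace E] {p : E → X} (hp : IsCoveringMap p)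
    {p' : E' → X} (hp' : IsCoveringMap p') (F : C(E, E')) (hF : ∀ e, p' (F e) = p e) {x y : X}
    (δ : Path.Homotopic.Quotient x y) (e : p ⁻¹' {x}) (e' : p' ⁻¹' {x}) (he : F e = e') :
    F (hp.monodromy δ e) = hp'.monodromy δ e' := by
  obtain ⟨δ⟩ := δ
  have h0 : (δ : C(unitInterval, X)) 0 = p e := δ.source.trans e.2.symm
  have h0' : (δ : C(unitInterval, X)) 0 = p' e' := δ.source.trans e'.2.symm
  have h1 : F.comp (hp.liftPath δ e h0) = hp'.liftPath δ e' h0' := by
    rw [hp'.eq_liftPath_iff']
    constructor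
    · funext t
      simp only [Function.comp_apply, ContinuousMap.comp_apply, hF]
      exact congrFun (hp.liftPath_lifts δ e h0) t
    · simp only [ContinuousMap.comp_apply]
      rw [hp.liftPath_zero, he]
  exact DFunLike.congr_fun h1 1

end mono

section quo

variable {E X G : Type*} [TopologicalSpace E] [TopologicalSpace X] [Group G] [MulAction G E]

/-- action of the quotient group on orbits -/
@[reducible] def quotAct (E : Type*) [MulAction G E] (N : Subgroup G) [hN : N.Normal] :
    MulAction (G ⧸ N) (MulAction.orbitRel.Quotient N E) where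
  smul a b := Quotient.liftOn₂ a b (fun g e => Quotient.mk (MulAction.orbitRel N E) (g • e)) (by
    intro g e g' e' hg he
    rw [← Quotient.eq_iff_equiv, Quotient.eq] at hg he
    rw [QuotientGroup.leftRel_apply] at hg
    obtain ⟨n, hn⟩ := MulAction.orbitRel_apply.1 he
    refine Quotient.sound (MulAction.orbitRel_apply.2 ⟨⟨g * n * g'⁻¹, ?_⟩, ?_⟩)
    · have h1 := hN.conj_mem _ n.2 g
      have h2 := hN.conj_mem _ (N.inv_mem hg) g
      have h3 := N.mul_mem h1 h2
      have h4 : g * (n : G) * g⁻¹ * (g * (g⁻¹ * g')⁻¹ * g⁻¹) = g * n * g'⁻¹ := by group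
      rwa [h4] at h3
    · change (g * (n : G) * g'⁻¹) • g' • e' = g • e
      rw [← mul_smul, inv_mul_cancel_right, mul_smul]
      congr 1)
  one_smul b := by
    obtain ⟨e, rfl⟩ := Quotient.exists_rep b
    change Quotient.mk _ ((1 : G) • e) = _
    rw [one_smul]
  mul_smul a a' b := by
    obtain ⟨e, rfl⟩ := Quotient.exists_rep b
    obtain ⟨g, rfl⟩ := Quotient.exists_rep a
    obtain ⟨g', rfl⟩ := Quotient.exists_rep a'
    change Quotient.mk _ ((g * g') • e) = Quotient.mk _ (g • g' • e)
    rw [mul_smul]

/-- the projection of the quotient cover -/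
def pN {p : E → X} (hp : IsQuotientCoveringMap p G) (N : Subgroup G) :
    MulAction.orbitRel.Quotient N E → X :=
  Quotient.lift p (by
    intro a b h
    rw [← Quotient.eq_iff_equiv, Quotient.eq] at h
    obtain ⟨n, hn⟩ := MulAction.orbitRel_apply.1 h
    rw [← hn]
    exact hp.map_smul (n : G))

theorem pN_mk {p : E → X} (hp : IsQuotientCoveringMap p G) (N : Subgroup G) (e : E) :
    pN hp N (Quotient.mk _ e) = p e := rfl

theorem continuous_pN {p : E → X} (hp : IsQuotientCoveringMap p G) (N : Subgroup G) :
    Continuous (pN hp N) := hp.continuous.quotient_lift _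

theorem isOpenMap_mk {p : E → X} (hp : IsQuotientCoveringMap p G) (N : Subgroup G) :
    IsOpenMap (Quotient.mk (MulAction.orbitRel N E)) := by
  have := hp.toContinuousConstSMul
  have c : ContinuousConstSMul N E := ⟨fun n => continuous_const_smul (n : G)⟩
  exact isOpenMap_quotient_mk'_mul

theorem isCoveringMap_pN {p : E → X} (hp : IsQuotientCoveringMap p G) (N : Subgroup G)
    [hN : N.Normal] : IsCoveringMap (pN hp N) := by
  let _ := quotAct E N
  have c := hp.toContinuousConstSMul
  have smul_mk : ∀ (g : G) (e : E), (QuotientGroup.mk g : G ⧸ N) •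
      (Quotient.mk (MulAction.orbitRel N E) e : MulAction.orbitRel.Quotient N E) =
      Quotient.mk (MulAction.orbitRel N E) (g • e) := fun g e => rfl
  have : IsQuotientCoveringMap (pN hp N) (G ⧸ N) :=
    { toIsQuotientMap := by
        have : IsQuotientMap (pN hp N ∘ Quotient.mk (MulAction.orbitRel N E)) :=
          hp.toIsQuotientMap
        exact this.of_comp continuous_quotient_mk' (continuous_pN hp N)
      toContinuousConstSMul := by
        refine ⟨fun a => ?_⟩
        obtain ⟨g, rfl⟩ := QuotientGroup.mk_surjective a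
        refine isQuotientMap_quotient_mk'.continuous_iff.2 ?_
        exact continuous_quotient_mk'.comp (continuous_const_smul g)
      apply_eq_iff_mem_orbit := by
        intro a b
        obtain ⟨a, rfl⟩ := Quotient.exists_rep a
        obtain ⟨b, rfl⟩ := Quotient.exists_rep b
        rw [pN_mk, pN_mk, hp.apply_eq_iff_mem_orbit]
        constructor
        · rintro ⟨g, hg⟩
          exact ⟨(QuotientGroup.mk g : G ⧸ N), by
            change (QuotientGroup.mk g : G ⧸ N) • _ = _
            rw [smul_mk]
            exact congrArg _ hg⟩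
        · rintro ⟨g, hg⟩
          obtain ⟨g, rfl⟩ := QuotientGroup.mk_surjective g
          change (QuotientGroup.mk g : G ⧸ N) • _ = _ at hg
          rw [smul_mk] at hg
          obtain ⟨n, hn⟩ := MulAction.orbitRel_apply.1 (Quotient.exact hg)
          refine ⟨(n : G)⁻¹ * g, ?_⟩
          change ((n : G)⁻¹ * g) • b = a
          rw [mul_smul, ← hn]
          exact inv_smul_smul (n : G) a
      disjoint := by
        intro a
        obtain ⟨e, rfl⟩ := Quotient.exists_rep a
        obtain ⟨U, hU, h⟩ := hp.disjoint e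
        refine ⟨Quotient.mk (MulAction.orbitRel N E) '' U,
          (isOpenMap_mk hp N).image_mem_nhds hU, fun g hg => ?_⟩
        obtain ⟨g, rfl⟩ := QuotientGroup.mk_surjective g
        obtain ⟨_, ⟨_, ⟨u, hu, rfl⟩, rfl⟩, ⟨u', hu', hh⟩⟩ := hg
        simp only [smul_mk] at hh
        obtain ⟨n, hn⟩ := MulAction.orbitRel_apply.1 (Quotient.exact hh)
        have hn' : (n : G) • g • u = u' := hn
        have h1 := h ((n : G) * g) ⟨u', ⟨u, hu, by
          change ((n : G) * g) • u = u'
          rw [mul_smul, hn']⟩, hu'⟩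
        rw [QuotientGroup.eq_one_iff]
        rw [mul_eq_one_iff_inv_eq] at h1
        rw [← h1]
        exact N.inv_mem n.2 }
  exact this.isCoveringMap

end quo

/-- (Q) Dictionary between regular covers of `X` and normal subgroups of the deck group of the
universal cover. -/
theorem exists_subgroup_dictionary {X E G : Type} [TopologicalSpace X] [TopologicalSpace E]
    [LocallyPathConnectedSpace X] [SimplyConnectedSpace E] [Group G] [MulAction G E] (p : E → X)
    (hp : IsQuotientCoveringMap p G) (x₀ : X) :
    ∃ Θ : Subgroup (FundamentalGroup X x₀) ≃o Subgroup G,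
      ∀ P : Subgroup (FundamentalGroup X x₀),
        (P.Normal ∧
            ∃ (E : Type) (_ : TopologicalSpace E) (p : C(E, X)) (e₀ : E)
              (γ : Path (p e₀) x₀),
              IsCoveringMap p ∧ PathConnectedSpace E ∧
              P = (FundamentalGroup.map p e₀).range.map
                    (FundamentalGroup.fundamentalGroupMulEquivOfPath γ).toMonoidHom ∧
              IsZero (((AlgebraicTopology.singularHomologyFunctor (ModuleCat.{0} ℤ) 1).obj
                    (ModuleCat.of ℤ ℤ)).obj (TopCat.of E)) ∧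
              IsZero (((AlgebraicTopology.singularHomologyFunctor (ModuleCat.{0} ℤ) 2).obj
                    (ModuleCat.of ℤ ℤ)).obj (TopCat.of E))) ↔
        ((Θ P).Normal ∧
              IsZero (((AlgebraicTopology.singularHomologyFunctor (ModuleCat.{0} ℤ) 1).obj
                    (ModuleCat.of ℤ ℤ)).obj (TopCat.of (MulAction.orbitRel.Quotient (Θ P) E))) ∧
              IsZero (((AlgebraicTopology.singularHomologyFunctor (ModuleCat.{0} ℤ) 2).obj
                    (ModuleCat.of ℤ ℤ)).obj (TopCat.of (MulAction.orbitRel.Quotient (Θ P) E)))) := by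
  have hcov := hp.isCoveringMap
  have lpcE : LocallyPathConnectedSpace E := lpc_of_localHomeo hcov.isLocalHomeomorph
  have c := hp.toContinuousConstSMul
  obtain ⟨e₀, rfl⟩ := hp.surjective x₀
  let b₀ : p ⁻¹' {p e₀} := ⟨e₀, rfl⟩
  let Φ : FundamentalGroup X (p e₀) ≃* Gᵐᵒᵖ := hp.fundamentalGroupEquiv b₀
  let Θ : Subgroup (FundamentalGroup X (p e₀)) ≃o Subgroup G :=
    (Φ.mapSubgroup).trans (Subgroup.opEquiv).symm
  have memΘ0 : ∀ (P : Subgroup (FundamentalGroup X (p e₀))) (g : G),
      g ∈ Θ P ↔ Φ.symm (MulOpposite.op g) ∈ P := by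
    intro P g
    change MulOpposite.op g ∈ P.map Φ.toMonoidHom ↔ _
    constructor
    · rintro ⟨δ, hδ, h⟩
      rw [← h]
      change Φ.symm (Φ δ) ∈ P
      rwa [MulEquiv.symm_apply_apply]
    · intro h
      exact ⟨_, h, Φ.apply_symm_apply _⟩
  have hΘn : ∀ P : Subgroup (FundamentalGroup X (p e₀)), (Θ P).Normal ↔ P.Normal := by
    intro P
    constructor
    · intro h
      refine ⟨fun δ hδ ε => ?_⟩
      have h1 : (Φ δ).unop ∈ Θ P := by
        rw [memΘ0, MulOpposite.op_unop, MulEquiv.symm_apply_apply]
        exact hδ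
      have h2 := h.conj_mem _ h1 (Φ ε).unop⁻¹
      rw [memΘ0] at h2
      have h3 : Φ.symm (MulOpposite.op ((Φ ε).unop⁻¹ * (Φ δ).unop * (Φ ε).unop⁻¹⁻¹)) =
          ε * δ * ε⁻¹ := by
        apply Φ.injective
        rw [Φ.apply_symm_apply, map_mul, map_mul, map_inv]
        simp only [MulOpposite.op_mul, MulOpposite.op_inv, MulOpposite.op_unop, inv_inv, mul_assoc]
      rwa [h3] at h2
    · intro h
      refine ⟨fun n hn g => ?_⟩
      rw [memΘ0] at hn ⊢
      have h2 := h.conj_mem _ hn (Φ.symm (MulOpposite.op g))⁻¹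
      have h3 : (Φ.symm (MulOpposite.op g))⁻¹ * Φ.symm (MulOpposite.op n) *
          (Φ.symm (MulOpposite.op g))⁻¹⁻¹ = Φ.symm (MulOpposite.op (g * n * g⁻¹)) := by
        apply Φ.injective
        rw [Φ.apply_symm_apply, inv_inv, map_mul, map_mul, map_inv, Φ.apply_symm_apply,
          Φ.apply_symm_apply]
        simp only [MulOpposite.op_mul, MulOpposite.op_inv, mul_assoc]
      rwa [h3] at h2
  have exδ : ∀ g : G, g • e₀ = hcov.monodromy (x := p e₀) (y := p e₀)
      (Φ.symm (MulOpposite.op g)) b₀ := by
    intro g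
    have h1 : hp.fundamentalGroupToMulOpposite b₀ (Φ.symm (MulOpposite.op g)) = MulOpposite.op g :=
      Φ.apply_symm_apply _
    exact (hp.fundamentalGroupToMulOpposite_apply_eq_Iff).1 h1
  -- the stabiliser property of lifts
  have main : ∀ (P : Subgroup (FundamentalGroup X (p e₀))) (E' : Type) (_ : TopologicalSpace E')
      (p' : C(E', X)) (cov : IsCoveringMap p') (e₁ : p' ⁻¹' {p e₀}) (F : C(E, E'))
      (_ : ∀ e, p' (F e) = p e) (_ : F e₀ = e₁)
      (_ : ∀ δ : FundamentalGroup X (p e₀),
        δ ∈ P ↔ cov.monodromy (x := p e₀) (y := p e₀) δ e₁ = e₁) (g : G),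
      F (g • e₀) = F e₀ ↔ g ∈ Θ P := by
    intro P E' _ p' cov e₁ F hF hF0 hP g
    rw [exδ g, monodromy_comp hcov cov F hF (Φ.symm (MulOpposite.op g)) b₀ e₁ hF0, hF0, memΘ0,
      hP, Subtype.ext_iff]
  refine ⟨Θ, fun P => ⟨?_, ?_⟩⟩
  · rintro ⟨hPn, E', _, p', e', γ, cov, pc, hP, z1, z2⟩
    let e₁ : p' ⁻¹' {p e₀} := cov.monodromy (Path.Homotopic.Quotient.mk γ) ⟨e', rfl⟩
    obtain ⟨F, ⟨hF0, hF⟩, -⟩ := cov.existsUnique_continuousMap_lifts ⟨p, hp.continuous⟩ e₀ e₁ e₁.2
    have hF' : ∀ e, p' (F e) = p e := fun e => congrFun hF e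
    have hN : ∀ g, F (g • e₀) = F e₀ ↔ g ∈ Θ P := main P E' _ p' cov e₁ F hF' hF0 (by
      intro δ
      rw [hP]
      exact mem_transport_iff cov e' γ δ)
    -- all fibres
    have hN' : ∀ g ∈ Θ P, ∀ e, F (g • e) = F e := by
      intro g hg e
      have h1 := cov.eq_of_comp_eq (g₁ := fun e => F (g • e)) (g₂ := F)
        (F.continuous.comp (continuous_const_smul g)) F.continuous (by
          funext e
          simp only [Function.comp_apply, hF', hp.map_smul]) e₀ ((hN g).2 hg)
      exact congrFun h1 e
    have hfib : ∀ a b, F a = F b → ∃ n ∈ Θ P, n • b = a := by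
      intro a b hab
      have h1 : p a = p b := by rw [← hF', ← hF', hab]
      obtain ⟨g, hg⟩ := hp.apply_eq_iff_mem_orbit.1 h1
      refine ⟨g, ?_, hg⟩
      rw [← hN]
      have h2 := cov.eq_of_comp_eq (g₁ := fun e => F (g • e)) (g₂ := F)
        (F.continuous.comp (continuous_const_smul g)) F.continuous (by
          funext e
          simp only [Function.comp_apply, hF', hp.map_smul]) b (by
            change F (g • b) = F b
            rw [← hab]; exact congrArg F hg)
      exact congrFun h2 e₀
    have hsurj : Function.Surjective F := by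
      intro y
      let β : Path (F e₀) y := PathConnectedSpace.somePath _ _
      have h0 : (p'.comp β.toContinuousMap) 0 = p e₀ := by
        change p' (β 0) = _
        rw [β.source, hF']
      let β' := hcov.liftPath (p'.comp β.toContinuousMap) e₀ h0
      have h1 : F.comp β' = β.toContinuousMap := by
        have h2 : F.comp β' = cov.liftPath (p'.comp β.toContinuousMap) (F e₀) (by rw [h0, hF']) := by
          rw [cov.eq_liftPath_iff']
          constructor
          · funext t
            simp only [Function.comp_apply, ContinuousMap.comp_apply, hF']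
            exact congrFun (hcov.liftPath_lifts _ e₀ h0) t
          · simp only [ContinuousMap.comp_apply, β']
            rw [hcov.liftPath_zero]
        have h3 : β.toContinuousMap = cov.liftPath (p'.comp β.toContinuousMap) (F e₀)
            (by rw [h0, hF']) := by
          rw [cov.eq_liftPath_iff']
          exact ⟨rfl, β.source⟩
        rw [h2, ← h3]
      refine ⟨β' 1, ?_⟩
      have h4 := DFunLike.congr_fun h1 1
      exact h4.trans β.target
    have hopen : IsOpenMap F := by
      have h1 : IsLocalHomeomorph (p' ∘ F) := by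
        rw [hF]
        exact hcov.isLocalHomeomorph
      exact (h1.of_comp cov.isLocalHomeomorph F.continuous).isOpenMap
    let Fb : MulAction.orbitRel.Quotient (Θ P) E → E' := Quotient.lift F (by
      intro a b h
      rw [← Quotient.eq_iff_equiv, Quotient.eq] at h
      obtain ⟨n, hn⟩ := MulAction.orbitRel_apply.1 h
      rw [← hn]
      exact hN' n n.2 b)
    have Fb_bij : Function.Bijective Fb := by
      constructor
      · intro a b hab
        obtain ⟨a, rfl⟩ := Quotient.exists_rep a
        obtain ⟨b, rfl⟩ := Quotient.exists_rep b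
        obtain ⟨n, hn, h⟩ := hfib a b hab
        exact Quotient.sound (MulAction.orbitRel_apply.2 ⟨⟨n, hn⟩, h⟩)
      · intro y
        obtain ⟨e, rfl⟩ := hsurj y
        exact ⟨Quotient.mk _ e, rfl⟩
    have Fb_cont : Continuous Fb := F.continuous.quotient_lift _
    have Fb_open : IsOpenMap Fb := by
      intro U hU
      have h1 : Fb '' U = F '' (Quotient.mk (MulAction.orbitRel (Θ P) E) ⁻¹' U) := by
        ext y
        constructor
        · rintro ⟨a, ha, rfl⟩
          obtain ⟨a, rfl⟩ := Quotient.exists_rep a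
          exact ⟨a, ha, rfl⟩
        · rintro ⟨a, ha, rfl⟩
          exact ⟨Quotient.mk _ a, ha, rfl⟩
      rw [h1]
      exact hopen _ (hU.preimage continuous_quotient_mk')
    let H : MulAction.orbitRel.Quotient (Θ P) E ≃ₜ E' :=
      (Equiv.ofBijective Fb Fb_bij).toHomeomorphOfContinuousOpen Fb_cont Fb_open
    refine ⟨(hΘn P).2 hPn, ?_, ?_⟩
    · exact z1.of_iso (Functor.mapIso _ (TopCat.isoOfHomeo (X := TopCat.of _) (Y := TopCat.of _) H))
    · exact z2.of_iso (Functor.mapIso _ (TopCat.isoOfHomeo (X := TopCat.of _) (Y := TopCat.of _) H))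
  · rintro ⟨hn, z1, z2⟩
    have hPn : P.Normal := (hΘn P).1 hn
    refine ⟨hPn, MulAction.orbitRel.Quotient (Θ P) E, inferInstance,
      ⟨pN hp (Θ P), continuous_pN hp (Θ P)⟩, Quotient.mk _ e₀, Path.refl (p e₀),
      isCoveringMap_pN hp (Θ P), inferInstance, ?_, z1, z2⟩
    have cov := isCoveringMap_pN hp (Θ P)
    let p' : C(MulAction.orbitRel.Quotient (Θ P) E, X) := ⟨pN hp (Θ P), continuous_pN hp (Θ P)⟩
    let F : C(E, MulAction.orbitRel.Quotient (Θ P) E) := ⟨Quotient.mk _, continuous_quotient_mk'⟩
    let e₁ : p' ⁻¹' {p e₀} := ⟨Quotient.mk _ e₀, rfl⟩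
    ext δ
    have h1 := mem_transport_iff (p' := p') cov (Quotient.mk _ e₀) (Path.refl (p e₀)) δ
    have h2 : cov.monodromy (Path.Homotopic.Quotient.mk (Path.refl (p e₀))) e₁ = e₁ := by
      rw [Path.Homotopic.Quotient.mk_refl, cov.monodromy_refl]
      rfl
    refine Iff.trans ?_ h1.symm
    change _ ↔ cov.monodromy (x := p e₀) (y := p e₀) δ
      (cov.monodromy (Path.Homotopic.Quotient.mk (Path.refl (p e₀))) e₁) =
      cov.monodromy (Path.Homotopic.Quotient.mk (Path.refl (p e₀))) e₁
    rw [h2, Subtype.ext_iff]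
    rw [← monodromy_comp hcov cov F (fun e => rfl) δ b₀ e₁ rfl]
    have h3 : δ ∈ P ↔ (Φ δ).unop ∈ Θ P := by
      rw [memΘ0, MulOpposite.op_unop, MulEquiv.symm_apply_apply]
    have h4 := exδ (Φ δ).unop
    rw [MulOpposite.op_unop, MulEquiv.symm_apply_apply] at h4
    rw [h3, ← h4]
    constructor
    · intro h
      exact Quotient.sound (MulAction.orbitRel_apply.2 ⟨⟨(Φ δ).unop, h⟩, rfl⟩)
    · intro h
      obtain ⟨n, hn⟩ := MulAction.orbitRel_apply.1 (Quotient.exact h)
      have canc := hp.isCancelSMul
      have : (n : G) = (Φ δ).unop := IsCancelSMul.right_cancel _ _ e₀ hn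
      rw [← this]
      exact n.2

end Pool.Agent.H59
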