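import Mathlib

/-! CW complexes are locally path connected. -/

open Topology Set Metric

namespace Pool.Agent.H59

theorem locallyPathConnected_of_cw (X : Type) [TopologicalSpace X] [T2Space X]
    [Topology.CWComplex (Set.univ : Set X)] : LocallyPathConnectedSpace X := by
  let Y := Σ n : ℕ, Σ _ : RelCWComplex.cell (Set.univ : Set X) n, closedBall (0 : Fin n → ℝ) 1
  let f : Y → X := fun y => RelCWComplex.map y.1 y.2.1 y.2.2
  have hf : Continuous f := by
    refine continuous_sigma (fun n => continuous_sigma (fun i => ?_))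
    exact continuousOn_iff_continuous_domRestrict.1 (RelCWComplex.continuousOn n i)
  have hY : LocallyPathConnectedSpace Y := by
    have : ∀ n : ℕ, LocallyPathConnectedSpace
        (Σ _ : RelCWComplex.cell (Set.univ : Set X) n, closedBall (0 : Fin n → ℝ) 1) := by
      intro n
      have : LocallyPathConnectedSpace (closedBall (0 : Fin n → ℝ) 1) :=
        (convex_closedBall (0 : Fin n → ℝ) 1).locallyPathConnectedSpace
      infer_instance
    infer_instance
  have hq : IsQuotientMap f := by
    rw [isQuotientMap_iff_isClosed]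
    refine ⟨?_, fun s => ⟨fun hs => hs.preimage hf, fun hs => ?_⟩⟩
    · intro x
      have hx : x ∈ (⋃ (n : ℕ) (j : RelCWComplex.cell (Set.univ : Set X) n),
        RelCWComplex.closedCell n j) := by
        rw [CWComplex.union]; exact mem_univ x
      simp only [mem_iUnion] at hx
      obtain ⟨n, j, y, hy, rfl⟩ := hx
      exact ⟨⟨n, j, y, hy⟩, rfl⟩
    · rw [CWComplex.closed (Set.univ : Set X) s (subset_univ s)]
      intro n j
      have e1 : IsClosed ((fun y : closedBall (0 : Fin n → ℝ) 1 => (⟨n, j, y⟩ : Y)) ⁻¹' (f ⁻¹' s)) := by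
        refine hs.preimage ?_
        exact continuous_sigmaMk.comp continuous_sigmaMk
      have e2 : s ∩ RelCWComplex.closedCell n j =
          (fun y : closedBall (0 : Fin n → ℝ) 1 => f ⟨n, j, y⟩) ''
            ((fun y : closedBall (0 : Fin n → ℝ) 1 => (⟨n, j, y⟩ : Y)) ⁻¹' (f ⁻¹' s)) := by
        ext x
        constructor
        · rintro ⟨hx, y, hy, rfl⟩
          exact ⟨⟨y, hy⟩, hx, rfl⟩
        · rintro ⟨⟨y, hy⟩, hx, rfl⟩
          exact ⟨hx, y, hy, rfl⟩
      rw [e2]
      have : CompactSpace (closedBall (0 : Fin n → ℝ) 1) :=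
        isCompact_iff_compactSpace.1 (isCompact_closedBall _ _)
      refine (e1.isCompact.image ?_).isClosed
      exact hf.comp (continuous_sigmaMk.comp continuous_sigmaMk)
  exact hq.locallyPathConnectedSpace

end Pool.Agent.H59
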