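import Pool.Agent.H59.Affine

/-! First homology of simply connected spaces. -/

open Topology Set

namespace Pool.Agent.H59

open CvxSp

theorem coe_comb_I {n : ℕ} (v : Fin n → unitInterval) (x : Dl n) :
    ((comb v x : unitInterval) : ℝ) = ∑ i, x.1 i * (v i : ℝ) := rfl

/-- the coordinate of an edge -/
noncomputable def iv : C(Dl 2, unitInterval) := ⟨comb ![0, 1], cont _⟩

theorem iv_coe (x : Dl 2) : ((iv x : unitInterval) : ℝ) = x.1 1 := by
  change ((comb ![0, 1] x : unitInterval) : ℝ) = _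
  rw [coe_comb_I, Fin.sum_univ_two]
  simp

/-- inverse of `iv` -/
noncomputable def vi : C(unitInterval, Dl 2) :=
  ⟨fun t => ⟨![1 - (t : ℝ), t], by
    refine ⟨fun i => ?_, ?_⟩
    · fin_cases i
      · simpa using t.2.2
      · simpa using t.2.1
    · simp⟩, by
    refine Continuous.subtype_mk ?_ _
    refine continuous_pi (fun i => ?_)
    fin_cases i <;> simp <;> fun_prop⟩

theorem vi_iv (x : Dl 2) : vi (iv x) = x := by
  apply Subtype.ext
  have h : x.1 0 + x.1 1 = 1 := by
    have := x.2.2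
    rwa [Fin.sum_univ_two] at this
  funext i
  fin_cases i
  · change 1 - ((iv x : unitInterval) : ℝ) = x.1 0
    rw [iv_coe]; linarith
  · change ((iv x : unitInterval) : ℝ) = x.1 1
    rw [iv_coe]

variable {Y : Type*} [TopologicalSpace Y]

/-- the edge of a path -/
noncomputable def toSmp {x y : Y} (γ : Path x y) : Smp 2 Y := γ.toContinuousMap.comp iv

/-- the path of an edge -/
noncomputable def ofSmp (σ : Smp 2 Y) : Path (σ (stdSimplex.vertex 0)) (σ (stdSimplex.vertex 1)) where
  toFun t := σ (vi t)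
  continuous_toFun := by fun_prop
  source' := by
    congr 1
    apply Subtype.ext
    funext i
    fin_cases i <;> simp [vi]
  target' := by
    congr 1
    apply Subtype.ext
    funext i
    fin_cases i <;> simp [vi]

theorem toSmp_ofSmp (σ : Smp 2 Y) : toSmp (ofSmp σ) = σ := by
  ext x
  change σ (vi (iv x)) = σ x
  rw [vi_iv]

theorem cf_apply_comb {K : Type*} [TopologicalSpace K] [CvxSp K] {n : ℕ} (v : Fin (n + 1) → K)
    (i : Fin (n + 1)) (x : Dl n) : comb v (cf i x) = comb (v ∘ i.succAbove) x :=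
  comb_map v _ x

/-- the triangle of a concatenation -/
theorem exists_trans_triangle {x y z : Y} (c : Path x y) (a : Path y z) :
    ∃ T : Smp 3 Y, bd ℤ 2 Y (Finsupp.single T 1) =
      Finsupp.single (toSmp a) 1 - Finsupp.single (toSmp (c.trans a)) 1 +
        Finsupp.single (toSmp c) 1 := by
  let h : unitInterval := ⟨1 / 2, by norm_num, by norm_num⟩
  let r : C(Dl 3, unitInterval) := ⟨comb ![0, h, 1], cont _⟩
  refine ⟨(c.trans a).toContinuousMap.comp r, ?_⟩
  have hr : ∀ (i : Fin 3) (x : Dl 2), r (cf i x) = comb (![0, h, 1] ∘ i.succAbove) x :=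
    fun i x => cf_apply_comb _ i x
  have f0 : fc ((c.trans a).toContinuousMap.comp r) 0 = toSmp a := by
    ext x
    change (c.trans a) (r (cf 0 x)) = a (iv x)
    have hx : x.1 0 + x.1 1 = 1 := by
      have := x.2.2
      rwa [Fin.sum_univ_two] at this
    have e1 : ((r (cf 0 x) : unitInterval) : ℝ) = (1 + x.1 1) / 2 := by
      rw [hr, coe_comb_I, Fin.sum_univ_two]
      change x.1 0 * (1 / 2) + x.1 1 * 1 = _
      linarith
    have h0 := x.2.1 1
    rw [Path.trans_apply]
    split_ifs with hle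
    · have e2 : x.1 1 = 0 := by rw [e1] at hle; linarith
      have e3 : (⟨2 * (r (cf 0 x) : ℝ), (unitInterval.mul_pos_mem_iff zero_lt_two).2
          ⟨(r (cf 0 x)).2.1, hle⟩⟩ : unitInterval) = 1 := by
        apply Subtype.ext
        change 2 * ((r (cf 0 x) : unitInterval) : ℝ) = 1
        rw [e1, e2]; norm_num
      have e4 : iv x = 0 := Subtype.ext (by rw [iv_coe, e2]; rfl)
      rw [e3, e4, c.target, a.source]
    · congr 1
      apply Subtype.ext
      change 2 * ((r (cf 0 x) : unitInterval) : ℝ) - 1 = _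
      rw [e1, iv_coe]; ring
  have f1 : fc ((c.trans a).toContinuousMap.comp r) 1 = toSmp (c.trans a) := by
    ext x
    change (c.trans a) (r (cf 1 x)) = (c.trans a) (iv x)
    congr 1
    rw [hr]
    change comb _ x = comb _ x
    congr 1
    funext i
    fin_cases i <;> rfl
  have f2 : fc ((c.trans a).toContinuousMap.comp r) 2 = toSmp c := by
    ext x
    change (c.trans a) (r (cf 2 x)) = c (iv x)
    have e1 : ((r (cf 2 x) : unitInterval) : ℝ) = (x.1 1) / 2 := by
      rw [hr, coe_comb_I, Fin.sum_univ_two]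
      change x.1 0 * 0 + x.1 1 * (1 / 2) = _
      ring
    have h0 := x.2.1 1
    have hx : x.1 0 + x.1 1 = 1 := by
      have := x.2.2
      rwa [Fin.sum_univ_two] at this
    have h1 := x.2.1 0
    rw [Path.trans_apply, dif_pos (by rw [e1]; linarith)]
    congr 1
    apply Subtype.ext
    change 2 * ((r (cf 2 x) : unitInterval) : ℝ) = _
    rw [e1, iv_coe]; ring
  rw [bd_single, Fin.sum_univ_three, f0, f1, f2]
  simp [sub_eq_add_neg]

/-- collapse of the square onto the triangle -/
noncomputable def clps : C(unitInterval × unitInterval, Dl 3) :=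
  ⟨fun q => ⟨![1 - (q.1 : ℝ), q.1 * (1 - q.2), q.1 * q.2], by
    have h1 := q.1.2.1
    have h2 := q.1.2.2
    have h3 := q.2.2.1
    have h4 := q.2.2.2
    refine ⟨fun i => ?_, ?_⟩
    · fin_cases i
      · simpa using h2
      · exact mul_nonneg h1 (by linarith)
      · exact mul_nonneg h1 h3
    · rw [Fin.sum_univ_three]
      simp
      ring⟩, by
    refine Continuous.subtype_mk ?_ _
    refine continuous_pi (fun i => ?_)
    fin_cases i <;> simp <;> fun_prop⟩

theorem clps_surjective : Function.Surjective clps := by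
  intro x
  have hx : x.1 0 + x.1 1 + x.1 2 = 1 := by
    have := x.2.2
    rwa [Fin.sum_univ_three] at this
  have h0 := x.2.1 0
  have h1 := x.2.1 1
  have h2 := x.2.1 2
  by_cases hs : x.1 1 + x.1 2 = 0
  · refine ⟨(0, 0), ?_⟩
    apply Subtype.ext
    funext i
    fin_cases i
    · change 1 - (0 : ℝ) = x.1 0
      linarith
    · change (0 : ℝ) * (1 - 0) = x.1 1
      linarith
    · change (0 : ℝ) * 0 = x.1 2
      linarith
  · have hpos : 0 < x.1 1 + x.1 2 := lt_of_le_of_ne (by linarith) (Ne.symm hs)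
    refine ⟨(⟨x.1 1 + x.1 2, by linarith, by linarith⟩,
      ⟨x.1 2 / (x.1 1 + x.1 2), div_nonneg h2 hpos.le, (div_le_one hpos).2 (by linarith)⟩), ?_⟩
    apply Subtype.ext
    funext i
    fin_cases i
    · change 1 - (x.1 1 + x.1 2) = x.1 0
      linarith
    · change (x.1 1 + x.1 2) * (1 - x.1 2 / (x.1 1 + x.1 2)) = x.1 1
      field_simp
      ring
    · change (x.1 1 + x.1 2) * (x.1 2 / (x.1 1 + x.1 2)) = x.1 2
      field_simp

theorem isQuotientMap_clps : IsQuotientMap clps :=
  (clps.continuous.isClosedMap).isQuotientMap clps.continuous clps_surjective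

/-- filling a triangle from a square -/
theorem exists_triangle (K : C(unitInterval × unitInterval, Y))
    (hK : ∀ t t', K (0, t) = K (0, t')) :
    ∃ T : Smp 3 Y, ∀ q, T (clps q) = K q := by
  have hcomp : ∀ q q', clps q = clps q' → K q = K q' := by
    rintro ⟨s, t⟩ ⟨s', t'⟩ h
    have h0 : 1 - (s : ℝ) = 1 - s' := congrFun (congrArg Subtype.val h) 0
    have h2 : (s : ℝ) * t = s' * t' := congrFun (congrArg Subtype.val h) 2
    have hs : s = s' := Subtype.ext (by linarith)
    subst hs
    by_cases h3 : s = 0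
    · subst h3
      exact hK _ _
    · have h4 : (s : ℝ) ≠ 0 := fun h => h3 (Subtype.ext h)
      have ht : t = t' := Subtype.ext (mul_left_cancel₀ h4 h2)
      rw [ht]
  have hf : Function.FactorsThrough K clps := fun q q' h => hcomp q q' h
  exact ⟨isQuotientMap_clps.lift K hf, fun q =>
    DFunLike.congr_fun (isQuotientMap_clps.lift_comp K hf) q⟩

theorem cf_zero_eq (x : Dl 2) : cf 0 x = clps (1, iv x) := by
  have hx : x.1 0 + x.1 1 = 1 := by
    have := x.2.2
    rwa [Fin.sum_univ_two] at this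
  have h := map_eq_comb (Fin.succAbove (0 : Fin 3)) x
  change cf 0 x = _ at h
  rw [h]
  apply Subtype.ext
  change ∑ i, x.1 i • (Pi.single (Fin.succAbove (0 : Fin 3) i) 1 : Fin 3 → ℝ) =
    ![1 - (1 : ℝ), 1 * (1 - ((iv x : unitInterval) : ℝ)), 1 * ((iv x : unitInterval) : ℝ)]
  rw [iv_coe, Fin.sum_univ_two]
  funext i
  fin_cases i
  · simp
  · simp
    linarith
  · simp

theorem cf_one_eq (x : Dl 2) : cf 1 x = clps (iv x, 1) := by
  have hx : x.1 0 + x.1 1 = 1 := by
    have := x.2.2
    rwa [Fin.sum_univ_two] at this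
  have h := map_eq_comb (Fin.succAbove (1 : Fin 3)) x
  change cf 1 x = _ at h
  rw [h]
  apply Subtype.ext
  change ∑ i, x.1 i • (Pi.single (Fin.succAbove (1 : Fin 3) i) 1 : Fin 3 → ℝ) =
    ![1 - ((iv x : unitInterval) : ℝ), ((iv x : unitInterval) : ℝ) * (1 - 1),
      ((iv x : unitInterval) : ℝ) * 1]
  rw [iv_coe, Fin.sum_univ_two]
  funext i
  fin_cases i
  · simp
    linarith
  · simp
  · simp

theorem cf_two_eq (x : Dl 2) : cf 2 x = clps (iv x, 0) := by
  have hx : x.1 0 + x.1 1 = 1 := by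
    have := x.2.2
    rwa [Fin.sum_univ_two] at this
  have h := map_eq_comb (Fin.succAbove (2 : Fin 3)) x
  change cf 2 x = _ at h
  rw [h]
  apply Subtype.ext
  change ∑ i, x.1 i • (Pi.single (Fin.succAbove (2 : Fin 3) i) 1 : Fin 3 → ℝ) =
    ![1 - ((iv x : unitInterval) : ℝ), ((iv x : unitInterval) : ℝ) * (1 - 0),
      ((iv x : unitInterval) : ℝ) * 0]
  have s0 : Fin.succAbove (2 : Fin 3) 0 = 0 := rfl
  have s1 : Fin.succAbove (2 : Fin 3) 1 = 1 := rfl
  rw [iv_coe, Fin.sum_univ_two, s0, s1]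
  funext i
  fin_cases i
  · simp
    linarith
  · simp
  · simp

/-- the triangle of a homotopy -/
theorem exists_homotopy_triangle {x y : Y} {γ₀ γ₁ : Path x y} (h : γ₀.Homotopic γ₁) :
    ∃ T : Smp 3 Y, bd ℤ 2 Y (Finsupp.single T 1) =
      Finsupp.single (ContinuousMap.const _ y) 1 - Finsupp.single (toSmp γ₁) 1 +
        Finsupp.single (toSmp γ₀) 1 := by
  obtain ⟨H⟩ := h
  let K : C(unitInterval × unitInterval, Y) := ⟨fun q => H (q.2, q.1), by fun_prop⟩
  obtain ⟨T, hT⟩ := exists_triangle K (fun t t' => by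
    change H (t, 0) = H (t', 0)
    rw [H.source, H.source])
  refine ⟨T, ?_⟩
  have f0 : fc T 0 = ContinuousMap.const _ y := by
    ext x
    change T (cf 0 x) = y
    rw [cf_zero_eq, hT]
    exact H.target _
  have f1 : fc T 1 = toSmp γ₁ := by
    ext x
    change T (cf 1 x) = γ₁ (iv x)
    rw [cf_one_eq, hT]
    exact H.apply_one _
  have f2 : fc T 2 = toSmp γ₀ := by
    ext x
    change T (cf 2 x) = γ₀ (iv x)
    rw [cf_two_eq, hT]
    exact H.apply_zero _
  rw [bd_single, Fin.sum_univ_three, f0, f1, f2]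
  simp [sub_eq_add_neg]

/-- (S1) First homology of a simply connected space vanishes. -/
theorem H1_simplyConnected (Y : Type*) [TopologicalSpace Y] [SimplyConnectedSpace Y]
    (z : Ch ℤ 2 Y) (hz : bd ℤ 1 Y z = 0) : ∃ b : Ch ℤ 3 Y, bd ℤ 2 Y b = z := by
  obtain ⟨y₀⟩ : Nonempty Y := inferInstance
  let P : ∀ y : Y, Path y₀ y := fun y => PathConnectedSpace.somePath y₀ y
  let g : Smp 1 Y → Ch ℤ 2 Y := fun x => Finsupp.single (toSmp (P (x (stdSimplex.vertex 0)))) 1
  have key : ∀ σ : Smp 2 Y, ∃ b : Ch ℤ 3 Y,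
      bd ℤ 2 Y b = Finsupp.single σ 1 - (g (fc σ 0) - g (fc σ 1)) := by
    intro σ
    obtain ⟨T₁, h₁⟩ := exists_trans_triangle (P (σ (stdSimplex.vertex 0))) (ofSmp σ)
    obtain ⟨T₂, h₂⟩ := exists_homotopy_triangle (SimplyConnectedSpace.paths_homotopic
      ((P (σ (stdSimplex.vertex 0))).trans (ofSmp σ)) (P (σ (stdSimplex.vertex 1))))
    refine ⟨Finsupp.single T₁ 1 + Finsupp.single T₂ 1 -
      Finsupp.single (ContinuousMap.const _ (σ (stdSimplex.vertex 1))) 1, ?_⟩
    have h₃ : bd ℤ 2 Y (Finsupp.single (ContinuousMap.const _ (σ (stdSimplex.vertex 1))) 1) =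
        Finsupp.single (ContinuousMap.const _ (σ (stdSimplex.vertex 1))) 1 := by
      rw [bd_single, Fin.sum_univ_three]
      simp only [fc, ContinuousMap.const_comp]
      simp
    have g0 : g (fc σ 0) = Finsupp.single (toSmp (P (σ (stdSimplex.vertex 1)))) 1 := by
      simp only [g]
      have : fc σ 0 (stdSimplex.vertex 0) = σ (stdSimplex.vertex 1) := by
        change σ (cf 0 (stdSimplex.vertex 0)) = _
        congr 1
        exact stdSimplex.map_vertex _ _
      rw [this]
    have g1 : g (fc σ 1) = Finsupp.single (toSmp (P (σ (stdSimplex.vertex 0)))) 1 := by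
      simp only [g]
      have : fc σ 1 (stdSimplex.vertex 0) = σ (stdSimplex.vertex 0) := by
        change σ (cf 1 (stdSimplex.vertex 0)) = _
        congr 1
        exact stdSimplex.map_vertex _ _
      rw [this]
    rw [map_sub, map_add, h₁, h₂, h₃, toSmp_ofSmp, g0, g1]
    abel
  choose b hb using key
  let B : Ch ℤ 2 Y →ₗ[ℤ] Ch ℤ 3 Y := Finsupp.linearCombination ℤ b
  let Gm : Ch ℤ 1 Y →ₗ[ℤ] Ch ℤ 2 Y := Finsupp.linearCombination ℤ g
  have main : ∀ z : Ch ℤ 2 Y, bd ℤ 2 Y (B z) = z - Gm (bd ℤ 1 Y z) := by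
    intro z
    induction z using Finsupp.induction_linear with
    | zero => simp
    | add u v hu hv => simp only [map_add, hu, hv]; abel
    | single σ n =>
      have e1 : bd ℤ 1 Y (Finsupp.single σ n) =
          n • (Finsupp.single (fc σ 0) 1 - Finsupp.single (fc σ 1) 1) := by
        rw [bd_single, Fin.sum_univ_two]
        simp [sub_eq_add_neg]
      rw [e1, map_smul, map_sub]
      simp only [B, Gm, Finsupp.linearCombination_single, one_smul, map_smul]
      rw [hb, smul_sub, Finsupp.smul_single, smul_eq_mul, mul_one]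
  refine ⟨B z, ?_⟩
  rw [main, hz, map_zero, sub_zero]

end Pool.Agent.H59
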