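import Pool.Agent.H59.CW

/-! CW complexes of dimension at most two are semilocally simply connected. -/

open Topology Set Metric

namespace Pool.Agent.H59

section

variable {X : Type} [TopologicalSpace X]

theorem homotopic_of {x : X} (γ γ' : Path x x) (H : unitInterval × unitInterval → X)
    (hc : Continuous H) (h0 : ∀ t, H (0, t) = γ t) (h1 : ∀ t, H (1, t) = γ' t)
    (hx : ∀ s, H (s, 0) = x) (hx' : ∀ s, H (s, 1) = x) : γ.Homotopic γ' :=
  ⟨{ toFun := H
     continuous_toFun := hc
     map_zero_left := h0
     map_one_left := h1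
     prop' := by
       intro t y hy
       simp only [mem_insert_iff, mem_singleton_iff] at hy
       rcases hy with rfl | rfl
       · change H (t, 0) = γ 0
         rw [hx, γ.source]
       · change H (t, 1) = γ 1
         rw [hx', γ.target] }⟩

/-- local simple connectivity of a piece in the whole space -/
def SL (Z : Set X) : Prop :=
  ∀ x ∈ Z, ∃ O : Set X, IsOpen O ∧ x ∈ O ∧
    ∀ γ : Path x x, (∀ t, γ t ∈ Z ∩ O) → γ.Homotopic (Path.refl x)

theorem Att.SL [T2Space X] {A Z : Set X} {k : ℕ} (a : Att A Z k) (hA : SL A) : SL Z := by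
  intro x hxZ
  by_cases hxA : x ∈ A
  · obtain ⟨O', hO', hxO', hγ⟩ := hA x hxA
    have hO₁ : IsOpen (a.cs (closedBall 0 (1 / 2)))ᶜ :=
      (a.closed_cs _ isClosed_closedBall (closedBall_subset_ball (by norm_num))).isOpen_compl
    have cont := a.continuousOn_ext stretch continuous_stretch.continuousOn
      (fun x hx t => stretch_mem hx t) (fun x hx t => stretch_sphere hx t)
    have cf : ContinuousOn (fun z => a.ext stretch z 1) Z :=
      cont.comp (f := fun z => (z, (1 : unitInterval))) (by fun_prop)
        (fun z hz => ⟨hz, mem_univ _⟩)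
    obtain ⟨O'', hO'', h''⟩ := (_root_.continuousOn_iff'.1 cf) O' hO'
    refine ⟨O'' ∩ (a.cs (closedBall 0 (1 / 2)))ᶜ, hO''.inter hO₁, ⟨?_, ?_⟩, ?_⟩
    · have : x ∈ (fun z => a.ext stretch z 1) ⁻¹' O' ∩ Z := by
        refine ⟨?_, hxZ⟩
        rw [mem_preimage, a.ext_A _ hxA]
        exact hxO'
      rw [h''] at this
      exact this.1
    · exact fun h => a.csf_not_mem_A h hxA
    · intro γ hγO
      -- the retraction of the path
      have mem1 : ∀ t, a.ext stretch (γ t) 1 ∈ A ∩ O' := by
        intro t
        obtain ⟨hZ, hO, hn⟩ := hγO t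
        constructor
        · rcases a.mem_Z hZ with h | ⟨i, y, hy, h⟩
          · rw [a.ext_A _ h]; exact h
          · rw [← h, a.ext_Φ _ hy]
            apply a.bdry
            apply stretch_one
            rw [← h] at hn
            by_contra hlt
            apply hn
            exact (a.Φ_mem_csf hy).2 (by rw [mem_closedBall_zero_iff]; exact not_lt.1 hlt)
        · have : γ t ∈ O'' ∩ Z := ⟨hO, hZ⟩
          rw [← h''] at this
          exact this.1
      let γ' : Path x x :=
        { toFun := fun t => a.ext stretch (γ t) 1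
          continuous_toFun := cf.comp_continuous γ.continuous (fun t => (hγO t).1)
          source' := by rw [γ.source, a.ext_A _ hxA]
          target' := by rw [γ.target, a.ext_A _ hxA] }
      have e1 : γ.Homotopic γ' := by
        refine homotopic_of γ γ' (fun q => a.ext stretch (γ q.2) q.1) ?_ ?_ ?_ ?_ ?_
        · exact cont.comp_continuous (f := fun q : unitInterval × unitInterval => (γ q.2, q.1))
            ((γ.continuous.comp continuous_snd).prodMk continuous_fst)
            (fun q => ⟨(hγO _).1, mem_univ _⟩)
        · intro t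
          simp only
          rcases a.mem_Z (hγO t).1 with h | ⟨i, y, hy, h⟩
          · rw [a.ext_A _ h]
          · rw [← h, a.ext_Φ _ hy, stretch_zero]
        · intro t
          rfl
        · intro s
          simp only [γ.source]
          exact a.ext_A _ hxA _
        · intro s
          simp only [γ.target]
          exact a.ext_A _ hxA _
      exact e1.trans (hγ γ' mem1)
  · obtain ⟨i, y, hy, rfl⟩ := (a.mem_Z hxZ).resolve_left hxA
    classical
    obtain ⟨O, hO, hOi⟩ := a.exists_open (fun j => if j = i then univ else ∅)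
      (fun j => by split_ifs; exacts [isOpen_univ, isOpen_empty])
    refine ⟨O, hO, ?_, ?_⟩
    · have : a.Φ i y ∈ Z ∩ O := by
        rw [hOi, a.Φ_mem_csf hy]
        simp
      exact this.2
    · intro γ hγO
      have mem : ∀ t, ∃ v ∈ ball (0 : Fin k → ℝ) 1, a.Φ i v = γ t := by
        intro t
        have h := hγO t
        rw [hOi] at h
        obtain ⟨j, v, hv, hvD, h⟩ := a.mem_csf.1 h
        by_cases hj : j = i
        · subst hj
          exact ⟨v, hv, h⟩
        · simp [hj] at hvD
      have mem' : ∀ t, a.crd (γ t) ∈ ball (0 : Fin k → ℝ) 1 ∧ a.Φ i (a.crd (γ t)) = γ t := by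
        intro t
        obtain ⟨v, hv, h⟩ := mem t
        rw [← h, a.crd_Φ hv]
        exact ⟨hv, rfl⟩
      have cc : Continuous (fun t => a.crd (γ t)) := by
        refine a.continuousOn_crd.comp_continuous γ.continuous (fun t => ?_)
        obtain ⟨v, hv, h⟩ := mem t
        rw [← h]
        exact (a.Φ_mem_csf hv).2 (mem_univ _)
      refine homotopic_of γ (Path.refl _)
        (fun q => a.Φ i ((1 - (q.1 : ℝ)) • a.crd (γ q.2) + (q.1 : ℝ) • y)) ?_ ?_ ?_ ?_ ?_
      · refine (a.cont i).comp_continuous (f := fun q : unitInterval × unitInterval =>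
          (1 - (q.1 : ℝ)) • a.crd (γ q.2) + (q.1 : ℝ) • y) ?_ ?_
        · have : Continuous (fun q : unitInterval × unitInterval => a.crd (γ q.2)) :=
            cc.comp continuous_snd
          fun_prop
        · intro q
          refine ball_subset_closedBall ((convex_ball (0 : Fin k → ℝ) 1) (mem' q.2).1 hy ?_ ?_ ?_)
          · linarith [q.1.2.2]
          · exact q.1.2.1
          · ring
      · intro t
        simp [(mem' t).2]
      · intro t
        simp
      · intro s
        simp only [γ.source, a.crd_Φ hy]
        congr 1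
        rw [← add_smul]; simp
      · intro s
        simp only [γ.target, a.crd_Φ hy]
        congr 1
        rw [← add_smul]; simp

/-- two-dimensional CW complexes are semilocally simply connected -/
theorem slsc_cw [T2Space X] [CWComplex (Set.univ : Set X)]
    (hdim : ∀ n : ℕ, 2 < n → IsEmpty (RelCWComplex.cell (Set.univ : Set X) n)) (x : X) :
    ∃ U ∈ 𝓝 x, ∀ γ : Path x x, (∀ t, γ t ∈ U) → γ.Homotopic (Path.refl x) := by
  have h0 : SL (CWComplex.skeletonLT (Set.univ : Set X) ((0 : ℕ) : ℕ∞) : Set X) := by
    intro x hx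
    exfalso
    have : (CWComplex.skeletonLT (Set.univ : Set X) ((0 : ℕ) : ℕ∞) : Set X) = ∅ := by
      exact_mod_cast CWComplex.skeletonLT_zero_eq_empty
    rw [this] at hx
    exact hx
  have h1 := (attSkel (X := X) 0).SL h0
  have h2 := (attSkel (X := X) 1).SL (by simpa using h1)
  have e : ((2 : ℕ) : ℕ∞) = ((1 : ℕ) : ℕ∞) + 1 := by norm_num
  have h3 := (attSkel (X := X) 2).SL (by rw [e]; exact h2)
  have e3 : (CWComplex.skeletonLT (Set.univ : Set X) (((2 : ℕ) : ℕ∞) + 1) : Set X) = univ := by
    have := skeletonLT_three hdim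
    exact_mod_cast this
  rw [e3] at h3
  obtain ⟨O, hO, hxO, h⟩ := h3 x (mem_univ x)
  exact ⟨O, hO.mem_nhds hxO, fun γ hγ => h γ (fun t => ⟨mem_univ _, hγ t⟩)⟩

end

end Pool.Agent.H59
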