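import Pool.Agent.H59.Connect
import Pool.Agent.H59.SLSC
import Pool.Agent.H59.SC
import Pool.Agent.H59.LPC
import Pool.Agent.H59.Dict
import Pool.Agent.H1.UnivCover

/-! Final assembly. -/

open Topology Set CategoryTheory CategoryTheory.Limits

namespace Pool.Agent.H59

/-- The algebraic core of a two-dimensional complex. -/
noncomputable def mkCore {E G : Type} [TopologicalSpace E] [Group G] [MulAction G E]
    [ContinuousConstSMul G E] [IsCancelSMul G E] [SimplyConnectedSpace E]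
    (h : Ch ℤ 3 E →ₗ[ℤ] Ch ℤ 4 E)
    (eh : ∀ (g : G) (x : Ch ℤ 3 E), h (ac ℤ (Smp 3 E) g x) = ac ℤ (Smp 4 E) g (h x))
    (dh : ∀ x : Ch ℤ 4 E, bd ℤ 3 E (h (bd ℤ 3 E x)) = bd ℤ 3 E x) :
    Core G (Smp 1 E) (Smp 2 E) (Smp 3 E) (Smp 4 E) where
  d2 := bd ℤ 1 E
  d3 := bd ℤ 2 E
  d4 := bd ℤ 3 E
  h := h
  e2 := fun g x => bd_pf 1 (gm g) x
  e3 := fun g x => bd_pf 2 (gm g) x
  e4 := fun g x => bd_pf 3 (gm g) x
  eh := eh
  d23 := fun x => bd_bd 1 x
  d34 := fun x => bd_bd 2 x
  d4h := dh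
  free2 := fun g σ hσ => by
    have h1 := DFunLike.congr_fun hσ (stdSimplex.vertex (0 : Fin 2))
    exact IsCancelSMul.eq_one_of_smul h1
  free3 := fun g σ hσ => by
    have h1 := DFunLike.congr_fun hσ (stdSimplex.vertex (0 : Fin 3))
    exact IsCancelSMul.eq_one_of_smul h1
  path := exists_path_chain
  H1 := H1_simplyConnected E
  ne := ⟨ContinuousMap.const _ (Classical.arbitrary E)⟩

theorem main (X : Type) [TopologicalSpace X] [T2Space X]
      [Topology.CWComplex (Set.univ : Set X)]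
      (hdim : ∀ n : ℕ, 2 < n → IsEmpty (Topology.RelCWComplex.cell (Set.univ : Set X) n))
      (hconn : ConnectedSpace X)
      (x₀ : X) (S : Set (Subgroup (FundamentalGroup X x₀)))
        (hS : ∀ P : Subgroup (FundamentalGroup X x₀), P ∈ S ↔
          (P.Normal ∧
            ∃ (E : Type) (_ : TopologicalSpace E) (p : C(E, X)) (e₀ : E)
              (γ : Path (p e₀) x₀),
              IsCoveringMap p ∧ PathConnectedSpace E ∧
              P = (FundamentalGroup.map p e₀).range.map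
                    (FundamentalGroup.fundamentalGroupMulEquivOfPath γ).toMonoidHom ∧
              IsZero (((AlgebraicTopology.singularHomologyFunctor (ModuleCat.{0} ℤ) 1).obj
                    (ModuleCat.of ℤ ℤ)).obj (TopCat.of E)) ∧
              IsZero (((AlgebraicTopology.singularHomologyFunctor (ModuleCat.{0} ℤ) 2).obj
                    (ModuleCat.of ℤ ℤ)).obj (TopCat.of E))))
        (hne : S.Nonempty) :
        ∃ P ∈ S, ∀ Q ∈ S, Q ≤ P → Q = P := by
  have lpc : LocallyPathConnectedSpace X := locallyPathConnected_of_cw X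
  have pc : PathConnectedSpace X := pathConnectedSpace_iff_connectedSpace.2 hconn
  obtain ⟨E, tE, G, gG, aG, p, hp, hE⟩ := Pool.Agent.H1.exists_universal_cover X (slsc_cw hdim)
  have c : ContinuousConstSMul G E := hp.toContinuousConstSMul
  have canc : IsCancelSMul G E := hp.isCancelSMul
  obtain ⟨h, h1, h2, h3⟩ := goodOn_cw G hdim hp.isCoveringMap (fun g e => hp.map_smul g)
  have top : ∀ m (x : Ch ℤ m E), x ∈ Sup m (univ : Set E) := by
    intro m x
    have : Sup m (univ : Set E) = ⊤ := by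
      simp [Sup, Finsupp.supported_univ]
    rw [this]
    trivial
  let C : Core G (Smp 1 E) (Smp 2 E) (Smp 3 E) (Smp 4 E) := mkCore (h 3)
    (fun g x => h2 g 3 x (top _ _)) (fun x => by
      have e1 := congrArg (bd ℤ 3 E) (h3 3 le_rfl x (top _ _))
      rwa [map_add, bd_bd, zero_add] at e1)
  obtain ⟨Θ, hΘ⟩ := exists_subgroup_dictionary p hp x₀
  have key : ∀ P, P ∈ S ↔ ((Θ P).Normal ∧ C.Hom1Z (Θ P) ∧ C.Hom2Z (Θ P)) := by
    intro P
    rw [hS, hΘ]
    have a1 := hom_iff hp (Θ P) 0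
    have a2 := hom_iff hp (Θ P) 1
    simp only [Nat.zero_add, Nat.reduceAdd] at a1 a2
    rw [← a1, ← a2]
    rfl
  obtain ⟨P₀, hP₀⟩ := hne
  obtain ⟨b1, b2, b3⟩ := (key P₀).1 hP₀
  obtain ⟨R, hR1, hR2, hR3, hmin⟩ := C.exists_minimal b1 b2 b3
  refine ⟨Θ.symm R, ?_, ?_⟩
  · rw [key, OrderIso.apply_symm_apply]
    exact ⟨hR1, hR2, hR3⟩
  · intro Q hQ hQR
    obtain ⟨c1, c2, c3⟩ := (key Q).1 hQ
    have := hmin (Θ Q) c1 c2 c3 (by rw [← OrderIso.le_symm_apply]; exact hQR)
    rw [← this, OrderIso.symm_apply_apply]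

end Pool.Agent.H59
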