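import Pool.Agent.H59.Lift

/-! Attaching cells: geometry. -/

open Topology Set Metric

namespace Pool.Agent.H59

/-- `Z` is obtained from the closed set `A` by attaching `k`-cells (all inside a space `X`). -/
structure Att {X : Type} [TopologicalSpace X] (A Z : Set X) (k : ℕ) where
  ι : Type
  Φ : ι → (Fin k → ℝ) → X
  cont : ∀ i, ContinuousOn (Φ i) (closedBall 0 1)
  bdry : ∀ i, ∀ x ∈ sphere (0 : Fin k → ℝ) 1, Φ i x ∈ A
  inj : ∀ i j, ∀ x ∈ ball (0 : Fin k → ℝ) 1, ∀ y ∈ ball (0 : Fin k → ℝ) 1,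
    Φ i x = Φ j y → i = j ∧ x = y
  disj : ∀ i, ∀ x ∈ ball (0 : Fin k → ℝ) 1, Φ i x ∉ A
  cover : Z = A ∪ ⋃ i, Φ i '' ball 0 1
  closedA : IsClosed A
  top : ∀ S ⊆ Z, IsClosed (S ∩ A) → (∀ i, IsClosed (S ∩ Φ i '' closedBall 0 1)) → IsClosed S

namespace Att

variable {X : Type} [TopologicalSpace X] {A Z : Set X} {k : ℕ} (a : Att A Z k)

/-- union of subsets of the cells -/
def csf (D : a.ι → Set (Fin k → ℝ)) : Set X := ⋃ i, a.Φ i '' (D i ∩ ball 0 1)

theorem mem_csf {D : a.ι → Set (Fin k → ℝ)} {z : X} :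
    z ∈ a.csf D ↔ ∃ i, ∃ x ∈ ball (0 : Fin k → ℝ) 1, x ∈ D i ∧ a.Φ i x = z := by
  simp only [csf, mem_iUnion, mem_image, mem_inter_iff]
  constructor
  · rintro ⟨i, x, ⟨h1, h2⟩, h3⟩
    exact ⟨i, x, h2, h1, h3⟩
  · rintro ⟨i, x, h2, h1, h3⟩
    exact ⟨i, x, ⟨h1, h2⟩, h3⟩

theorem Φ_mem_csf {D : a.ι → Set (Fin k → ℝ)} {i : a.ι} {x : Fin k → ℝ} (hx : x ∈ ball 0 1) :
    a.Φ i x ∈ a.csf D ↔ x ∈ D i := by
  rw [mem_csf]
  constructor
  · rintro ⟨j, y, hy, hyD, h⟩
    obtain ⟨rfl, rfl⟩ := a.inj _ _ _ hy _ hx h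
    exact hyD
  · intro h
    exact ⟨i, x, hx, h, rfl⟩

theorem csf_subset (D : a.ι → Set (Fin k → ℝ)) : a.csf D ⊆ Z := by
  intro z hz
  rw [mem_csf] at hz
  obtain ⟨i, x, hx, -, rfl⟩ := hz
  exact (Set.ext_iff.1 a.cover _).2 (Or.inr (mem_iUnion.2 ⟨i, mem_image_of_mem _ hx⟩))

include a in
theorem A_subset : A ⊆ Z := fun z hz => (Set.ext_iff.1 a.cover z).2 (Or.inl hz)

theorem csf_not_mem_A {D : a.ι → Set (Fin k → ℝ)} {z : X} (hz : z ∈ a.csf D) : z ∉ A := by
  rw [mem_csf] at hz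
  obtain ⟨i, x, hx, -, rfl⟩ := hz
  exact a.disj i x hx

theorem mem_Z {z : X} (hz : z ∈ Z) : z ∈ A ∨ ∃ i, ∃ x ∈ ball (0 : Fin k → ℝ) 1, a.Φ i x = z := by
  rcases (Set.ext_iff.1 a.cover z).1 hz with h | h
  · exact Or.inl h
  · right
    simpa using h

theorem Φ_mem_Z {i : a.ι} {x : Fin k → ℝ} (hx : x ∈ closedBall 0 1) : a.Φ i x ∈ Z := by
  rw [← sphere_union_ball] at hx
  rcases hx with h | h
  · exact a.A_subset (a.bdry i x h)
  · exact (Set.ext_iff.1 a.cover _).2 (Or.inr (mem_iUnion.2 ⟨i, mem_image_of_mem _ h⟩))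

/-- closedness of complements -/
theorem closed_diff [T2Space X] (D : a.ι → Set (Fin k → ℝ)) (hD : ∀ i, IsOpen (D i)) :
    IsClosed (Z \ a.csf D) := by
  refine a.top _ sdiff_subset ?_ (fun i => ?_)
  · have : (Z \ a.csf D) ∩ A = A := by
      ext z
      constructor
      · exact fun h => h.2
      · intro h
        exact ⟨⟨a.A_subset h, fun h' => a.csf_not_mem_A h' h⟩, h⟩
    rw [this]
    exact a.closedA
  · have : (Z \ a.csf D) ∩ a.Φ i '' closedBall 0 1 =
        a.Φ i '' (closedBall 0 1 \ (D i ∩ ball 0 1)) := by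
      ext z
      constructor
      · rintro ⟨⟨_, h2⟩, x, hx, rfl⟩
        exact ⟨x, ⟨hx, fun h => h2 ((a.Φ_mem_csf h.2).2 h.1)⟩, rfl⟩
      · rintro ⟨x, ⟨hx, hx'⟩, rfl⟩
        refine ⟨⟨a.Φ_mem_Z hx, fun h => ?_⟩, x, hx, rfl⟩
        by_cases hb : x ∈ ball (0 : Fin k → ℝ) 1
        · exact hx' ⟨(a.Φ_mem_csf hb).1 h, hb⟩
        · refine a.csf_not_mem_A h (a.bdry i x ?_)
          rw [← sphere_union_ball] at hx
          exact hx.resolve_right hb
    rw [this]
    refine IsCompact.isClosed (IsCompact.image_of_continuousOn ?_ ((a.cont i).mono sdiff_subset))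
    exact (isCompact_closedBall _ _).diff ((hD i).inter isOpen_ball)

theorem exists_open [T2Space X] (D : a.ι → Set (Fin k → ℝ)) (hD : ∀ i, IsOpen (D i)) :
    ∃ O, IsOpen O ∧ Z ∩ O = a.csf D := by
  refine ⟨(Z \ a.csf D)ᶜ, (a.closed_diff D hD).isOpen_compl, ?_⟩
  ext z
  constructor
  · rintro ⟨h1, h2⟩
    by_contra h
    exact h2 ⟨h1, h⟩
  · intro h
    exact ⟨a.csf_subset D h, fun h' => h'.2 h⟩

/-- union over all cells of the same subset -/
def cs (D : Set (Fin k → ℝ)) : Set X := a.csf (fun _ => D)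

theorem cs_inter (D D' : Set (Fin k → ℝ)) : a.cs D ∩ a.cs D' = a.cs (D ∩ D') := by
  ext z
  simp only [cs]
  constructor
  · rintro ⟨h1, h2⟩
    rw [mem_csf] at h1
    obtain ⟨i, x, hx, hxD, rfl⟩ := h1
    rw [a.Φ_mem_csf hx] at h2 ⊢
    exact ⟨hxD, h2⟩
  · intro h
    rw [mem_csf] at h
    obtain ⟨i, x, hx, hxD, rfl⟩ := h
    exact ⟨(a.Φ_mem_csf hx).2 hxD.1, (a.Φ_mem_csf hx).2 hxD.2⟩

theorem cs_union (D D' : Set (Fin k → ℝ)) : a.cs D ∪ a.cs D' = a.cs (D ∪ D') := by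
  ext z
  simp only [cs]
  constructor
  · rintro (h | h) <;>
    · rw [mem_csf] at h
      obtain ⟨i, x, hx, hxD, rfl⟩ := h
      rw [a.Φ_mem_csf hx]
      first | exact Or.inl hxD | exact Or.inr hxD
  · intro h
    rw [mem_csf] at h
    obtain ⟨i, x, hx, hxD, rfl⟩ := h
    rcases hxD with hxD | hxD
    · exact Or.inl ((a.Φ_mem_csf hx).2 hxD)
    · exact Or.inr ((a.Φ_mem_csf hx).2 hxD)

theorem cs_mono {D D' : Set (Fin k → ℝ)} (h : D ⊆ D') : a.cs D ⊆ a.cs D' := by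
  intro z hz
  simp only [cs] at *
  rw [mem_csf] at hz
  obtain ⟨i, x, hx, hxD, rfl⟩ := hz
  exact (a.Φ_mem_csf hx).2 (h hxD)

theorem closed_cs [T2Space X] (D : Set (Fin k → ℝ)) (hD : IsClosed D) (hDb : D ⊆ ball 0 1) :
    IsClosed (a.cs D) := by
  refine a.top _ (a.csf_subset _) ?_ (fun i => ?_)
  · have : a.cs D ∩ A = ∅ := by
      ext z
      simp only [mem_inter_iff, mem_empty_iff_false, iff_false, not_and]
      exact fun h => a.csf_not_mem_A h
    rw [this]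
    exact isClosed_empty
  · have : a.cs D ∩ a.Φ i '' closedBall 0 1 = a.Φ i '' D := by
      ext z
      constructor
      · rintro ⟨h1, x, hx, rfl⟩
        refine ⟨x, ?_, rfl⟩
        by_cases hb : x ∈ ball (0 : Fin k → ℝ) 1
        · exact (a.Φ_mem_csf hb).1 h1
        · exfalso
          refine a.csf_not_mem_A h1 (a.bdry i x ?_)
          rw [← sphere_union_ball] at hx
          exact hx.resolve_right hb
      · rintro ⟨x, hx, rfl⟩
        exact ⟨(a.Φ_mem_csf (hDb hx)).2 hx, x, ball_subset_closedBall (hDb hx), rfl⟩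
    rw [this]
    refine IsCompact.isClosed (IsCompact.image_of_continuousOn ?_
      ((a.cont i).mono (hDb.trans ball_subset_closedBall)))
    exact (isCompact_closedBall (0 : Fin k → ℝ) 1).of_isClosed_subset hD
      (hDb.trans ball_subset_closedBall)

/-- continuity can be checked on `A` and on the cells -/
theorem continuousOn_of [T2Space X] {Y : Type*} [TopologicalSpace Y] {f : X → Y}
    (hA : ContinuousOn f A) (hΦ : ∀ i, ContinuousOn (fun x => f (a.Φ i x)) (closedBall 0 1)) :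
    ContinuousOn f Z := by
  rw [continuousOn_iff_isClosed]
  intro T hT
  refine ⟨f ⁻¹' T ∩ Z, ?_, by rw [inter_assoc, inter_self]⟩
  refine a.top _ inter_subset_right ?_ (fun i => ?_)
  · have : f ⁻¹' T ∩ Z ∩ A = A ∩ f ⁻¹' T := by
      rw [inter_assoc, inter_eq_right.2 a.A_subset, inter_comm]
    rw [this]
    exact hA.preimage_isClosed_of_isClosed a.closedA hT
  · have : f ⁻¹' T ∩ Z ∩ a.Φ i '' closedBall 0 1 =
        a.Φ i '' (closedBall 0 1 ∩ (fun x => f (a.Φ i x)) ⁻¹' T) := by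
      ext z
      constructor
      · rintro ⟨⟨h1, _⟩, x, hx, rfl⟩
        exact ⟨x, ⟨hx, h1⟩, rfl⟩
      · rintro ⟨x, ⟨hx, hx'⟩, rfl⟩
        exact ⟨⟨hx', a.Φ_mem_Z hx⟩, x, hx, rfl⟩
    rw [this]
    refine IsCompact.isClosed (IsCompact.image_of_continuousOn ?_ ((a.cont i).mono inter_subset_left))
    exact (isCompact_closedBall (0 : Fin k → ℝ) 1).of_isClosed_subset
      ((hΦ i).preimage_isClosed_of_isClosed isClosed_closedBall hT) inter_subset_left

open Classical in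
/-- extension of a deformation of the ball to the cells -/
noncomputable def ext (θ : (Fin k → ℝ) → unitInterval → (Fin k → ℝ)) (z : X) (t : unitInterval) : X :=
  if h : ∃ q : a.ι × (Fin k → ℝ), q.2 ∈ ball (0 : Fin k → ℝ) 1 ∧ a.Φ q.1 q.2 = z then
    a.Φ h.choose.1 (θ h.choose.2 t) else z

theorem ext_Φ (θ : (Fin k → ℝ) → unitInterval → (Fin k → ℝ)) {i : a.ι} {x : Fin k → ℝ}
    (hx : x ∈ ball 0 1) (t : unitInterval) : a.ext θ (a.Φ i x) t = a.Φ i (θ x t) := by
  have h : ∃ q : a.ι × (Fin k → ℝ), q.2 ∈ ball (0 : Fin k → ℝ) 1 ∧ a.Φ q.1 q.2 = a.Φ i x :=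
    ⟨(i, x), hx, rfl⟩
  rw [ext, dif_pos h]
  obtain ⟨h1, h2⟩ := a.inj _ _ _ h.choose_spec.1 _ hx h.choose_spec.2
  rw [h1, h2]

theorem ext_A (θ : (Fin k → ℝ) → unitInterval → (Fin k → ℝ)) {z : X} (hz : z ∈ A)
    (t : unitInterval) : a.ext θ z t = z := by
  rw [ext, dif_neg]
  rintro ⟨q, hq, rfl⟩
  exact a.disj _ _ hq hz

theorem continuousOn_ext [T2Space X] (θ : (Fin k → ℝ) → unitInterval → (Fin k → ℝ))
    (hθ : ContinuousOn (fun q : (Fin k → ℝ) × unitInterval => θ q.1 q.2)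
      (closedBall 0 1 ×ˢ univ))
    (hmem : ∀ x ∈ closedBall (0 : Fin k → ℝ) 1, ∀ t, θ x t ∈ closedBall (0 : Fin k → ℝ) 1)
    (hsph : ∀ x ∈ sphere (0 : Fin k → ℝ) 1, ∀ t, θ x t = x) :
    ContinuousOn (fun q : X × unitInterval => a.ext θ q.1 q.2) (Z ×ˢ univ) := by
  have joint : ∀ i, ContinuousOn (fun q : (Fin k → ℝ) × unitInterval => a.Φ i (θ q.1 q.2))
      (closedBall 0 1 ×ˢ univ) := fun i =>
    (a.cont i).comp hθ (fun q hq => hmem _ hq.1 _)
  have ct : ∀ z, Continuous (fun t => a.ext θ z t) := by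
    intro z
    by_cases h : ∃ q : a.ι × (Fin k → ℝ), q.2 ∈ ball (0 : Fin k → ℝ) 1 ∧ a.Φ q.1 q.2 = z
    · obtain ⟨q, hq, rfl⟩ := h
      simp only [a.ext_Φ θ hq]
      exact (joint q.1).comp_continuous (f := fun t : unitInterval => (q.2, t)) (by fun_prop)
        (fun t => ⟨ball_subset_closedBall hq, mem_univ _⟩)
    · have : (fun t => a.ext θ z t) = fun _ => z := by
        funext t
        rw [ext, dif_neg h]
      rw [this]
      exact continuous_const
  let F : X → C(unitInterval, X) := fun z => ⟨fun t => a.ext θ z t, ct z⟩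
  have hF : ContinuousOn F Z := by
    refine a.continuousOn_of ?_ (fun i => ?_)
    · have : EqOn F (fun z => ContinuousMap.const _ z) A := by
        intro z hz
        ext t
        exact a.ext_A θ hz t
      refine ContinuousOn.congr ?_ this
      exact (ContinuousMap.continuous_const').continuousOn
    · rw [continuousOn_iff_continuous_domRestrict]
      let g : C((closedBall (0 : Fin k → ℝ) 1) × unitInterval, X) :=
        ⟨fun q => a.Φ i (θ q.1 q.2), (joint i).comp_continuous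
          (f := fun q : (closedBall (0 : Fin k → ℝ) 1) × unitInterval => (q.1.1, q.2))
          (by fun_prop) (fun q => ⟨q.1.2, mem_univ _⟩)⟩
      have : (closedBall (0 : Fin k → ℝ) 1).domRestrict (fun x => F (a.Φ i x)) = g.curry := by
        funext x
        ext t
        obtain ⟨x, hx⟩ := x
        simp only [Set.domRestrict_apply, F, ContinuousMap.coe_mk, ContinuousMap.curry_apply, g]
        have hx' : x ∈ sphere (0 : Fin k → ℝ) 1 ∪ ball 0 1 := by
          rw [sphere_union_ball]; exact hx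
        rcases hx' with h | h
        · rw [a.ext_A θ (a.bdry i _ h), hsph _ h]
        · rw [a.ext_Φ θ h]
      rw [this]
      exact g.curry.continuous
  have hev : Continuous (fun q : C(unitInterval, X) × unitInterval => q.1 q.2) := continuous_eval
  have := hev.comp_continuousOn
    (f := fun q : X × unitInterval => (F q.1, q.2)) (s := Z ×ˢ univ)
    ((hF.comp continuousOn_fst (fun q hq => hq.1)).prodMk continuousOn_snd)
  exact this

open Classical in
/-- coordinates in the cells -/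
noncomputable def crd (z : X) : Fin k → ℝ :=
  if h : ∃ q : a.ι × (Fin k → ℝ), q.2 ∈ ball (0 : Fin k → ℝ) 1 ∧ a.Φ q.1 q.2 = z then
    h.choose.2 else 0

theorem crd_Φ {i : a.ι} {x : Fin k → ℝ} (hx : x ∈ ball 0 1) : a.crd (a.Φ i x) = x := by
  have h : ∃ q : a.ι × (Fin k → ℝ), q.2 ∈ ball (0 : Fin k → ℝ) 1 ∧ a.Φ q.1 q.2 = a.Φ i x :=
    ⟨(i, x), hx, rfl⟩
  rw [crd, dif_pos h]
  exact (a.inj _ _ _ h.choose_spec.1 _ hx h.choose_spec.2).2

theorem continuousOn_crd [T2Space X] : ContinuousOn a.crd (a.cs univ) := by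
  rw [_root_.continuousOn_iff']
  intro T hT
  obtain ⟨O, hO, hOT⟩ := a.exists_open (fun _ => T) (fun _ => hT)
  refine ⟨O, hO, ?_⟩
  have h1 : O ∩ a.cs univ = a.cs T := by
    have : a.cs univ = Z ∩ a.cs univ := (inter_eq_right.2 (a.csf_subset _)).symm
    rw [this, ← inter_assoc, inter_comm O Z, hOT]
    change a.cs T ∩ a.cs univ = _
    rw [a.cs_inter, inter_univ]
  rw [h1]
  ext z
  constructor
  · rintro ⟨h2, h3⟩
    simp only [cs] at *
    rw [mem_csf] at h3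
    obtain ⟨i, x, hx, -, rfl⟩ := h3
    rw [mem_preimage, a.crd_Φ hx] at h2
    exact (a.Φ_mem_csf hx).2 h2
  · intro h
    refine ⟨?_, a.cs_mono (subset_univ _) h⟩
    simp only [cs] at h
    rw [mem_csf] at h
    obtain ⟨i, x, hx, hxT, rfl⟩ := h
    rw [mem_preimage, a.crd_Φ hx]
    exact hxT

theorem continuousOn_ext_cell [T2Space X] (θ : (Fin k → ℝ) → unitInterval → (Fin k → ℝ))
    {D : Set (Fin k → ℝ)}
    (hθ : ContinuousOn (fun q : (Fin k → ℝ) × unitInterval => θ q.1 q.2) (D ×ˢ univ))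
    (hmem : ∀ x ∈ D, ∀ t, θ x t ∈ ball (0 : Fin k → ℝ) 1) :
    ContinuousOn (fun q : X × unitInterval => a.ext θ q.1 q.2) (a.cs D ×ˢ univ) := by
  rintro ⟨z, t⟩ ⟨hz, -⟩
  simp only at hz
  have hz' := hz
  simp only [cs] at hz
  rw [mem_csf] at hz
  obtain ⟨i, x, hx, hxD, rfl⟩ := hz
  classical
  obtain ⟨O, hO, hOi⟩ := a.exists_open (fun j => if j = i then univ else ∅)
    (fun j => by split_ifs; exacts [isOpen_univ, isOpen_empty])
  have memO : ∀ z ∈ O ∩ a.cs D, ∃ y ∈ ball (0 : Fin k → ℝ) 1, y ∈ D ∧ a.Φ i y = z := by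
    rintro z ⟨h1, h2⟩
    have h3 := h2
    simp only [cs] at h2
    rw [mem_csf] at h2
    obtain ⟨j, y, hy, hyD, rfl⟩ := h2
    have : a.Φ j y ∈ Z ∩ O := ⟨a.csf_subset _ h3, h1⟩
    rw [hOi, a.Φ_mem_csf hy] at this
    by_cases hj : j = i
    · subst hj
      exact ⟨y, hy, hyD, rfl⟩
    · simp [hj] at this
  have c1 : ContinuousOn (fun q : X × unitInterval => a.Φ i (θ (a.crd q.1) q.2))
      ((O ∩ a.cs D) ×ˢ univ) := by
    have e1 : ContinuousOn (fun q : X × unitInterval => (a.crd q.1, q.2))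
        ((O ∩ a.cs D) ×ˢ univ) := by
      refine ContinuousOn.prodMk ?_ continuousOn_snd
      exact (a.continuousOn_crd.mono (inter_subset_right.trans (a.cs_mono (subset_univ _)))).comp
        continuousOn_fst (fun q hq => hq.1)
    have m1 : MapsTo (fun q : X × unitInterval => (a.crd q.1, q.2)) ((O ∩ a.cs D) ×ˢ univ)
        (D ×ˢ univ) := by
      rintro ⟨z, s⟩ ⟨hz, -⟩
      obtain ⟨y, hy, hyD, rfl⟩ := memO z hz
      refine ⟨?_, mem_univ _⟩
      simp only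
      rw [a.crd_Φ hy]
      exact hyD
    have e2 := hθ.comp e1 m1
    refine (a.cont i).comp e2 ?_
    intro q hq
    exact ball_subset_closedBall (hmem _ (m1 hq).1 _)
  have c2 : ContinuousOn (fun q : X × unitInterval => a.ext θ q.1 q.2)
      ((O ∩ a.cs D) ×ˢ univ) := by
    refine c1.congr ?_
    rintro ⟨z, s⟩ ⟨hz, -⟩
    obtain ⟨y, hy, hyD, rfl⟩ := memO z hz
    simp only
    rw [a.ext_Φ θ hy, a.crd_Φ hy]
  have hmemO : a.Φ i x ∈ O := by
    have : a.Φ i x ∈ Z ∩ O := by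
      rw [hOi, a.Φ_mem_csf hx]
      simp
    exact this.2
  refine (c2 (a.Φ i x, t) ⟨⟨hmemO, hz'⟩, mem_univ _⟩).mono_of_mem_nhdsWithin ?_
  have : (O ∩ a.cs D) ×ˢ (univ : Set unitInterval) = (O ×ˢ univ) ∩ (a.cs D ×ˢ univ) := by
    ext q; simp
  rw [this]
  exact Filter.inter_mem (mem_nhdsWithin_of_mem_nhds ((hO.prod isOpen_univ).mem_nhds ⟨hmemO, mem_univ _⟩))
    self_mem_nhdsWithin

end Att

end Pool.Agent.H59
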