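import Pool.Agent.H59.Small

/-! Equivariant contractions in high degrees: definition, homotopy retracts, discrete sets. -/

open Topology Set

namespace Pool.Agent.H59

open CvxSp

section

variable {E : Type*} [TopologicalSpace E] (G : Type*) [Group G] [MulAction G E]
  [ContinuousConstSMul G E]

/-- action of a group element as a continuous map -/
def gm {G : Type*} [Group G] {E : Type*} [TopologicalSpace E] [MulAction G E]
    [ContinuousConstSMul G E] (g : G) : C(E, E) := ⟨fun e => g • e, continuous_const_smul g⟩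

/-- `W` is `n`-good: there is an equivariant contraction of the chains of `W` in degrees above
`n` (degrees counted by number of vertices). -/
def GoodOn (W : Set E) (n : ℕ) : Prop :=
  ∃ h : ∀ m, Ch ℤ m E →ₗ[ℤ] Ch ℤ (m + 1) E,
    (∀ m, ∀ x ∈ Sup m W, h m x ∈ Sup (m + 1) W) ∧
    (∀ (g : G) (m : ℕ), ∀ x ∈ Sup m W, h m (pf ℤ m (gm g) x) = pf ℤ (m + 1) (gm g) (h m x)) ∧
    (∀ m, n ≤ m → ∀ x ∈ Sup (m + 1) W, bd ℤ (m + 1) E (h (m + 1) x) + h m (bd ℤ m E x) = x)

theorem GoodOn.mono {W : Set E} {n n' : ℕ} (hn : n ≤ n') (h : GoodOn G W n) : GoodOn G W n' := by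
  obtain ⟨h, h1, h2, h3⟩ := h
  exact ⟨h, h1, h2, fun m hm => h3 m (hn.trans hm)⟩

theorem mem_Sup_gm {W : Set E} (hW : ∀ (g : G), ∀ e ∈ W, g • e ∈ W) (g : G) {m : ℕ} {x : Ch ℤ m E}
    (hx : x ∈ Sup m W) : pf ℤ m (gm g) x ∈ Sup m W :=
  pf_mem_Sup (fun y hy => hW g y hy) hx

/-- normalised form of goodness -/
theorem GoodOn.normalize {W : Set E} {n : ℕ} (hW : ∀ (g : G), ∀ e ∈ W, g • e ∈ W)
    (h : GoodOn G W n) :
    ∃ h : ∀ m, Ch ℤ m E →ₗ[ℤ] Ch ℤ (m + 1) E,
      (∀ m, ∀ x ∈ Sup m W, h m x ∈ Sup (m + 1) W) ∧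
      (∀ (g : G) (m : ℕ), ∀ x ∈ Sup m W, h m (pf ℤ m (gm g) x) = pf ℤ (m + 1) (gm g) (h m x)) ∧
      (∀ m, n ≤ m → ∀ x ∈ Sup (m + 1) W,
        bd ℤ (m + 1) E (h (m + 1) x) + h m (bd ℤ m E x) = x) ∧
      (∀ m, n ≤ m + 1 → ∀ x ∈ Sup (m + 1) W,
        h (m + 1) (bd ℤ (m + 1) E (h (m + 1) x)) + h (m + 1) (h m (bd ℤ m E x)) = h (m + 1) x) := by
  obtain ⟨h, h1, h2, h3⟩ := h
  classical
  have key : ∀ x ∈ Sup (n + 1) W, bd ℤ n E (h n (bd ℤ n E x)) = bd ℤ n E x := by
    intro x hx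
    have := congrArg (bd ℤ n E) (h3 n le_rfl x hx)
    rwa [map_add, bd_bd, zero_add] at this
  let h' : ∀ m, Ch ℤ m E →ₗ[ℤ] Ch ℤ (m + 1) E := fun m =>
    if m < n then 0 else if m = n then (h m).comp ((bd ℤ m E).comp (h m)) else h m
  have h'lt : ∀ m, m < n → h' m = 0 := fun m hm => by simp only [h', if_pos hm]
  have h'eq : h' n = (h n).comp ((bd ℤ n E).comp (h n)) := by
    simp only [h', lt_irrefl, if_false, if_true]
  have h'gt : ∀ m, n < m → h' m = h m := fun m hm => by
    simp only [h', if_neg (not_lt.2 hm.le), if_neg hm.ne']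
  have id' : ∀ m, n ≤ m → ∀ x ∈ Sup (m + 1) W,
        bd ℤ (m + 1) E (h' (m + 1) x) + h' m (bd ℤ m E x) = x := by
    intro m hm x hx
    rw [h'gt (m + 1) (by lia)]
    rcases hm.eq_or_lt with rfl | hlt
    · rw [h'eq]
      simp only [LinearMap.comp_apply]
      rw [key x hx]
      exact h3 _ le_rfl x hx
    · rw [h'gt m hlt]
      exact h3 m hm x hx
  refine ⟨h', fun m x hx => ?_, fun g m x hx => ?_, id', fun m hm x hx => ?_⟩
  · rcases lt_trichotomy m n with hlt | rfl | hgt
    · rw [h'lt m hlt]; exact Submodule.zero_mem _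
    · rw [h'eq]
      exact h1 _ _ (bd_mem_Sup (h1 _ _ hx))
    · rw [h'gt m hgt]; exact h1 _ _ hx
  · rcases lt_trichotomy m n with hlt | rfl | hgt
    · rw [h'lt m hlt]; simp
    · rw [h'eq]
      simp only [LinearMap.comp_apply]
      rw [h2 g _ _ hx, bd_pf, h2 g _ _ (bd_mem_Sup (h1 _ _ hx))]
    · rw [h'gt m hgt]; exact h2 g _ _ hx
  · rcases hm.eq_or_lt with heq | hlt
    · subst heq
      rw [h'lt m (Nat.lt_succ_self m), h'eq]
      simp only [LinearMap.comp_apply, LinearMap.zero_apply, map_zero, add_zero]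
      rw [key _ (h1 _ _ hx), key _ (h1 _ _ hx)]
    · rw [← map_add, id' m (by lia) x hx]

end

/-! ### Discrete sets -/

section discrete

variable {E : Type*} [TopologicalSpace E] (G : Type*) [Group G] [MulAction G E]
  [ContinuousConstSMul G E]

/-- the constant simplex -/
def cst (m : ℕ) (e : E) : Smp m E := ContinuousMap.const _ e

theorem fc_cst (m : ℕ) (e : E) (i : Fin (m + 1)) : fc (cst (m + 1) e) i = cst m e := rfl

theorem bd_cst (m : ℕ) (e : E) :
    bd ℤ m E (Finsupp.single (cst (m + 1) e) 1) =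
      (if Even m then (1 : ℤ) else 0) • Finsupp.single (cst m e) 1 := by
  rw [bd_single, one_smul]
  simp only [fc_cst]
  rw [← Finset.sum_smul]
  congr 1
  rw [Fin.sum_univ_eq_sum_range (fun i => (-1 : ℤ) ^ i) (m + 1), neg_one_geom_sum]
  by_cases hm : Even m
  · rw [if_pos hm, if_neg]
    exact Nat.not_even_iff_odd.2 hm.add_one
  · rw [if_neg hm, if_pos]
    exact (Nat.not_even_iff_odd.1 hm).add_one

/-- a set with only constant simplices is `1`-good -/
theorem goodOn_discrete {J : Set E} (hJ : ∀ (m : ℕ) (σ : Smp (m + 1) E), (∀ x, σ x ∈ J) →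
    ∃ e ∈ J, σ = cst (m + 1) e) : GoodOn G J 1 := by
  classical
  -- the contraction
  let h : ∀ m, Ch ℤ m E →ₗ[ℤ] Ch ℤ (m + 1) E := fun m =>
    match m with
    | 0 => 0
    | m + 1 => if Even (m + 1) then Finsupp.lmapDomain ℤ ℤ (fun σ : Smp (m + 1) E =>
        cst (m + 2) (σ (stdSimplex.vertex 0))) else 0
  have hcst : ∀ m (e : E), h (m + 1) (Finsupp.single (cst (m + 1) e) 1) =
      (if Even (m + 1) then (1 : ℤ) else 0) • Finsupp.single (cst (m + 2) e) 1 := by
    intro m e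
    by_cases hm : Even (m + 1)
    · simp only [h, if_pos hm, one_smul]
      rw [Finsupp.lmapDomain_apply, Finsupp.mapDomain_single]
      rfl
    · simp only [h, if_neg hm, zero_smul, LinearMap.zero_apply]
  refine ⟨h, fun m x hx => ?_, fun g m x hx => ?_, fun m hm x hx => ?_⟩
  · rcases m with _ | m
    · exact Submodule.zero_mem _
    · refine lin_mem _ _ _ (fun σ hσ => ?_) hx
      obtain ⟨e, he, rfl⟩ := hJ m σ hσ
      rw [hcst]
      exact Submodule.smul_mem _ _ (single_mem_Sup (fun _ => he) _)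
  · rcases m with _ | m
    · simp [h]
    · have : x ∈ (LinearMap.ker ((h (m + 1)).comp (pf ℤ (m + 1) (gm g)) -
        (pf ℤ (m + 2) (gm g)).comp (h (m + 1))) : Submodule ℤ _) := by
        refine lin_mem LinearMap.id _ _ (fun σ hσ => ?_) hx
        obtain ⟨e, he, rfl⟩ := hJ m σ hσ
        rw [LinearMap.id_apply, LinearMap.mem_ker, LinearMap.sub_apply, LinearMap.comp_apply,
          LinearMap.comp_apply, pf_single, hcst, map_smul, pf_single]
        have : (gm g : C(E, E)).comp (cst (m + 1) e) = cst (m + 1) (g • e) := rfl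
        rw [this, hcst]
        exact sub_self _
      rw [LinearMap.mem_ker, LinearMap.sub_apply, sub_eq_zero] at this
      exact this
  · obtain ⟨m, rfl⟩ : ∃ k, m = k + 1 := ⟨m - 1, by lia⟩
    have : x ∈ (LinearMap.ker ((bd ℤ (m + 2) E).comp (h (m + 2)) +
        (h (m + 1)).comp (bd ℤ (m + 1) E) - LinearMap.id) : Submodule ℤ _) := by
      refine lin_mem LinearMap.id _ _ (fun σ hσ => ?_) hx
      obtain ⟨e, he, rfl⟩ := hJ (m + 1) σ hσ
      rw [LinearMap.id_apply, LinearMap.mem_ker, LinearMap.sub_apply, LinearMap.add_apply,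
        LinearMap.comp_apply, LinearMap.comp_apply, hcst, map_smul, bd_cst, bd_cst, map_smul, hcst,
        smul_smul, smul_smul, LinearMap.id_apply, ← add_smul]
      by_cases hm : Even (m + 1)
      · have h2 : ¬ Even (m + 2) := Nat.not_even_iff_odd.2 hm.add_one
        simp [hm, h2]
      · have h2 : Even (m + 2) := (Nat.not_even_iff_odd.1 hm).add_one
        simp [hm, h2]
    rw [LinearMap.mem_ker, LinearMap.sub_apply, sub_eq_zero] at this
    exact this

end discrete

/-- to check an equality of linear maps on supported chains it suffices to check on simplices -/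
theorem lin_eq {α M : Type*} [AddCommGroup M] (F F' : (α →₀ ℤ) →ₗ[ℤ] M) (s : Set α)
    (h : ∀ a ∈ s, F (Finsupp.single a 1) = F' (Finsupp.single a 1)) {x : α →₀ ℤ}
    (hx : x ∈ Finsupp.supported ℤ ℤ s) : F x = F' x := by
  have : x ∈ (LinearMap.ker (F - F') : Submodule ℤ _) := by
    refine lin_mem LinearMap.id _ _ (fun σ hσ => ?_) hx
    rw [LinearMap.id_apply, LinearMap.mem_ker, LinearMap.sub_apply, h σ hσ, sub_self]
  rw [LinearMap.mem_ker, LinearMap.sub_apply, sub_eq_zero] at this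
  exact this

/-! ### Homotopy retracts -/

section HR

variable {E : Type*} [TopologicalSpace E] (G : Type*) [Group G] [MulAction G E]
  [ContinuousConstSMul G E]

open Classical in
/-- the track of a simplex under a homotopy defined on `W` -/
noncomputable def trk {W : Set E} (H : E → unitInterval → E)
    (hH : ContinuousOn (fun q : E × unitInterval => H q.1 q.2) (W ×ˢ univ)) {m : ℕ} (σ : Smp m E) :
    C(Dl m × unitInterval, E) :=
  if h : ∀ x, σ x ∈ W then ⟨fun q => H (σ q.1) q.2,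
    hH.comp_continuous (f := fun q : Dl m × unitInterval => (σ q.1, q.2)) (by fun_prop)
      (fun q => ⟨h _, mem_univ _⟩)⟩
  else ⟨fun q => σ q.1, by fun_prop⟩

theorem trk_apply {W : Set E} (H : E → unitInterval → E)
    (hH : ContinuousOn (fun q : E × unitInterval => H q.1 q.2) (W ×ˢ univ)) {m : ℕ} (σ : Smp m E)
    (h : ∀ x, σ x ∈ W) (q : Dl m × unitInterval) : trk H hH σ q = H (σ q.1) q.2 := by
  rw [trk, dif_pos h]
  rfl

theorem goodOn_of_homotopy {W B : Set E} {n : ℕ} (hWi : ∀ (g : G), ∀ e ∈ W, g • e ∈ W)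
    (hBW : B ⊆ W)
    (H : E → unitInterval → E)
    (hH : ContinuousOn (fun q : E × unitInterval => H q.1 q.2) (W ×ˢ univ))
    (h0 : ∀ e ∈ W, H e 0 = e) (hW : ∀ e ∈ W, ∀ t, H e t ∈ W) (h1 : ∀ e ∈ W, H e 1 ∈ B)
    (hg : ∀ (g : G), ∀ e ∈ W, ∀ t, H (g • e) t = g • H e t)
    (hB : GoodOn G B n) : GoodOn G W n := by
  classical
  obtain ⟨k, k1, k2, k3⟩ := hB
  let r : ∀ m, Ch ℤ m E →ₗ[ℤ] Ch ℤ m E := fun m => Finsupp.lmapDomain ℤ ℤ
    (fun σ : Smp m E => (trk H hH σ).comp ((ContinuousMap.id _).prodMk (ContinuousMap.const _ 1)))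
  have r_single : ∀ m (σ : Smp m E), r m (Finsupp.single σ 1) = Finsupp.single
      ((trk H hH σ).comp ((ContinuousMap.id _).prodMk (ContinuousMap.const _ 1))) 1 := by
    intro m σ
    simp only [r, Finsupp.lmapDomain_apply, Finsupp.mapDomain_single]
  let P : ∀ m, Ch ℤ m E →ₗ[ℤ] Ch ℤ (m + 1) E := fun m => Finsupp.linearCombination ℤ
    (fun σ : Smp m E => prc m (trk H hH σ))
  have P_single : ∀ m (σ : Smp m E), P m (Finsupp.single σ 1) = prc m (trk H hH σ) := by
    intro m σ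
    simp only [P, Finsupp.linearCombination_single, one_smul]
  have trk_cf : ∀ m (σ : Smp (m + 1) E) (hσ : ∀ x, σ x ∈ W) (i : Fin (m + 1)),
      (trk H hH σ).comp ((cf i).prodMap (ContinuousMap.id _)) = trk H hH (fc σ i) := by
    intro m σ hσ i
    ext q
    rw [trk_apply H hH (fc σ i) (fun x => hσ (cf i x)), ContinuousMap.comp_apply,
      trk_apply H hH σ hσ]
    rfl
  have trk_gm : ∀ m (σ : Smp m E) (hσ : ∀ x, σ x ∈ W) (g : G),
      trk H hH ((gm g).comp σ) = (gm g).comp (trk H hH σ) := by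
    intro m σ hσ g
    ext q
    change _ = gm g (trk H hH σ q)
    rw [trk_apply H hH ((gm g).comp σ) (fun x => hWi g _ (hσ x)), trk_apply H hH σ hσ]
    exact hg g _ (hσ q.1) q.2
  have r_fc : ∀ m (σ : Smp (m + 1) E) (hσ : ∀ x, σ x ∈ W),
      bd ℤ m E (r (m + 1) (Finsupp.single σ 1)) = r m (bd ℤ m E (Finsupp.single σ 1)) := by
    intro m σ hσ
    rw [r_single, bd_single, bd_single, one_smul, one_smul, map_sum]
    refine Finset.sum_congr rfl (fun i _ => ?_)
    rw [map_smul, r_single, ← trk_cf m σ hσ i]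
    rfl
  have r_bd : ∀ m, ∀ x ∈ Sup (m + 1) W, bd ℤ m E (r (m + 1) x) = r m (bd ℤ m E x) := by
    intro m x hx
    exact lin_eq ((bd ℤ m E).comp (r (m + 1))) ((r m).comp (bd ℤ m E)) _
      (fun σ hσ => r_fc m σ hσ) hx
  have r_B : ∀ m, ∀ x ∈ Sup m W, r m x ∈ Sup m B := by
    intro m x hx
    refine lin_mem _ _ _ (fun σ hσ => ?_) hx
    rw [r_single]
    refine single_mem_Sup (fun y => ?_) _
    rw [ContinuousMap.comp_apply, trk_apply H hH σ hσ]
    exact h1 _ (hσ y)
  have P_bd : ∀ m, ∀ x ∈ Sup (m + 1) W,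
      bd ℤ (m + 1) E (P (m + 1) x) = r (m + 1) x - x - P m (bd ℤ m E x) := by
    intro m x hx
    refine lin_eq ((bd ℤ (m + 1) E).comp (P (m + 1)))
      (r (m + 1) - LinearMap.id - (P m).comp (bd ℤ m E)) _ (fun σ hσ => ?_) hx
    simp only [LinearMap.comp_apply, LinearMap.sub_apply, LinearMap.id_apply]
    rw [P_single, bd_prc, r_single]
    congr 1
    · congr 2
      ext y
      rw [ContinuousMap.comp_apply, trk_apply H hH σ hσ]
      exact h0 _ (hσ y)
    · rw [bd_single, one_smul, map_sum]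
      refine Finset.sum_congr rfl (fun i _ => ?_)
      rw [map_smul, P_single, trk_cf m σ hσ i]
  refine ⟨fun m => (k m).comp (r m) - P m, fun m x hx => ?_, fun g m x hx => ?_,
    fun m hm x hx => ?_⟩
  · refine Submodule.sub_mem _ ?_ ?_
    · exact Sup_mono hBW (k1 m _ (r_B m x hx))
    · refine lin_mem _ _ _ (fun σ hσ => ?_) hx
      rw [P_single]
      refine push_mem_Sup (fun q => ?_) _
      rw [trk_apply H hH σ hσ]
      exact hW _ (hσ _) _
  · have e1 : r m (pf ℤ m (gm g) x) = pf ℤ m (gm g) (r m x) := by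
      refine lin_eq ((r m).comp (pf ℤ m (gm g))) ((pf ℤ m (gm g)).comp (r m)) _
        (fun σ hσ => ?_) hx
      simp only [LinearMap.comp_apply]
      rw [pf_single, r_single, r_single, pf_single, trk_gm m σ hσ g]
      rfl
    have e2 : P m (pf ℤ m (gm g) x) = pf ℤ (m + 1) (gm g) (P m x) := by
      refine lin_eq ((P m).comp (pf ℤ m (gm g))) ((pf ℤ (m + 1) (gm g)).comp (P m)) _
        (fun σ hσ => ?_) hx
      simp only [LinearMap.comp_apply]
      rw [pf_single, P_single, P_single, trk_gm m σ hσ g, prc, prc, pf_push]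
    simp only [LinearMap.sub_apply, LinearMap.comp_apply, map_sub]
    rw [e1, e2, k2 g m _ (r_B m x hx)]
  · simp only [LinearMap.sub_apply, LinearMap.comp_apply, map_sub]
    rw [P_bd m x hx, ← r_bd m x hx]
    have := k3 m hm _ (r_B (m + 1) x hx)
    calc bd ℤ (m + 1) E (k (m + 1) (r (m + 1) x)) - (r (m + 1) x - x - P m (bd ℤ m E x)) +
          (k m (bd ℤ m E (r (m + 1) x)) - P m (bd ℤ m E x)) =
        (bd ℤ (m + 1) E (k (m + 1) (r (m + 1) x)) + k m (bd ℤ m E (r (m + 1) x))) -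
          r (m + 1) x + x := by abel
      _ = x := by rw [this]; abel

end HR

end Pool.Agent.H59
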