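import Pool.Agent.H59.MV

/-! Goodness for preimages under covering maps. -/

open Topology Set

namespace Pool.Agent.H59

open CvxSp

section

variable {E X : Type*} [TopologicalSpace E] [TopologicalSpace X] (G : Type*) [Group G]
  [MulAction G E] [ContinuousConstSMul G E]

theorem inv_preimage {p : E → X} (hpG : ∀ (g : G) (e : E), p (g • e) = p e) (W : Set X) :
    ∀ (g : G), ∀ e ∈ p ⁻¹' W, g • e ∈ p ⁻¹' W := by
  intro g e he
  rw [mem_preimage, hpG]
  exact he

theorem goodOn_lift {p : E → X} (hp : IsCoveringMap p) (hpG : ∀ (g : G) (e : E), p (g • e) = p e)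
    {W B : Set X} {n : ℕ} (hBW : B ⊆ W) (H : X → unitInterval → X)
    (hH : ContinuousOn (fun q : X × unitInterval => H q.1 q.2) (W ×ˢ univ))
    (h0 : ∀ x ∈ W, H x 0 = x) (hW : ∀ x ∈ W, ∀ t, H x t ∈ W) (h1 : ∀ x ∈ W, H x 1 ∈ B)
    (hB : GoodOn G (p ⁻¹' B) n) : GoodOn G (p ⁻¹' W) n := by
  classical
  let F : C(unitInterval × (p ⁻¹' W), X) := ⟨fun q => H (p q.2) q.1,
    hH.comp_continuous (f := fun q : unitInterval × (p ⁻¹' W) => (p q.2, q.1))
      ((hp.continuous.comp (continuous_subtype_val.comp continuous_snd)).prodMk continuous_fst)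
      (fun q => ⟨q.2.2, mem_univ _⟩)⟩
  let f : C(p ⁻¹' W, E) := ⟨Subtype.val, continuous_subtype_val⟩
  have hF0 : ∀ a, F (0, a) = p (f a) := fun a => h0 _ a.2
  let L : C(unitInterval × (p ⁻¹' W), E) := hp.liftHomotopy F f hF0
  have L_lifts : ∀ t a, p (L (t, a)) = H (p a) t := by
    intro t a
    exact congrFun (hp.liftHomotopy_lifts F f hF0) (t, a)
  have L_zero : ∀ a, L (0, a) = a := hp.liftHomotopy_zero F f hF0
  let H' : E → unitInterval → E := fun e t => if he : e ∈ p ⁻¹' W then L (t, ⟨e, he⟩) else e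
  have H'_def : ∀ e (he : e ∈ p ⁻¹' W) t, H' e t = L (t, ⟨e, he⟩) := fun e he t => by
    simp only [H', dif_pos he]
  have H'_lifts : ∀ e (_ : e ∈ p ⁻¹' W) t, p (H' e t) = H (p e) t := fun e he t => by
    rw [H'_def e he, L_lifts]
  refine goodOn_of_homotopy G (W := p ⁻¹' W) (B := p ⁻¹' B) (inv_preimage G hpG W)
    (preimage_mono hBW) H' ?_ ?_ ?_ ?_ ?_ hB
  · rw [continuousOn_iff_continuous_domRestrict]
    have : ((p ⁻¹' W) ×ˢ (univ : Set unitInterval)).domRestrict (fun q : E × unitInterval => H' q.1 q.2) =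
        fun q => L (q.1.2, ⟨q.1.1, q.2.1⟩) := by
      funext q
      exact H'_def _ q.2.1 _
    rw [this]
    exact L.continuous.comp (by fun_prop)
  · intro e he
    rw [H'_def e he, L_zero]
  · intro e he t
    rw [mem_preimage, H'_lifts e he]
    exact hW _ he t
  · intro e he
    rw [mem_preimage, H'_lifts e he]
    exact h1 _ he
  · intro g e he t
    have hge : g • e ∈ p ⁻¹' W := inv_preimage G hpG W g e he
    have := hp.eq_of_comp_eq (g₁ := fun t => H' (g • e) t) (g₂ := fun t => g • H' e t)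
      (by
        simp only [H'_def _ hge]
        exact L.continuous.comp (by fun_prop))
      (by
        simp only [H'_def _ he]
        exact (L.continuous.comp (by fun_prop)).const_smul g)
      (by
        funext t
        simp only [Function.comp]
        rw [H'_lifts _ hge, hpG g e, hpG g (H' e t), H'_lifts _ he]) 0
      (by rw [H'_def _ hge, H'_def _ he, L_zero, L_zero])
    exact congrFun this t

/-- preimages of totally disconnected pieces are `1`-good -/
theorem goodOn_preimage_discrete {p : E → X} (hp : IsCoveringMap p) {J : Set X}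
    (hJ : ∀ (m : ℕ) (σ : Smp (m + 1) X), (∀ x, σ x ∈ J) → ∀ x y, σ x = σ y) :
    GoodOn G (p ⁻¹' J) 1 := by
  refine goodOn_discrete G (fun m σ hσ => ?_)
  refine ⟨σ (stdSimplex.vertex 0), hσ _, ?_⟩
  ext x
  refine hp.const_of_comp (A := Dl (m + 1)) (g := σ) σ.continuous (fun a a' => ?_) x _
  exact hJ m (⟨p ∘ σ, hp.continuous.comp σ.continuous⟩) (fun x => hσ x) a a'

/-- Mayer-Vietoris for preimages -/
theorem goodOn_union_preimage {p : E → X} (hp : IsCoveringMap p)
    (hpG : ∀ (g : G) (e : E), p (g • e) = p e) {W O₁ O₂ : Set X} {n : ℕ}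
    (hO₁ : IsOpen O₁) (hO₂ : IsOpen O₂) (hW : W ⊆ O₁ ∪ O₂)
    (hA : GoodOn G (p ⁻¹' (W ∩ O₁ ∩ (W ∩ O₂))) n) (hU₁ : GoodOn G (p ⁻¹' (W ∩ O₁)) (n + 1))
    (hU₂ : GoodOn G (p ⁻¹' (W ∩ O₂)) (n + 1)) : GoodOn G (p ⁻¹' W) (n + 1) :=
  goodOn_union G (inv_preimage G hpG W) (inv_preimage G hpG O₁) (inv_preimage G hpG O₂)
    (hO₁.preimage hp.continuous) (hO₂.preimage hp.continuous) (fun _ he => hW he) hA hU₁ hU₂

end

end Pool.Agent.H59
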