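import Pool.Agent.H59.Good

/-! Mayer-Vietoris for goodness. -/

open Topology Set

namespace Pool.Agent.H59

open CvxSp

section

variable {E : Type*} [TopologicalSpace E]

/-- number of subdivisions needed for one simplex -/
noncomputable def mn (O₁ O₂ : Set E) (n : ℕ) (σ : Smp n E) : ℕ :=
  sInf {m₀ | ∀ m ≥ m₀, SdI n m (Finsupp.single σ 1) ∈ Sml n O₁ O₂}

/-- number of subdivisions, monotone under faces -/
noncomputable def ms (O₁ O₂ : Set E) : ∀ n, Smp n E → ℕ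
  | 0, σ => mn O₁ O₂ 0 σ
  | n + 1, σ => max (mn O₁ O₂ (n + 1) σ) (Finset.univ.sup fun i => ms O₁ O₂ n (fc σ i))

theorem mn_spec {O₁ O₂ : Set E} (h₁ : IsOpen O₁) (h₂ : IsOpen O₂) {n : ℕ} (σ : Smp n E)
    (h : ∀ x, σ x ∈ O₁ ∪ O₂) :
    ∀ m ≥ mn O₁ O₂ n σ, SdI n m (Finsupp.single σ 1) ∈ Sml n O₁ O₂ :=
  Nat.sInf_mem (s := {m₀ | ∀ m ≥ m₀, SdI n m (Finsupp.single σ 1) ∈ Sml n O₁ O₂})
    (exists_small σ h₁ h₂ h)

theorem mn_le_ms {O₁ O₂ : Set E} {n : ℕ} (σ : Smp n E) : mn O₁ O₂ n σ ≤ ms O₁ O₂ n σ := by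
  cases n with
  | zero => exact le_rfl
  | succ n => exact le_max_left _ _

theorem ms_spec {O₁ O₂ : Set E} (h₁ : IsOpen O₁) (h₂ : IsOpen O₂) {n : ℕ} (σ : Smp n E)
    (h : ∀ x, σ x ∈ O₁ ∪ O₂) :
    ∀ m ≥ ms O₁ O₂ n σ, SdI n m (Finsupp.single σ 1) ∈ Sml n O₁ O₂ :=
  fun m hm => mn_spec h₁ h₂ σ h m ((mn_le_ms σ).trans hm)

theorem ms_fc {O₁ O₂ : Set E} {n : ℕ} (σ : Smp (n + 1) E) (i : Fin (n + 1)) :
    ms O₁ O₂ n (fc σ i) ≤ ms O₁ O₂ (n + 1) σ :=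
  (Finset.le_sup (f := fun i => ms O₁ O₂ n (fc σ i)) (Finset.mem_univ i)).trans (le_max_right _ _)

end

section

variable {E : Type*} [TopologicalSpace E] (G : Type*) [Group G] [MulAction G E]
  [ContinuousConstSMul G E]

theorem gm_inv_comp (g : G) {n : ℕ} (σ : Smp n E) : (gm g⁻¹).comp ((gm g).comp σ) = σ := by
  ext x
  exact inv_smul_smul g (σ x)

theorem mn_gm {O₁ O₂ : Set E} (hO₁ : ∀ (g : G), ∀ e ∈ O₁, g • e ∈ O₁)
    (hO₂ : ∀ (g : G), ∀ e ∈ O₂, g • e ∈ O₂) (g : G) {n : ℕ} (σ : Smp n E) :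
    mn O₁ O₂ n ((gm g).comp σ) = mn O₁ O₂ n σ := by
  unfold mn
  congr 1
  ext m₀
  have key : ∀ (g : G) (σ : Smp n E) (m : ℕ), SdI n m (Finsupp.single σ 1) ∈ Sml n O₁ O₂ →
      SdI n m (Finsupp.single ((gm g).comp σ) 1) ∈ Sml n O₁ O₂ := by
    intro g σ m hm
    rw [← pf_single, ← pf_SdI]
    exact pf_mem_Sml (fun y hy => hO₁ g y hy) (fun y hy => hO₂ g y hy) hm
  constructor
  · intro h m hm
    have := key g⁻¹ _ m (h m hm)
    rwa [gm_inv_comp] at this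
  · intro h m hm
    exact key g _ m (h m hm)

theorem ms_gm {O₁ O₂ : Set E} (hO₁ : ∀ (g : G), ∀ e ∈ O₁, g • e ∈ O₁)
    (hO₂ : ∀ (g : G), ∀ e ∈ O₂, g • e ∈ O₂) (g : G) {n : ℕ} (σ : Smp n E) :
    ms O₁ O₂ n ((gm g).comp σ) = ms O₁ O₂ n σ := by
  induction n with
  | zero => exact mn_gm G hO₁ hO₂ g σ
  | succ n ih =>
    simp only [ms]
    rw [mn_gm G hO₁ hO₂ g σ]
    congr 1
    refine Finset.sup_congr rfl (fun i _ => ?_)
    exact ih (fc σ i)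

/-- auxiliary identity for a normalised contraction -/
theorem norm_key {U : Set E} {n : ℕ} {h : ∀ m, Ch ℤ m E →ₗ[ℤ] Ch ℤ (m + 1) E}
    (h4 : ∀ m, n ≤ m + 1 → ∀ x ∈ Sup (m + 1) U,
        h (m + 1) (bd ℤ (m + 1) E (h (m + 1) x)) + h (m + 1) (h m (bd ℤ m E x)) = h (m + 1) x)
    (m : ℕ) (hm : n ≤ m + 1) (x : Ch ℤ (m + 1) E) (hx : x ∈ Sup (m + 1) U) :
    h (m + 1) (bd ℤ (m + 1) E (h (m + 1) x)) + h (m + 1) (h m (bd ℤ m E x)) = h (m + 1) x :=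
  h4 m hm x hx

open Classical in
theorem goodOn_union {W O₁ O₂ : Set E} {n : ℕ} (hWi : ∀ (g : G), ∀ e ∈ W, g • e ∈ W)
    (hO₁i : ∀ (g : G), ∀ e ∈ O₁, g • e ∈ O₁) (hO₂i : ∀ (g : G), ∀ e ∈ O₂, g • e ∈ O₂)
    (hO₁ : IsOpen O₁) (hO₂ : IsOpen O₂) (hW : W ⊆ O₁ ∪ O₂)
    (hA : GoodOn G (W ∩ O₁ ∩ (W ∩ O₂)) n) (hU₁ : GoodOn G (W ∩ O₁) (n + 1))
    (hU₂ : GoodOn G (W ∩ O₂) (n + 1)) : GoodOn G W (n + 1) := by
  obtain ⟨k, k1, k2, k3⟩ := hA
  have hU₁i : ∀ (g : G), ∀ e ∈ W ∩ O₁, g • e ∈ W ∩ O₁ := fun g e he => ⟨hWi g e he.1, hO₁i g e he.2⟩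
  have hU₂i : ∀ (g : G), ∀ e ∈ W ∩ O₂, g • e ∈ W ∩ O₂ := fun g e he => ⟨hWi g e he.1, hO₂i g e he.2⟩
  obtain ⟨a, a1, a2, a3, a4⟩ := hU₁.normalize G hU₁i
  obtain ⟨b, b1, b2, b3, b4⟩ := hU₂.normalize G hU₂i
  clear hU₁ hU₂
  -- small chains in W
  let SW : ∀ m, Submodule ℤ (Ch ℤ m E) := fun m => Sup m W ⊓ Sml m O₁ O₂
  have SW_supp : ∀ m, SW m = Finsupp.supported ℤ ℤ
      {σ : Smp m E | (∀ x, σ x ∈ W) ∧ ((∀ x, σ x ∈ O₁) ∨ (∀ x, σ x ∈ O₂))} := by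
    intro m
    simp only [SW, Sup, Sml]
    rw [← Finsupp.supported_inter]
    rfl
  -- first projection
  let s : ∀ m, Ch ℤ m E →ₗ[ℤ] Ch ℤ m E := fun m => Finsupp.linearCombination ℤ
    (fun σ : Smp m E => if ∀ x, σ x ∈ O₁ then Finsupp.single σ 1 else 0)
  have s_single : ∀ m (σ : Smp m E), s m (Finsupp.single σ 1) =
      if ∀ x, σ x ∈ O₁ then Finsupp.single σ 1 else 0 := by
    intro m σ
    simp only [s, Finsupp.linearCombination_single, one_smul]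
  have s_mem : ∀ m, ∀ x ∈ SW m, s m x ∈ Sup m (W ∩ O₁) := by
    intro m x hx
    rw [SW_supp] at hx
    refine lin_mem _ _ _ (fun σ hσ => ?_) hx
    rw [s_single]
    split_ifs with h
    · exact single_mem_Sup (W := W ∩ O₁) (fun x => ⟨hσ.1 x, h x⟩) _
    · exact Submodule.zero_mem _
  have s_mem' : ∀ m, ∀ x ∈ SW m, x - s m x ∈ Sup m (W ∩ O₂) := by
    intro m x hx
    rw [SW_supp] at hx
    refine lin_mem (LinearMap.id - s m) _ _ (fun σ hσ => ?_) hx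
    rw [LinearMap.sub_apply, LinearMap.id_apply, s_single]
    split_ifs with h
    · rw [sub_self]; exact Submodule.zero_mem _
    · rw [sub_zero]
      refine single_mem_Sup (W := W ∩ O₂) (fun x => ⟨hσ.1 x, ?_⟩) _
      rcases hσ.2 with h' | h'
      · exact absurd h' h
      · exact h' x
  have s_gm : ∀ (g : G) m (x : Ch ℤ m E), s m (pf ℤ m (gm g) x) = pf ℤ m (gm g) (s m x) := by
    intro g m x
    refine lin_ext (f := (s m).comp (pf ℤ m (gm g))) (g := (pf ℤ m (gm g)).comp (s m))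
      (fun σ => ?_) x
    simp only [LinearMap.comp_apply]
    rw [pf_single, s_single, s_single]
    have : (∀ x, ((gm g).comp σ) x ∈ O₁) ↔ (∀ x, σ x ∈ O₁) := by
      constructor
      · intro h y
        have := hO₁i g⁻¹ _ (h y)
        simpa [gm] using this
      · intro h y
        exact hO₁i g _ (h y)
    simp only [this]
    split_ifs
    · rw [pf_single]
    · rw [map_zero]
  have SW_bd : ∀ m, ∀ x ∈ SW (m + 1), bd ℤ m E x ∈ SW m := by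
    intro m x hx
    refine ⟨bd_mem_Sup hx.1, ?_⟩
    refine lin_mem _ _ _ (fun σ hσ => ?_) hx.2
    rw [bd_single, one_smul]
    refine Submodule.sum_mem _ (fun i _ => Submodule.smul_mem _ _ ?_)
    rcases hσ with hσ | hσ
    · exact Finsupp.single_mem_supported ℤ 1 (Or.inl fun x => hσ (cf i x))
    · exact Finsupp.single_mem_supported ℤ 1 (Or.inr fun x => hσ (cf i x))
  -- the defect
  let d : ∀ m, Ch ℤ (m + 1) E →ₗ[ℤ] Ch ℤ m E := fun m =>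
    (s m).comp (bd ℤ m E) - (bd ℤ m E).comp (s (m + 1))
  have d_def : ∀ m x, d m x = s m (bd ℤ m E x) - bd ℤ m E (s (m + 1) x) := fun m x => rfl
  have d_mem : ∀ m, ∀ x ∈ SW (m + 1), d m x ∈ Sup m (W ∩ O₁ ∩ (W ∩ O₂)) := by
    intro m x hx
    refine Sup_inter ?_ ?_
    · rw [d_def]
      exact Submodule.sub_mem _ (s_mem m _ (SW_bd m x hx)) (bd_mem_Sup (s_mem _ x hx))
    · have : d m x = bd ℤ m E (x - s (m + 1) x) - (bd ℤ m E x - s m (bd ℤ m E x)) := by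
        rw [d_def, map_sub]; abel
      rw [this]
      exact Submodule.sub_mem _ (bd_mem_Sup (s_mem' _ x hx)) (s_mem' m _ (SW_bd m x hx))
  have d_gm : ∀ (g : G) m (x : Ch ℤ (m + 1) E), d m (pf ℤ (m + 1) (gm g) x) =
      pf ℤ m (gm g) (d m x) := by
    intro g m x
    rw [d_def, d_def, bd_pf, s_gm, s_gm, bd_pf, map_sub]
  have hAU₁ : W ∩ O₁ ∩ (W ∩ O₂) ⊆ W ∩ O₁ := inter_subset_left
  have hAU₂ : W ∩ O₁ ∩ (W ∩ O₂) ⊆ W ∩ O₂ := inter_subset_right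
  -- contraction on small chains
  let c : ∀ m, Ch ℤ m E →ₗ[ℤ] Ch ℤ (m + 1) E := fun m =>
    match m with
    | 0 => 0
    | m + 1 => (a (m + 1)).comp (s (m + 1) - (a m).comp (d m) + (k m).comp (d m)) +
        (b (m + 1)).comp (LinearMap.id - s (m + 1) + (b m).comp (d m) - (k m).comp (d m))
  have c_def : ∀ m x, c (m + 1) x = a (m + 1) (s (m + 1) x - a m (d m x) + k m (d m x)) +
      b (m + 1) (x - s (m + 1) x + b m (d m x) - k m (d m x)) := fun m x => rfl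
  have y₁_mem : ∀ m, ∀ x ∈ SW (m + 1), s (m + 1) x - a m (d m x) + k m (d m x) ∈
      Sup (m + 1) (W ∩ O₁) := by
    intro m x hx
    have hd := d_mem m x hx
    exact Submodule.add_mem _ (Submodule.sub_mem _ (s_mem _ x hx) (a1 m _ (Sup_mono hAU₁ hd)))
      (Sup_mono hAU₁ (k1 m _ hd))
  have y₂_mem : ∀ m, ∀ x ∈ SW (m + 1), x - s (m + 1) x + b m (d m x) - k m (d m x) ∈
      Sup (m + 1) (W ∩ O₂) := by
    intro m x hx
    have hd := d_mem m x hx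
    exact Submodule.sub_mem _ (Submodule.add_mem _ (s_mem' _ x hx) (b1 m _ (Sup_mono hAU₂ hd)))
      (Sup_mono hAU₂ (k1 m _ hd))
  have c_mem : ∀ m, ∀ x ∈ SW m, c m x ∈ Sup (m + 1) W := by
    intro m x hx
    cases m with
    | zero => exact Submodule.zero_mem _
    | succ m =>
      rw [c_def]
      exact Submodule.add_mem _ (Sup_mono inter_subset_left (a1 _ _ (y₁_mem m x hx)))
        (Sup_mono inter_subset_left (b1 _ _ (y₂_mem m x hx)))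
  have c_gm : ∀ (g : G) m, ∀ x ∈ SW m, c m (pf ℤ m (gm g) x) = pf ℤ (m + 1) (gm g) (c m x) := by
    intro g m x hx
    cases m with
    | zero => simp [c]
    | succ m =>
      have hd := d_mem m x hx
      rw [c_def, c_def, d_gm, s_gm, a2 g m _ (Sup_mono hAU₁ hd), b2 g m _ (Sup_mono hAU₂ hd),
        k2 g m _ hd, ← map_sub, ← map_add, ← map_sub, ← map_add, ← map_sub,
        a2 g (m + 1) _ (y₁_mem m x hx), b2 g (m + 1) _ (y₂_mem m x hx), ← map_add]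
  have c_id : ∀ m, n + 1 ≤ m → ∀ x ∈ SW (m + 1),
      bd ℤ (m + 1) E (c (m + 1) x) + c m (bd ℤ m E x) = x := by
    intro m hm x hx
    obtain ⟨m, rfl⟩ : ∃ j, m = j + 1 := ⟨m - 1, by lia⟩
    have hd := d_mem (m + 1) x hx
    have hd₁ := Sup_mono hAU₁ hd
    have hd₂ := Sup_mono hAU₂ hd
    -- d (bd x) = - bd (d x)
    have hdd : d m (bd ℤ (m + 1) E x) = - bd ℤ m E (d (m + 1) x) := by
      rw [d_def, d_def, map_sub, bd_bd, bd_bd, map_zero]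
      abel
    have e1 := a3 (m + 1) hm _ (y₁_mem (m + 1) x hx)
    have e2 := b3 (m + 1) hm _ (y₂_mem (m + 1) x hx)
    have e3 := k3 m (by lia) _ hd
    have e4 := a4 m hm _ hd₁
    have e5 := b4 m hm _ hd₂
    have e6 : bd ℤ (m + 1) E (s (m + 2) x) = s (m + 1) (bd ℤ (m + 1) E x) - d (m + 1) x := by
      rw [d_def]; abel
    rw [c_def, c_def, map_add, hdd]
    have f1 : bd ℤ (m + 2) E (a (m + 2) (s (m + 2) x - a (m + 1) (d (m + 1) x) +
        k (m + 1) (d (m + 1) x))) = (s (m + 2) x - a (m + 1) (d (m + 1) x) +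
        k (m + 1) (d (m + 1) x)) - a (m + 1) (bd ℤ (m + 1) E (s (m + 2) x -
          a (m + 1) (d (m + 1) x) + k (m + 1) (d (m + 1) x))) := by
      rw [eq_sub_iff_add_eq]; exact e1
    have f2 : bd ℤ (m + 2) E (b (m + 2) (x - s (m + 2) x + b (m + 1) (d (m + 1) x) -
        k (m + 1) (d (m + 1) x))) = (x - s (m + 2) x + b (m + 1) (d (m + 1) x) -
        k (m + 1) (d (m + 1) x)) - b (m + 1) (bd ℤ (m + 1) E (x - s (m + 2) x +
          b (m + 1) (d (m + 1) x) - k (m + 1) (d (m + 1) x))) := by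
      rw [eq_sub_iff_add_eq]; exact e2
    have f3 : bd ℤ (m + 1) E (k (m + 1) (d (m + 1) x)) =
        d (m + 1) x - k m (bd ℤ m E (d (m + 1) x)) := by
      rw [eq_sub_iff_add_eq]; exact e3
    rw [f1, f2]
    simp only [map_add, map_sub, map_neg, e6, f3]
    linear_combination (norm := abel) e4 - e5
  -- subdivision
  let Dh : ∀ m, Ch ℤ m E →ₗ[ℤ] Ch ℤ (m + 1) E := fun m => Finsupp.linearCombination ℤ
    (fun σ : Smp m E => DI m (ms O₁ O₂ m σ) (Finsupp.single σ 1))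
  have Dh_single : ∀ m (σ : Smp m E), Dh m (Finsupp.single σ 1) =
      DI m (ms O₁ O₂ m σ) (Finsupp.single σ 1) := by
    intro m σ
    simp only [Dh, Finsupp.linearCombination_single, one_smul]
  have Dh_mem : ∀ m, ∀ x ∈ Sup m W, Dh m x ∈ Sup (m + 1) W := by
    intro m x hx
    refine lin_mem _ _ _ (fun σ hσ => ?_) hx
    rw [Dh_single]
    exact DI_mem_Sup _ (single_mem_Sup hσ _)
  have Dh_gm : ∀ (g : G) m (x : Ch ℤ m E), Dh m (pf ℤ m (gm g) x) =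
      pf ℤ (m + 1) (gm g) (Dh m x) := by
    intro g m x
    refine lin_ext (f := (Dh m).comp (pf ℤ m (gm g))) (g := (pf ℤ (m + 1) (gm g)).comp (Dh m))
      (fun σ => ?_) x
    simp only [LinearMap.comp_apply]
    rw [pf_single, Dh_single, Dh_single, ms_gm G hO₁i hO₂i, pf_DI, pf_single]
  let ρ : ∀ m, Ch ℤ (m + 1) E →ₗ[ℤ] Ch ℤ (m + 1) E := fun m =>
    LinearMap.id - (bd ℤ (m + 1) E).comp (Dh (m + 1)) - (Dh m).comp (bd ℤ m E)
  have ρ_def : ∀ m x, ρ m x = x - bd ℤ (m + 1) E (Dh (m + 1) x) - Dh m (bd ℤ m E x) :=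
    fun m x => rfl
  have ρ_mem : ∀ m, ∀ x ∈ Sup (m + 1) W, ρ m x ∈ SW (m + 1) := by
    intro m x hx
    refine ⟨?_, ?_⟩
    · rw [ρ_def]
      exact Submodule.sub_mem _ (Submodule.sub_mem _ hx (bd_mem_Sup (Dh_mem _ _ hx)))
        (Dh_mem _ _ (bd_mem_Sup hx))
    · refine lin_mem _ _ _ (fun σ hσ => ?_) hx
      rw [ρ_def, Dh_single, bd_DI]
      have e1 : (Finsupp.single σ 1 : Ch ℤ (m + 1) E) - (Finsupp.single σ 1 -
          SdI (m + 1) (ms O₁ O₂ (m + 1) σ) (Finsupp.single σ 1) -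
          DI m (ms O₁ O₂ (m + 1) σ) (bd ℤ m E (Finsupp.single σ 1))) -
          Dh m (bd ℤ m E (Finsupp.single σ 1)) =
          SdI (m + 1) (ms O₁ O₂ (m + 1) σ) (Finsupp.single σ 1) +
          (DI m (ms O₁ O₂ (m + 1) σ) (bd ℤ m E (Finsupp.single σ 1)) -
          Dh m (bd ℤ m E (Finsupp.single σ 1))) := by abel
      rw [e1]
      refine Submodule.add_mem _ (ms_spec hO₁ hO₂ σ (fun x => hW (hσ x)) _ le_rfl) ?_
      rw [bd_single, one_smul, map_sum, map_sum, ← Finset.sum_sub_distrib]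
      refine Submodule.sum_mem _ (fun i _ => ?_)
      rw [map_smul, map_smul, ← smul_sub, Dh_single]
      refine Submodule.smul_mem _ _ ?_
      exact DI_sub_mem_Sml (ms_spec hO₁ hO₂ (fc σ i) (fun x => hW (hσ _))) _ (ms_fc σ i)
  have ρ_bd : ∀ m x, bd ℤ (m + 1) E (ρ (m + 1) x) = ρ m (bd ℤ (m + 1) E x) := by
    intro m x
    rw [ρ_def, ρ_def, map_sub, map_sub, bd_bd, bd_bd, map_zero]
    abel
  have ρ_gm : ∀ (g : G) m x, ρ m (pf ℤ (m + 1) (gm g) x) = pf ℤ (m + 1) (gm g) (ρ m x) := by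
    intro g m x
    rw [ρ_def, ρ_def, map_sub, map_sub, Dh_gm, bd_pf, bd_pf, Dh_gm]
  -- final contraction
  let f : ∀ m, Ch ℤ m E →ₗ[ℤ] Ch ℤ (m + 1) E := fun m =>
    match m with
    | 0 => 0
    | m + 1 => Dh (m + 1) + (c (m + 1)).comp (ρ m)
  have f_def : ∀ m x, f (m + 1) x = Dh (m + 1) x + c (m + 1) (ρ m x) := fun m x => rfl
  refine ⟨f, fun m x hx => ?_, fun g m x hx => ?_, fun m hm x hx => ?_⟩
  · cases m with
    | zero => exact Submodule.zero_mem _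
    | succ m =>
      rw [f_def]
      exact Submodule.add_mem _ (Dh_mem _ _ hx) (c_mem _ _ (ρ_mem m x hx))
  · cases m with
    | zero => simp [f]
    | succ m =>
      rw [f_def, f_def, ρ_gm, c_gm g _ _ (ρ_mem m x hx), Dh_gm, map_add]
  · obtain ⟨m, rfl⟩ : ∃ j, m = j + 1 := ⟨m - 1, by lia⟩
    rw [f_def, f_def, ← ρ_bd, map_add]
    have h1 := c_id (m + 1) hm _ (ρ_mem (m + 1) x hx)
    have h2 := ρ_def (m + 1) x
    calc bd ℤ (m + 2) E (Dh (m + 2) x) + bd ℤ (m + 2) E (c (m + 2) (ρ (m + 1) x)) +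
          (Dh (m + 1) (bd ℤ (m + 1) E x) + c (m + 1) (bd ℤ (m + 1) E (ρ (m + 1) x))) =
        (bd ℤ (m + 2) E (c (m + 2) (ρ (m + 1) x)) + c (m + 1) (bd ℤ (m + 1) E (ρ (m + 1) x))) +
          (bd ℤ (m + 2) E (Dh (m + 2) x) + Dh (m + 1) (bd ℤ (m + 1) E x)) := by abel
      _ = x := by rw [h1, h2]; abel

end

end Pool.Agent.H59
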