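import Pool.Agent.H59.Affine

/-! Operators on singular chains induced by operators on affine tuples. -/

open Topology Set

namespace Pool.Agent.H59

open CvxSp

variable {K K' : Type*} [TopologicalSpace K] [TopologicalSpace K'] [CvxSp K] [CvxSp K']
variable {Y Z : Type*} [TopologicalSpace Y] [TopologicalSpace Z]

/-- the affine simplex with given vertices -/
noncomputable def affS {n : ℕ} (v : Fin n → K) : C(Dl n, K) := ⟨comb v, cont v⟩

@[simp] theorem affS_apply {n : ℕ} (v : Fin n → K) (x : Dl n) : affS v x = comb v x := rfl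

/-- push affine chains to singular chains -/
noncomputable def push (n : ℕ) (f : C(K, Y)) : LL n K →ₗ[ℤ] Ch ℤ n Y :=
  Finsupp.lmapDomain ℤ ℤ (fun v => f.comp (affS v))

@[simp] theorem push_single (n : ℕ) (f : C(K, Y)) (v : Fin n → K) (r : ℤ) :
    push n f (Finsupp.single v r) = Finsupp.single (f.comp (affS v)) r := by
  simp [push, Finsupp.mapDomain_single]

theorem affS_cf {n : ℕ} (v : Fin (n + 1) → K) (i : Fin (n + 1)) :
    (affS v).comp (cf i) = affS (v ∘ i.succAbove) := by
  ext1 x
  exact comb_map v i.succAbove x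

theorem affS_vtx (n : ℕ) : affS (vtx n) = ContinuousMap.id (Dl n) := by
  ext1 x
  exact comb_vtx x

theorem bd_push (n : ℕ) (f : C(K, Y)) (x : LL (n + 1) K) :
    bd ℤ n Y (push (n + 1) f x) = push n f (bdL n K x) :=
  altbd_mapDomain ℤ (fun (v : Fin (n + 1) → K) i => v ∘ i.succAbove) (fun σ i => fc σ i)
    (fun v => f.comp (affS v)) (fun v => f.comp (affS v))
    (fun v i => by rw [fc, ContinuousMap.comp_assoc, affS_cf]) x

theorem push_mapL (n : ℕ) (f : C(K', Y)) (φ : C(K, K')) (hφ : IsAff φ) (x : LL n K) :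
    push n f (mapL n φ x) = push n (f.comp φ) x := by
  refine lin_ext (f := (push n f).comp (mapL n φ)) (g := push n (f.comp φ)) (fun v => ?_) x
  simp only [LinearMap.comp_apply, mapL_single, push_single]
  congr 1
  ext1 y
  simp only [ContinuousMap.comp_apply, affS_apply]
  rw [← hφ]

theorem pf_push (n : ℕ) (f : C(K, Y)) (g : C(Y, Z)) (x : LL n K) :
    pf ℤ n g (push n f x) = push n (g.comp f) x := by
  refine lin_ext (f := (pf ℤ n g).comp (push n f)) (g := push n (g.comp f)) (fun v => ?_) x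
  simp only [LinearMap.comp_apply, push_single, pf_single, ContinuousMap.comp_assoc]

/-- the singular chain of the identity tuple -/
theorem push_vtx (n : ℕ) (σ : Smp n Y) (r : ℤ) :
    push n σ (Finsupp.single (vtx n) r) = Finsupp.single σ r := by
  rw [push_single, affS_vtx, ContinuousMap.comp_id]

/-- subdivision of singular chains -/
noncomputable def Sd (n : ℕ) : Ch ℤ n Y →ₗ[ℤ] Ch ℤ n Y :=
  Finsupp.linearCombination ℤ (fun σ : Smp n Y => push n σ (SdL n (Finsupp.single (vtx n) 1)))

theorem Sd_single (n : ℕ) (σ : Smp n Y) :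
    Sd n (Finsupp.single σ 1) = push n σ (SdL n (Finsupp.single (vtx n) 1)) := by
  rw [Sd, Finsupp.linearCombination_single, one_smul]

/-- homotopy from the identity to subdivision -/
noncomputable def Tc (n : ℕ) : Ch ℤ n Y →ₗ[ℤ] Ch ℤ (n + 1) Y :=
  Finsupp.linearCombination ℤ (fun σ : Smp n Y => push (n + 1) σ (TL n (Finsupp.single (vtx n) 1)))

theorem Tc_single (n : ℕ) (σ : Smp n Y) :
    Tc n (Finsupp.single σ 1) = push (n + 1) σ (TL n (Finsupp.single (vtx n) 1)) := by
  rw [Tc, Finsupp.linearCombination_single, one_smul]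

theorem comb_comp_vtx {n : ℕ} (v : Fin n → K) : (comb v : Dl n → K) ∘ vtx n = v := by
  funext i
  exact comb_vertex v i

theorem isAff_affS {n : ℕ} (v : Fin n → K) : IsAff ⇑(affS v) := isAff_comb v

theorem affS_comp_vtx {n : ℕ} (v : Fin n → K) : ⇑(affS v) ∘ vtx n = v := comb_comp_vtx v

theorem Sd_push (n : ℕ) (f : C(K, Y)) (x : LL n K) : Sd n (push n f x) = push n f (SdL n x) := by
  refine lin_ext (f := (Sd n).comp (push n f)) (g := (push n f).comp (SdL n)) (fun v => ?_) x
  simp only [LinearMap.comp_apply, push_single]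
  rw [Sd_single, ← push_mapL n f (affS v) (isAff_affS v), mapL_SdL _ (isAff_affS v), mapL_single,
    affS_comp_vtx]

theorem Tc_push (n : ℕ) (f : C(K, Y)) (x : LL n K) :
    Tc n (push n f x) = push (n + 1) f (TL n x) := by
  refine lin_ext (f := (Tc n).comp (push n f)) (g := (push (n + 1) f).comp (TL n)) (fun v => ?_) x
  simp only [LinearMap.comp_apply, push_single]
  rw [Tc_single, ← push_mapL (n + 1) f (affS v) (isAff_affS v), mapL_TL _ (isAff_affS v),
    mapL_single, affS_comp_vtx]

theorem bd_Sd (n : ℕ) (x : Ch ℤ (n + 1) Y) : bd ℤ n Y (Sd (n + 1) x) = Sd n (bd ℤ n Y x) := by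
  refine lin_ext (f := (bd ℤ n Y).comp (Sd (n + 1))) (g := (Sd n).comp (bd ℤ n Y)) (fun σ => ?_) x
  simp only [LinearMap.comp_apply]
  rw [Sd_single, bd_push, bdL_SdL, ← Sd_push, ← bd_push, push_vtx]

theorem bd_Tc (n : ℕ) (x : Ch ℤ (n + 1) Y) :
    bd ℤ (n + 1) Y (Tc (n + 1) x) = x - Sd (n + 1) x - Tc n (bd ℤ n Y x) := by
  refine lin_ext (f := (bd ℤ (n + 1) Y).comp (Tc (n + 1)))
    (g := LinearMap.id - Sd (n + 1) - (Tc n).comp (bd ℤ n Y)) (fun σ => ?_) x
  simp only [LinearMap.comp_apply, LinearMap.sub_apply, LinearMap.id_apply]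
  rw [Tc_single, bd_push, bdL_TL, Sd_single, map_sub, map_sub, push_vtx, ← Tc_push, ← bd_push,
    push_vtx]

theorem pf_Sd (n : ℕ) (g : C(Y, Z)) (x : Ch ℤ n Y) : pf ℤ n g (Sd n x) = Sd n (pf ℤ n g x) := by
  refine lin_ext (f := (pf ℤ n g).comp (Sd n)) (g := (Sd n).comp (pf ℤ n g)) (fun σ => ?_) x
  simp only [LinearMap.comp_apply]
  rw [Sd_single, pf_push, pf_single, Sd_single]

theorem pf_Tc (n : ℕ) (g : C(Y, Z)) (x : Ch ℤ n Y) :
    pf ℤ (n + 1) g (Tc n x) = Tc n (pf ℤ n g x) := by
  refine lin_ext (f := (pf ℤ (n + 1) g).comp (Tc n)) (g := (Tc n).comp (pf ℤ n g)) (fun σ => ?_) x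
  simp only [LinearMap.comp_apply]
  rw [Tc_single, pf_push, pf_single, Tc_single]

/-- the prism over a homotopy of a simplex -/
noncomputable def prc (n : ℕ) (h : C(Dl n × unitInterval, Y)) : Ch ℤ (n + 1) Y :=
  push (n + 1) h (PL n (Finsupp.single (vtx n) 1))

theorem isAff_prodMap_id (φ : C(K, K')) (hφ : IsAff φ) :
    IsAff (φ.prodMap (ContinuousMap.id unitInterval)) := by
  intro n v x
  rw [comb_prod, comb_prod]
  apply Prod.ext
  · exact hφ n (fun i => (v i).1) x
  · rfl

theorem isAff_prodMk (t : unitInterval) : IsAff (fun k : K => (k, t)) := by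
  intro n v x
  simp only [comb_prod]
  ext1
  · rfl
  · simp only [Function.comp]
    rw [comb_const]

theorem bd_prc (n : ℕ) (h : C(Dl (n + 1) × unitInterval, Y)) :
    bd ℤ (n + 1) Y (prc (n + 1) h) =
      Finsupp.single (h.comp ((ContinuousMap.id _).prodMk (ContinuousMap.const _ 1))) 1 -
      Finsupp.single (h.comp ((ContinuousMap.id _).prodMk (ContinuousMap.const _ 0))) 1 -
      ∑ i : Fin (n + 1), (-1 : ℤ) ^ (i : ℕ) • prc n (h.comp ((cf i).prodMap (ContinuousMap.id _))) := by
  rw [prc, bd_push, bdL_PL, map_sub, map_sub]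
  congr 1
  · congr 1
    · rw [show (fun k : Dl (n + 1) => (k, (1 : unitInterval))) =
        ⇑((ContinuousMap.id (Dl (n + 1))).prodMk (ContinuousMap.const _ (1 : unitInterval))) from rfl,
        push_mapL _ _ _ (isAff_prodMk 1), push_vtx]
    · rw [show (fun k : Dl (n + 1) => (k, (0 : unitInterval))) =
        ⇑((ContinuousMap.id (Dl (n + 1))).prodMk (ContinuousMap.const _ (0 : unitInterval))) from rfl,
        push_mapL _ _ _ (isAff_prodMk 0), push_vtx]
  · rw [bdL, altbd_single, one_smul, map_sum, map_sum]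
    refine Finset.sum_congr rfl (fun i _ => ?_)
    rw [map_smul, map_smul, prc]
    congr 1
    have h1 : ((cf i).prodMap (ContinuousMap.id unitInterval) :
        C(Dl n × unitInterval, Dl (n + 1) × unitInterval)) =
        ((cf i).prodMap (ContinuousMap.id unitInterval)) := rfl
    have haff : IsAff (cf (n := n) i) := by
      intro m v x
      have := isAff_comb (fun j => (stdSimplex.vertex (i.succAbove j) : Dl (n + 1))) m v x
      have h2 : ∀ y : Dl n, cf i y = comb (fun j => (stdSimplex.vertex (i.succAbove j) : Dl (n + 1))) y :=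
        fun y => map_eq_comb _ y
      rw [h2, this]
      congr 1
      funext j
      exact (h2 _).symm
    rw [← push_mapL _ h _ (isAff_prodMap_id (cf i) haff)]
    rw [show ⇑((cf i).prodMap (ContinuousMap.id unitInterval)) = Prod.map (cf (n := n) i) id from rfl,
      mapL_PL, mapL_single]
    congr 3
    funext j
    simp only [Function.comp, vtx]
    change _ = stdSimplex.map (i.succAbove) (stdSimplex.vertex j)
    rw [stdSimplex.map_vertex]

end Pool.Agent.H59
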