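import Pool.Agent.H59.Push

/-! Small simplices. -/

open Topology Set

namespace Pool.Agent.H59

open CvxSp

theorem lin_mem {α M : Type*} [AddCommGroup M] (F : (α →₀ ℤ) →ₗ[ℤ] M) (s : Set α)
    (N : Submodule ℤ M) (h : ∀ a ∈ s, F (Finsupp.single a 1) ∈ N) {x : α →₀ ℤ}
    (hx : x ∈ Finsupp.supported ℤ ℤ s) : F x ∈ N := by
  rw [Finsupp.supported_eq_span_single] at hx
  have : Submodule.span ℤ ((fun i => Finsupp.single i (1 : ℤ)) '' s) ≤ N.comap F := by
    rw [Submodule.span_le]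
    rintro _ ⟨a, ha, rfl⟩
    exact h a ha
  exact this hx

theorem single_mem_supported' {α : Type*} {s : Set α} {a : α} (ha : a ∈ s) (r : ℤ) :
    (Finsupp.single a r) ∈ Finsupp.supported ℤ ℤ s :=
  Finsupp.single_mem_supported ℤ r ha

variable {Y Z : Type*} [TopologicalSpace Y] [TopologicalSpace Z]

/-- chains supported in a set -/
noncomputable def Sup (n : ℕ) (W : Set Y) : Submodule ℤ (Ch ℤ n Y) :=
  Finsupp.supported ℤ ℤ {σ | ∀ x, σ x ∈ W}

/-- chains whose simplices lie in one of two sets -/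
noncomputable def Sml (n : ℕ) (O₁ O₂ : Set Y) : Submodule ℤ (Ch ℤ n Y) :=
  Finsupp.supported ℤ ℤ {σ | (∀ x, σ x ∈ O₁) ∨ (∀ x, σ x ∈ O₂)}

theorem single_mem_Sup {n : ℕ} {W : Set Y} {σ : Smp n Y} (h : ∀ x, σ x ∈ W) (r : ℤ) :
    (Finsupp.single σ r : Ch ℤ n Y) ∈ Sup n W := Finsupp.single_mem_supported ℤ r h

theorem Sup_mono {n : ℕ} {W W' : Set Y} (h : W ⊆ W') : Sup n W ≤ Sup n W' :=
  Finsupp.supported_mono (fun _ hσ x => h (hσ x))

theorem Sup_le_Sml_left {n : ℕ} {O₁ O₂ : Set Y} : Sup n O₁ ≤ Sml n O₁ O₂ :=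
  Finsupp.supported_mono (fun _ hσ => Or.inl hσ)

theorem Sup_le_Sml_right {n : ℕ} {O₁ O₂ : Set Y} : Sup n O₂ ≤ Sml n O₁ O₂ :=
  Finsupp.supported_mono (fun _ hσ => Or.inr hσ)

theorem Sup_inter {n : ℕ} {W W' : Set Y} {x : Ch ℤ n Y} (h : x ∈ Sup n W) (h' : x ∈ Sup n W') :
    x ∈ Sup n (W ∩ W') := by
  rw [Sup, Finsupp.mem_supported] at *
  intro σ hσ y
  exact ⟨h hσ y, h' hσ y⟩

theorem bd_mem_Sup {n : ℕ} {W : Set Y} {x : Ch ℤ (n + 1) Y} (h : x ∈ Sup (n + 1) W) :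
    bd ℤ n Y x ∈ Sup n W := by
  refine lin_mem _ _ _ (fun σ hσ => ?_) h
  rw [bd_single, one_smul]
  exact Submodule.sum_mem _ (fun i _ =>
    Submodule.smul_mem _ _ (single_mem_Sup (fun x => hσ (cf i x)) _))

theorem push_mem_Sup {K : Type*} [TopologicalSpace K] [CvxSp K] {n : ℕ} {W : Set Y} {f : C(K, Y)}
    (hf : ∀ k, f k ∈ W) (x : LL n K) : push n f x ∈ Sup n W := by
  refine lin_mem _ Set.univ _ (fun v _ => ?_) (by simp)
  rw [push_single]
  exact single_mem_Sup (fun x => hf _) _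

theorem Sd_mem_Sup {n : ℕ} {W : Set Y} {x : Ch ℤ n Y} (h : x ∈ Sup n W) : Sd n x ∈ Sup n W := by
  refine lin_mem _ _ _ (fun σ hσ => ?_) h
  rw [Sd_single]
  exact push_mem_Sup hσ _

theorem Tc_mem_Sup {n : ℕ} {W : Set Y} {x : Ch ℤ n Y} (h : x ∈ Sup n W) :
    Tc n x ∈ Sup (n + 1) W := by
  refine lin_mem _ _ _ (fun σ hσ => ?_) h
  rw [Tc_single]
  exact push_mem_Sup hσ _

theorem Sd_mem_Sml {n : ℕ} {O₁ O₂ : Set Y} {x : Ch ℤ n Y} (h : x ∈ Sml n O₁ O₂) :
    Sd n x ∈ Sml n O₁ O₂ := by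
  refine lin_mem _ _ _ (fun σ hσ => ?_) h
  rcases hσ with hσ | hσ
  · exact Sup_le_Sml_left (Sd_mem_Sup (single_mem_Sup hσ 1))
  · exact Sup_le_Sml_right (Sd_mem_Sup (single_mem_Sup hσ 1))

theorem Tc_mem_Sml {n : ℕ} {O₁ O₂ : Set Y} {x : Ch ℤ n Y} (h : x ∈ Sml n O₁ O₂) :
    Tc n x ∈ Sml (n + 1) O₁ O₂ := by
  refine lin_mem _ _ _ (fun σ hσ => ?_) h
  rcases hσ with hσ | hσ
  · exact Sup_le_Sml_left (Tc_mem_Sup (single_mem_Sup hσ 1))
  · exact Sup_le_Sml_right (Tc_mem_Sup (single_mem_Sup hσ 1))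

theorem pf_mem_Sup {n : ℕ} {W : Set Y} {W' : Set Z} {f : C(Y, Z)} (hf : ∀ y ∈ W, f y ∈ W')
    {x : Ch ℤ n Y} (h : x ∈ Sup n W) : pf ℤ n f x ∈ Sup n W' := by
  refine lin_mem _ _ _ (fun σ hσ => ?_) h
  rw [pf_single]
  exact single_mem_Sup (fun x => hf _ (hσ x)) _

theorem pf_mem_Sml {n : ℕ} {O₁ O₂ : Set Y} {O₁' O₂' : Set Z} {f : C(Y, Z)}
    (h₁ : ∀ y ∈ O₁, f y ∈ O₁') (h₂ : ∀ y ∈ O₂, f y ∈ O₂')
    {x : Ch ℤ n Y} (h : x ∈ Sml n O₁ O₂) : pf ℤ n f x ∈ Sml n O₁' O₂' := by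
  refine lin_mem _ _ _ (fun σ hσ => ?_) h
  rcases hσ with hσ | hσ
  · exact Sup_le_Sml_left (pf_mem_Sup h₁ (single_mem_Sup hσ 1))
  · exact Sup_le_Sml_right (pf_mem_Sup h₂ (single_mem_Sup hσ 1))

/-! ### Iterated subdivision -/

/-- iterated subdivision on tuples -/
noncomputable def SdLI {K : Type*} [TopologicalSpace K] [CvxSp K] (n : ℕ) : ℕ → LL n K →ₗ[ℤ] LL n K
  | 0 => LinearMap.id
  | m + 1 => (SdL n).comp (SdLI n m)

/-- iterated subdivision -/
noncomputable def SdI (n : ℕ) : ℕ → Ch ℤ n Y →ₗ[ℤ] Ch ℤ n Y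
  | 0 => LinearMap.id
  | m + 1 => (Sd n).comp (SdI n m)

/-- homotopy from the identity to iterated subdivision -/
noncomputable def DI (n : ℕ) : ℕ → Ch ℤ n Y →ₗ[ℤ] Ch ℤ (n + 1) Y
  | 0 => 0
  | m + 1 => DI n m + (Tc n).comp (SdI n m)

theorem bd_SdI (n m : ℕ) (x : Ch ℤ (n + 1) Y) :
    bd ℤ n Y (SdI (n + 1) m x) = SdI n m (bd ℤ n Y x) := by
  induction m with
  | zero => rfl
  | succ m ih => simp only [SdI, LinearMap.comp_apply, bd_Sd, ih]

theorem bd_DI (n m : ℕ) (x : Ch ℤ (n + 1) Y) :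
    bd ℤ (n + 1) Y (DI (n + 1) m x) = x - SdI (n + 1) m x - DI n m (bd ℤ n Y x) := by
  induction m with
  | zero => simp [DI, SdI]
  | succ m ih =>
    simp only [DI, SdI, LinearMap.add_apply, LinearMap.comp_apply, map_add, ih, bd_Tc, bd_SdI]
    abel

theorem SdI_push {K : Type*} [TopologicalSpace K] [CvxSp K] (n m : ℕ) (f : C(K, Y)) (x : LL n K) :
    SdI n m (push n f x) = push n f (SdLI n m x) := by
  induction m with
  | zero => rfl
  | succ m ih => simp only [SdI, SdLI, LinearMap.comp_apply, ih, Sd_push]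

theorem pf_SdI (n m : ℕ) (g : C(Y, Z)) (x : Ch ℤ n Y) :
    pf ℤ n g (SdI n m x) = SdI n m (pf ℤ n g x) := by
  induction m with
  | zero => rfl
  | succ m ih => simp only [SdI, LinearMap.comp_apply, ← ih, pf_Sd]

theorem pf_DI (n m : ℕ) (g : C(Y, Z)) (x : Ch ℤ n Y) :
    pf ℤ (n + 1) g (DI n m x) = DI n m (pf ℤ n g x) := by
  induction m with
  | zero => simp [DI]
  | succ m ih => simp only [DI, LinearMap.add_apply, LinearMap.comp_apply, map_add, ih, pf_Tc, pf_SdI]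

theorem SdI_mem_Sup {n : ℕ} (m : ℕ) {W : Set Y} {x : Ch ℤ n Y} (h : x ∈ Sup n W) :
    SdI n m x ∈ Sup n W := by
  induction m with
  | zero => exact h
  | succ m ih => exact Sd_mem_Sup ih

theorem DI_mem_Sup {n : ℕ} (m : ℕ) {W : Set Y} {x : Ch ℤ n Y} (h : x ∈ Sup n W) :
    DI n m x ∈ Sup (n + 1) W := by
  induction m with
  | zero => simp [DI]
  | succ m ih => exact Submodule.add_mem _ ih (Tc_mem_Sup (SdI_mem_Sup m h))

theorem DI_sub_mem_Sml {n : ℕ} {O₁ O₂ : Set Y} {x : Ch ℤ n Y} {m₀ : ℕ}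
    (h : ∀ m ≥ m₀, SdI n m x ∈ Sml n O₁ O₂) (M : ℕ) (hM : m₀ ≤ M) :
    DI n M x - DI n m₀ x ∈ Sml (n + 1) O₁ O₂ := by
  induction M, hM using Nat.le_induction with
  | base => simp
  | succ M hM ih =>
    simp only [DI, LinearMap.add_apply, LinearMap.comp_apply]
    rw [add_sub_right_comm]
    exact Submodule.add_mem _ ih (Tc_mem_Sml (h M hM))

/-! ### Estimates -/

/-- contraction constant -/
noncomputable def cc (n : ℕ) : ℝ := n / (n + 1)

theorem cc_nonneg (n : ℕ) : 0 ≤ cc n := by unfold cc; positivity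

theorem cc_lt_one (n : ℕ) : cc n < 1 := by
  unfold cc
  rw [div_lt_one (by positivity)]
  linarith

theorem cc_mono (n : ℕ) : cc n ≤ cc (n + 1) := by
  unfold cc
  rw [div_le_div_iff₀ (by positivity) (by positivity)]
  push_cast
  nlinarith

theorem dist_comb_le {N n : ℕ} (v : Fin n → Dl N) (x : Dl n) (p : Dl N) (M : ℝ)
    (h : ∀ k, dist p (v k) ≤ M) : dist p (comb v x) ≤ M := by
  have hx : ∑ i, x i = 1 := x.2.2
  have h1 : (p.1 - (comb v x : Dl N).1) = ∑ i, x i • (p.1 - (v i).1) := by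
    simp only [smul_sub, Finset.sum_sub_distrib, ← Finset.sum_smul, hx, one_smul]
    rfl
  rw [Subtype.dist_eq, dist_eq_norm, h1]
  calc ‖∑ i, x i • (p.1 - (v i).1)‖ ≤ ∑ i, ‖x i • (p.1 - (v i).1)‖ := norm_sum_le _ _
    _ ≤ ∑ i, x i * M := by
        refine Finset.sum_le_sum (fun i _ => ?_)
        rw [norm_smul, Real.norm_of_nonneg (show 0 ≤ x i from x.2.1 i)]
        refine mul_le_mul_of_nonneg_left ?_ (x.2.1 i)
        rw [← dist_eq_norm, ← Subtype.dist_eq]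
        exact h i
    _ = M := by rw [← Finset.sum_mul, hx, one_mul]

theorem dist_bary_le {N n : ℕ} (v : Fin (n + 1) → Dl N) (δ : ℝ)
    (h : ∀ i j, dist (v i) (v j) ≤ δ) (k : Fin (n + 1)) : dist (bary n v) (v k) ≤ cc n * δ := by
  have hb : (bary n v : Dl N).1 = ∑ i, ((n : ℝ) + 1)⁻¹ • (v i).1 := by
    change ∑ i, (stdSimplex.barycenter : Dl (n + 1)) i • (v i).1 = _
    refine Finset.sum_congr rfl (fun i _ => ?_)
    congr 1
    change (Fintype.card (Fin (n + 1)) : ℝ)⁻¹ = _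
    simp
  have h1 : (bary n v : Dl N).1 - (v k).1 =
      ∑ i, ((n : ℝ) + 1)⁻¹ • ((v i).1 - (v k).1) := by
    rw [hb]
    simp only [smul_sub, Finset.sum_sub_distrib, ← Finset.sum_smul, Finset.sum_const,
      Finset.card_univ, Fintype.card_fin]
    congr 1
    rw [nsmul_eq_mul]
    push_cast
    rw [mul_inv_cancel₀ (by positivity), one_smul]
  rw [Subtype.dist_eq, dist_eq_norm, h1]
  calc ‖∑ i, ((n : ℝ) + 1)⁻¹ • ((v i).1 - (v k).1)‖
      ≤ ∑ i, ‖((n : ℝ) + 1)⁻¹ • ((v i).1 - (v k).1)‖ := norm_sum_le _ _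
    _ = ∑ i, ((n : ℝ) + 1)⁻¹ * dist (v i) (v k) := by
        refine Finset.sum_congr rfl (fun i _ => ?_)
        rw [norm_smul, Real.norm_of_nonneg (by positivity), Subtype.dist_eq, dist_eq_norm]
    _ = ((n : ℝ) + 1)⁻¹ * ∑ i ∈ Finset.univ.erase k, dist (v i) (v k) := by
        rw [← Finset.mul_sum, ← Finset.add_sum_erase _ _ (Finset.mem_univ k), dist_self, zero_add]
    _ ≤ ((n : ℝ) + 1)⁻¹ * (n * δ) := by
        refine mul_le_mul_of_nonneg_left ?_ (by positivity)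
        calc ∑ i ∈ Finset.univ.erase k, dist (v i) (v k)
            ≤ ∑ i ∈ Finset.univ.erase k, δ := Finset.sum_le_sum (fun i _ => h i k)
          _ = n * δ := by simp [Finset.card_erase_of_mem]
    _ = cc n * δ := by unfold cc; field_simp

/-- support of the subdivision -/
theorem SdL_supported {N : ℕ} (n : ℕ) (v : Fin n → Dl N) (δ : ℝ) (h : ∀ i j, dist (v i) (v j) ≤ δ) :
    SdL n (Finsupp.single v 1) ∈ Finsupp.supported ℤ ℤ
      {w : Fin n → Dl N | (∀ i, ∃ x : Dl n, w i = comb v x) ∧ ∀ i j, dist (w i) (w j) ≤ cc n * δ} := by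
  induction n with
  | zero =>
    refine Finsupp.single_mem_supported ℤ 1 ⟨fun i => i.elim0, fun i => i.elim0⟩
  | succ n ih =>
    have hδ : 0 ≤ δ := by simpa using h 0 0
    rw [SdL_succ_single, bdL, altbd_single, one_smul, map_sum, map_sum]
    refine Submodule.sum_mem _ (fun i _ => ?_)
    rw [map_smul, map_smul]
    refine Submodule.smul_mem _ _ ?_
    refine lin_mem _ _ _ (fun u hu => ?_) (ih (v ∘ i.succAbove) (fun a b => h _ _))
    rw [cone_single]
    have hu1 : ∀ j, ∃ x : Dl (n + 1), u j = comb v x := by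
      intro j
      obtain ⟨x, hx⟩ := hu.1 j
      refine ⟨stdSimplex.map i.succAbove x, ?_⟩
      rw [hx, comb_map]
    have key : ∀ j, dist (bary n v) (u j) ≤ cc (n + 1) * δ := by
      intro j
      obtain ⟨x, hx⟩ := hu1 j
      rw [hx]
      refine dist_comb_le v x _ _ (fun k => ?_)
      exact (dist_bary_le v δ h k).trans (mul_le_mul_of_nonneg_right (cc_mono n) hδ)
    refine Finsupp.single_mem_supported ℤ 1 ⟨fun j => ?_, fun a b => ?_⟩
    · refine Fin.cases ?_ (fun j => ?_) j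
      · exact ⟨stdSimplex.barycenter, rfl⟩
      · simpa using hu1 j
    · refine Fin.cases ?_ (fun a => ?_) a <;> refine Fin.cases ?_ (fun b => ?_) b
      · simpa using mul_nonneg (cc_nonneg _) hδ
      · simpa using key b
      · simpa [dist_comm] using key a
      · simp only [Fin.cons_succ]
        exact (hu.2 a b).trans (mul_le_mul_of_nonneg_right (cc_mono n) hδ)

theorem SdLI_supported {n : ℕ} (m : ℕ) :
    SdLI n m (Finsupp.single (vtx n) 1) ∈ Finsupp.supported ℤ ℤ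
      {w : Fin n → Dl n | ∀ i j, dist (w i) (w j) ≤ cc n ^ m} := by
  induction m with
  | zero =>
    refine Finsupp.single_mem_supported ℤ 1 (fun i j => ?_)
    rw [pow_zero, Subtype.dist_eq]
    refine (Metric.dist_le_diam_of_mem (bounded_stdSimplex _) (vtx n i).2 (vtx n j).2).trans ?_
    exact diam_stdSimplex_le
  | succ m ih =>
    rw [SdLI, LinearMap.comp_apply]
    refine lin_mem _ _ _ (fun w hw => ?_) ih
    refine Finsupp.supported_mono ?_ (SdL_supported n w (cc n ^ m) hw)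
    intro w' hw' i j
    rw [pow_succ, mul_comm]
    exact hw'.2 i j

/-- Every simplex becomes small after enough subdivisions. -/
theorem exists_small {n : ℕ} (σ : Smp n Y) {O₁ O₂ : Set Y} (h₁ : IsOpen O₁) (h₂ : IsOpen O₂)
    (h : ∀ x, σ x ∈ O₁ ∪ O₂) : ∃ m₀, ∀ m ≥ m₀, SdI n m (Finsupp.single σ 1) ∈ Sml n O₁ O₂ := by
  obtain ⟨δ, hδ, hleb⟩ := lebesgue_number_lemma_of_metric (s := (Set.univ : Set (Dl n)))
    (c := fun b : Bool => if b then σ ⁻¹' O₁ else σ ⁻¹' O₂) isCompact_univ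
    (by
      intro b
      cases b
      · simpa using h₂.preimage σ.continuous
      · simpa using h₁.preimage σ.continuous)
    (by
      intro x _
      rcases h x with hx | hx
      · exact Set.mem_iUnion.2 ⟨true, by simpa using hx⟩
      · exact Set.mem_iUnion.2 ⟨false, by simpa using hx⟩)
  obtain ⟨m₀, hm₀⟩ := exists_pow_lt_of_lt_one hδ (cc_lt_one n)
  refine ⟨m₀, fun m hm => ?_⟩
  rw [← push_vtx, SdI_push]
  refine lin_mem _ _ _ (fun w hw => ?_) (SdLI_supported m)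
  rw [push_single]
  refine Finsupp.single_mem_supported ℤ 1 ?_
  rcases Nat.eq_zero_or_pos n with rfl | hn
  · left
    intro x
    exact absurd x.2.2 (by simp)
  · obtain ⟨b, hb⟩ := hleb (w ⟨0, hn⟩) (Set.mem_univ _)
    have hlt : cc n ^ m < δ := lt_of_le_of_lt
      (pow_le_pow_of_le_one (cc_nonneg n) (cc_lt_one n).le hm) hm₀
    have hin : ∀ x : Dl n, comb w x ∈ Metric.ball (w ⟨0, hn⟩) δ := by
      intro x
      rw [Metric.mem_ball, dist_comm]
      refine lt_of_le_of_lt (dist_comb_le w x _ (cc n ^ m) (fun k => hw _ _)) hlt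
    cases b
    · right
      intro x
      simpa using hb (hin x)
    · left
      intro x
      simpa using hb (hin x)

end Pool.Agent.H59
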