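import Mathlib

/-!
Extension properties for balls, transfer between norms, and cell by cell extension over a cube grid.
-/

open Set Metric

namespace Pool.Agent.H59.UE

/-- every continuous map from the unit sphere of `V` into `Y` extends to the closed unit ball -/
def ExtV (V : Type*) [NormedAddCommGroup V] {E : Type*} [TopologicalSpace E] (Y : Set E) : Prop :=
  ∀ f : V → E, ContinuousOn f (sphere 0 1) → MapsTo f (sphere 0 1) Y →
    ∃ g : V → E, ContinuousOn g (closedBall 0 1) ∧ MapsTo g (closedBall 0 1) Y ∧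
      EqOn g f (sphere 0 1)

section transfer

variable (V W : Type*) [NormedAddCommGroup V] [NormedSpace ℝ V] [FiniteDimensional ℝ V]
  [NormedAddCommGroup W] [NormedSpace ℝ W] [FiniteDimensional ℝ W]

theorem exists_homeo (h : Module.finrank ℝ V = Module.finrank ℝ W) :
    ∃ φ : V ≃ₜ W, φ '' closedBall 0 1 = closedBall 0 1 ∧ φ '' sphere 0 1 = sphere 0 1 := by
  let L : V ≃L[ℝ] W := ContinuousLinearEquiv.ofFinrankEq h
  have hcl : closure (L '' closedBall (0 : V) 1) = L '' closedBall (0 : V) 1 := by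
    have := L.toHomeomorph.image_closure (closedBall (0 : V) 1)
    rw [closure_closedBall] at this
    exact this.symm
  have hfr : frontier (L '' closedBall (0 : V) 1) = L '' sphere (0 : V) 1 := by
    have := L.toHomeomorph.image_frontier (closedBall (0 : V) 1)
    rw [frontier_closedBall _ one_ne_zero] at this
    exact this.symm
  have hin : (interior (L '' closedBall (0 : V) 1)).Nonempty := by
    have := L.toHomeomorph.image_interior (closedBall (0 : V) 1)
    rw [interior_closedBall _ one_ne_zero] at this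
    have h2 : interior (L '' closedBall (0 : V) 1) = L '' ball (0 : V) 1 := this.symm
    rw [h2]
    exact ⟨L 0, mem_image_of_mem _ (mem_ball_self one_pos)⟩
  obtain ⟨e, h1, h2, h3⟩ := exists_homeomorph_image_interior_closure_frontier_eq_unitBall
    (s := L '' closedBall (0 : V) 1)
    ((convex_closedBall 0 1).linear_image (L : V →L[ℝ] W).toLinearMap) hin
    (by
      have : IsCompact (L '' closedBall (0 : V) 1) :=
        (isCompact_closedBall 0 1).image L.continuous
      exact this.isBounded)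
  refine ⟨L.toHomeomorph.trans e, ?_, ?_⟩
  · show (e ∘ L) '' closedBall 0 1 = closedBall 0 1
    rw [image_comp]
    rw [hcl] at h2
    exact h2
  · show (e ∘ L) '' sphere 0 1 = sphere 0 1
    rw [image_comp]
    rw [hfr] at h3
    exact h3

theorem extV_of_finrank {E : Type*} [TopologicalSpace E] {Y : Set E}
    (h : Module.finrank ℝ V = Module.finrank ℝ W) (hV : ExtV V Y) : ExtV W Y := by
  obtain ⟨φ, h1, h2⟩ := exists_homeo V W h
  intro f hf hfY
  have m1 : MapsTo φ (sphere 0 1) (sphere 0 1) := by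
    intro x hx; rw [← h2]; exact mem_image_of_mem _ hx
  have m2 : MapsTo φ.symm (sphere 0 1) (sphere 0 1) := by
    intro x hx
    rw [← h2] at hx
    obtain ⟨y, hy, rfl⟩ := hx
    simpa using hy
  have m3 : MapsTo φ.symm (closedBall 0 1) (closedBall 0 1) := by
    intro x hx
    rw [← h1] at hx
    obtain ⟨y, hy, rfl⟩ := hx
    simpa using hy
  obtain ⟨g, hg, hgY, hgf⟩ := hV (f ∘ φ) (hf.comp φ.continuous.continuousOn m1)
    (hfY.comp m1)
  refine ⟨g ∘ φ.symm, hg.comp φ.symm.continuous.continuousOn m3, hgY.comp m3, ?_⟩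
  intro x hx
  have := hgf (m2 hx)
  simpa using this

end transfer

section grid

variable {m : ℕ}

/-- the noninteger coordinates -/
noncomputable def nz (x : Fin m → ℝ) : Finset (Fin m) :=
  open Classical in Finset.univ.filter (fun i => (⌊x i⌋ : ℝ) ≠ x i)

theorem mem_nz {x : Fin m → ℝ} {i : Fin m} : i ∈ nz x ↔ (⌊x i⌋ : ℝ) ≠ x i := by
  simp [nz]

/-- the closed cell with free coordinates `J` and lower corner `a` -/
def cell (J : Finset (Fin m)) (a : Fin m → ℤ) : Set (Fin m → ℝ) :=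
  {x | (∀ i ∈ J, (a i : ℝ) ≤ x i ∧ x i ≤ a i + 1) ∧ ∀ i ∉ J, x i = a i}

theorem isClosed_cell (J : Finset (Fin m)) (a : Fin m → ℤ) : IsClosed (cell J a) := by
  have : cell J a = (⋂ i ∈ J, {x : Fin m → ℝ | (a i : ℝ) ≤ x i ∧ x i ≤ a i + 1}) ∩
      ⋂ i ∈ (Finset.univ \ J), {x : Fin m → ℝ | x i = a i} := by
    ext x
    simp [cell]
  rw [this]
  refine IsClosed.inter ?_ ?_
  · refine isClosed_biInter fun i _ => ?_
    exact (isClosed_le continuous_const (continuous_apply i)).inter
      (isClosed_le (continuous_apply i) continuous_const)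
  · refine isClosed_biInter fun i _ => ?_
    exact isClosed_eq (continuous_apply i) continuous_const

/-- coordinates on a cell -/
def crd (J : Finset (Fin m)) (a : Fin m → ℤ) (x : Fin m → ℝ) : J → ℝ :=
  fun i => 2 * (x i - a i) - 1

/-- parametrisation of a cell -/
noncomputable def psi (J : Finset (Fin m)) (a : Fin m → ℤ) (u : J → ℝ) : Fin m → ℝ :=
  fun i => if h : i ∈ J then a i + (u ⟨i, h⟩ + 1) / 2 else a i

theorem continuous_crd (J : Finset (Fin m)) (a : Fin m → ℤ) : Continuous (crd J a) := by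
  unfold crd; fun_prop

theorem continuous_psi (J : Finset (Fin m)) (a : Fin m → ℤ) : Continuous (psi J a) := by
  refine continuous_pi fun i => ?_
  unfold psi
  by_cases h : i ∈ J
  · simp only [h, dif_pos]; fun_prop
  · simp only [h, dif_neg, not_false_iff]; fun_prop

theorem psi_crd {J : Finset (Fin m)} {a : Fin m → ℤ} {x : Fin m → ℝ} (hx : x ∈ cell J a) :
    psi J a (crd J a x) = x := by
  funext i
  unfold psi crd
  by_cases h : i ∈ J
  · simp only [h, dif_pos]; ring
  · simp only [h, dif_neg, not_false_iff]; exact (hx.2 i h).symm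

theorem crd_mem {J : Finset (Fin m)} {a : Fin m → ℤ} {x : Fin m → ℝ} (hx : x ∈ cell J a) :
    crd J a x ∈ closedBall (0 : J → ℝ) 1 := by
  rw [mem_closedBall_zero_iff, pi_norm_le_iff_of_nonneg zero_le_one]
  intro i
  have := hx.1 i i.2
  rw [Real.norm_eq_abs, abs_le]
  unfold crd
  constructor <;> linarith [this.1, this.2]

theorem psi_mem {J : Finset (Fin m)} {a : Fin m → ℤ} {u : J → ℝ}
    (hu : u ∈ closedBall (0 : J → ℝ) 1) : psi J a u ∈ cell J a := by
  rw [mem_closedBall_zero_iff, pi_norm_le_iff_of_nonneg zero_le_one] at hu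
  constructor
  · intro i hi
    have := hu ⟨i, hi⟩
    rw [Real.norm_eq_abs, abs_le] at this
    unfold psi
    simp only [hi, dif_pos]
    constructor <;> linarith [this.1, this.2]
  · intro i hi
    unfold psi
    simp only [hi, dif_neg, not_false_iff]

theorem mem_sphere_iff {κ : Type*} [Fintype κ] {r : ℝ} (hr : 0 < r) {u : κ → ℝ} :
    u ∈ sphere (0 : κ → ℝ) r ↔ (∀ i, |u i| ≤ r) ∧ ∃ i, |u i| = r := by
  rw [mem_sphere_zero_iff_norm]
  constructor
  · intro h
    have h1 : ∀ i, |u i| ≤ r := fun i => by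
      have := norm_le_pi_norm u i
      rwa [h, Real.norm_eq_abs] at this
    refine ⟨h1, ?_⟩
    by_contra hc
    push Not at hc
    have : ‖u‖ < r := by
      rw [pi_norm_lt_iff hr]
      intro i
      exact lt_of_le_of_ne (h1 i) (hc i)
    exact absurd h this.ne
  · rintro ⟨h1, i, hi⟩
    refine le_antisymm ?_ ?_
    · rw [pi_norm_le_iff_of_nonneg hr.le]
      exact h1
    · rw [← hi]
      exact norm_le_pi_norm u i

theorem cell_ext {E : Type*} [TopologicalSpace E] {Y : Set E} {J : Finset (Fin m)}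
    {a : Fin m → ℤ} (hE : ExtV (J → ℝ) Y) (f : (Fin m → ℝ) → E)
    (hf : ContinuousOn f (psi J a '' sphere 0 1))
    (hY : ∀ u ∈ sphere (0 : J → ℝ) 1, f (psi J a u) ∈ Y) :
    ∃ G : (Fin m → ℝ) → E, ContinuousOn G (cell J a) ∧ MapsTo G (cell J a) Y ∧
      ∀ x ∈ cell J a, crd J a x ∈ sphere (0 : J → ℝ) 1 → G x = f x := by
  obtain ⟨g, hg, hgY, hgf⟩ := hE (f ∘ psi J a)
    (hf.comp (continuous_psi J a).continuousOn (fun u hu => mem_image_of_mem _ hu)) hY
  refine ⟨g ∘ crd J a, hg.comp (continuous_crd J a).continuousOn (fun x hx => crd_mem hx),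
    fun x hx => hgY (crd_mem hx), ?_⟩
  intro x hx hxs
  have := hgf hxs
  simp only [Function.comp] at this ⊢
  rw [this, psi_crd hx]

/-- the carrier of a cell -/
def car {E : Type*} (Y : (Fin m → ℤ) → Set E) (J : Finset (Fin m)) (a : Fin m → ℤ) : Set E :=
  {y | ∀ b, cell J a ⊆ cell Finset.univ b → y ∈ Y b}

/-- sphere together with the part of the ball with fewer than `k` noninteger coordinates -/
def sk (N : ℕ) (m k : ℕ) : Set (Fin m → ℝ) :=
  {x | x ∈ closedBall 0 (N : ℝ) ∧ (x ∈ sphere 0 (N : ℝ) ∨ (nz x).card < k)}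

theorem isClosed_nz (k : ℕ) : IsClosed {x : Fin m → ℝ | (nz x).card < k} := by
  rw [← isOpen_compl_iff]
  have : {x : Fin m → ℝ | (nz x).card < k}ᶜ =
      ⋃ J ∈ {J : Finset (Fin m) | J.card = k}, ⋂ i ∈ J, {x : Fin m → ℝ | x i ∈ (range ((↑) : ℤ → ℝ))ᶜ} := by
    ext x
    simp only [mem_compl_iff, mem_ofPred_eq, not_lt, mem_iUnion, mem_iInter, exists_prop]
    constructor
    · intro h
      obtain ⟨J, hJ, hc⟩ := Finset.exists_subset_card_eq h
      refine ⟨J, hc, fun i hi => ?_⟩
      rintro ⟨z, hz⟩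
      have := mem_nz.1 (hJ hi)
      rw [← hz] at this
      simp at this
    · rintro ⟨J, hc, h⟩
      rw [← hc]
      refine Finset.card_le_card fun i hi => ?_
      rw [mem_nz]
      intro h2
      exact h i hi ⟨_, h2⟩
  rw [this]
  refine isOpen_biUnion fun J _ => ?_
  refine isOpen_biInter_finset fun i _ => ?_
  exact (Int.isClosedEmbedding_coe_real.isClosed_range.isOpen_compl).preimage (continuous_apply i)

theorem isClosed_sk (N k : ℕ) : IsClosed (sk N m k) := by
  have : sk N m k = closedBall 0 (N : ℝ) ∩ (sphere 0 (N : ℝ) ∪ {x | (nz x).card < k}) := by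
    ext x; simp [sk]
  rw [this]
  exact isClosed_closedBall.inter (isClosed_sphere.union (isClosed_nz k))

/-- a cell inside the ball, not in the sphere -/
def good (N : ℕ) (J : Finset (Fin m)) (a : Fin m → ℤ) : Prop :=
  (∀ i ∈ J, -(N : ℤ) ≤ a i ∧ a i < N) ∧ ∀ i ∉ J, -(N : ℤ) < a i ∧ a i < N

theorem finite_good (N : ℕ) : Finite {p : Finset (Fin m) × (Fin m → ℤ) // good N p.1 p.2} := by
  have h1 : ({p : Finset (Fin m) × (Fin m → ℤ) | good N p.1 p.2}) ⊆
      (univ : Set (Finset (Fin m))) ×ˢ (Set.Icc (fun _ => -(N : ℤ)) (fun _ => (N : ℤ))) := by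
    rintro ⟨J, a⟩ h
    refine ⟨mem_univ _, ?_, ?_⟩
    · intro i
      by_cases hi : i ∈ J
      · exact (h.1 i hi).1
      · exact (h.2 i hi).1.le
    · intro i
      by_cases hi : i ∈ J
      · exact (h.1 i hi).2.le
      · exact (h.2 i hi).2.le
  exact ((finite_univ.prod (Set.finite_Icc _ _)).subset h1).to_subtype

theorem good_cell_subset {N : ℕ} {J : Finset (Fin m)} {a : Fin m → ℤ} (h : good N J a) :
    cell J a ⊆ closedBall 0 (N : ℝ) := by
  intro x hx
  rw [mem_closedBall_zero_iff, pi_norm_le_iff_of_nonneg (Nat.cast_nonneg N)]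
  intro i
  rw [Real.norm_eq_abs, abs_le]
  by_cases hi : i ∈ J
  · have h1 := h.1 i hi
    have h2 := hx.1 i hi
    have h3 : (-(N : ℝ)) ≤ a i := by exact_mod_cast h1.1
    have h4 : (a i : ℝ) + 1 ≤ N := by exact_mod_cast h1.2
    constructor <;> linarith [h2.1, h2.2]
  · have h1 := h.2 i hi
    have h2 := hx.2 i hi
    have h3 : (-(N : ℝ)) < a i := by exact_mod_cast h1.1
    have h4 : (a i : ℝ) < N := by exact_mod_cast h1.2
    rw [h2]
    constructor <;> linarith

theorem nz_subset_of_mem_cell {J : Finset (Fin m)} {a : Fin m → ℤ} {x : Fin m → ℝ}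
    (hx : x ∈ cell J a) : nz x ⊆ J := by
  intro i hi
  by_contra h
  rw [mem_nz, hx.2 i h] at hi
  simp at hi

/-- a point of a good cell of dimension `k` lying in `sk N m k` is on the boundary of the cell -/
theorem crd_mem_sphere {N k : ℕ} (hN : 0 < N) {J : Finset (Fin m)} {a : Fin m → ℤ}
    (hg : good N J a)
    (hJ : J.card = k) {x : Fin m → ℝ} (hx : x ∈ cell J a) (hxk : x ∈ sk N m k) :
    crd J a x ∈ sphere (0 : J → ℝ) 1 := by
  rw [mem_sphere_iff one_pos]
  refine ⟨fun i => ?_, ?_⟩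
  · have := crd_mem hx
    rw [mem_closedBall_zero_iff, pi_norm_le_iff_of_nonneg zero_le_one] at this
    exact this i
  obtain ⟨hxb, hx2 | hx2⟩ := hxk
  · rw [mem_sphere_iff (by exact_mod_cast hN)] at hx2
    obtain ⟨hx3, i, hi⟩ := hx2
    have hiJ : i ∈ J := by
      by_contra h
      have h1 := hg.2 i h
      have h3 : (-(N : ℝ)) < a i := by exact_mod_cast h1.1
      have h4 : (a i : ℝ) < N := by exact_mod_cast h1.2
      rw [hx.2 i h] at hi
      have : |(a i : ℝ)| < N := abs_lt.2 ⟨h3, h4⟩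
      exact absurd hi this.ne
    refine ⟨⟨i, hiJ⟩, ?_⟩
    have h1 := hg.1 i hiJ
    have h2 := hx.1 i hiJ
    have h3 : (-(N : ℝ)) ≤ a i := by exact_mod_cast h1.1
    have h4 : (a i : ℝ) + 1 ≤ N := by exact_mod_cast h1.2
    unfold crd
    simp only
    rcases abs_eq (by positivity : (0 : ℝ) ≤ N) |>.1 hi with h5 | h5
    · have : x i - a i = 1 := by linarith [h2.2]
      rw [this]; norm_num
    · have : x i - a i = 0 := by linarith [h2.1]
      rw [this]; norm_num
  · have hsub := nz_subset_of_mem_cell hx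
    have hne : nz x ≠ J := by
      intro h; rw [h, hJ] at hx2; exact absurd hx2 (lt_irrefl _)
    obtain ⟨i, hiJ, hi⟩ := Finset.exists_of_ssubset (hsub.ssubset_of_ne hne)
    refine ⟨⟨i, hiJ⟩, ?_⟩
    rw [mem_nz, not_not] at hi
    have h2 := hx.1 i hiJ
    rw [← hi] at h2
    have h3 : a i ≤ ⌊x i⌋ := by exact_mod_cast h2.1
    have h4 : ⌊x i⌋ ≤ a i + 1 := by exact_mod_cast h2.2
    unfold crd
    simp only
    rcases (by omega : ⌊x i⌋ = a i ∨ ⌊x i⌋ = a i + 1) with h5 | h5
    · rw [← hi, h5]; norm_num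
    · rw [← hi, h5]; push_cast; norm_num

/-- boundary points of a good cell of dimension `k` are in `sk N m k` -/
theorem psi_mem_sk {N k : ℕ} {J : Finset (Fin m)} {a : Fin m → ℤ}
    (hg : good N J a)
    (hJ : J.card = k) {u : J → ℝ} (hu : u ∈ sphere (0 : J → ℝ) 1) :
    psi J a u ∈ sk N m k := by
  have hc := psi_mem (a := a) (sphere_subset_closedBall hu)
  refine ⟨good_cell_subset hg hc, Or.inr ?_⟩
  rw [mem_sphere_iff one_pos] at hu
  obtain ⟨i, hi⟩ := hu.2
  have hsub := nz_subset_of_mem_cell hc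
  rw [← hJ]
  refine Finset.card_lt_card (hsub.ssubset_of_ne ?_)
  intro h
  have h1 : (i : Fin m) ∈ nz (psi J a u) := by rw [h]; exact i.2
  rw [mem_nz] at h1
  apply h1
  unfold psi
  simp only [i.2, dif_pos]
  rcases abs_eq (by positivity : (0 : ℝ) ≤ 1) |>.1 hi with h5 | h5
  · rw [h5]
    have : (a i : ℝ) + (1 + 1) / 2 = ((a i + 1 : ℤ) : ℝ) := by push_cast; ring
    rw [this, Int.floor_intCast]
  · rw [h5]
    have : (a i : ℝ) + (-1 + 1) / 2 = ((a i : ℤ) : ℝ) := by push_cast; ring
    rw [this, Int.floor_intCast]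

/-- the lower corner of the cell containing a point -/
noncomputable def fl (x : Fin m → ℝ) : Fin m → ℤ := fun i => ⌊x i⌋

theorem mem_cell_self (x : Fin m → ℝ) : x ∈ cell (nz x) (fl x) := by
  constructor
  · intro i _
    exact ⟨Int.floor_le _, (Int.lt_floor_add_one _).le⟩
  · intro i hi
    rw [mem_nz, not_not] at hi
    exact hi.symm

theorem cell_subset_of_mem {x : Fin m → ℝ} {b : Fin m → ℤ} (h : x ∈ cell Finset.univ b) :
    cell (nz x) (fl x) ⊆ cell Finset.univ b := by
  intro y hy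
  refine ⟨fun i _ => ?_, fun i hi => absurd (Finset.mem_univ i) hi⟩
  have h1 := h.1 i (Finset.mem_univ i)
  by_cases hi : i ∈ nz x
  · have h2 := hy.1 i hi
    rw [mem_nz] at hi
    have h3 : (⌊x i⌋ : ℝ) < x i := lt_of_le_of_ne (Int.floor_le _) hi
    have h4 : x i < ⌊x i⌋ + 1 := Int.lt_floor_add_one _
    have h5 : b i < ⌊x i⌋ + 1 := by
      have : (b i : ℝ) < ⌊x i⌋ + 1 := lt_of_le_of_lt h1.1 h4
      exact_mod_cast this
    have h6 : ⌊x i⌋ < b i + 1 := by
      have : (⌊x i⌋ : ℝ) < b i + 1 := lt_of_lt_of_le h3 h1.2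
      exact_mod_cast this
    have h7 : b i = ⌊x i⌋ := by omega
    rw [h7]
    exact h2
  · have h2 := hy.2 i hi
    rw [mem_nz, not_not] at hi
    have : y i = x i := by rw [h2, ← hi]; simp [fl]
    rw [this]
    exact h1

theorem good_of_notMem {N : ℕ} {x : Fin m → ℝ} (hx : x ∈ closedBall 0 (N : ℝ))
    (hxs : x ∉ sphere 0 (N : ℝ)) : good N (nz x) (fl x) := by
  have hlt : ‖x‖ < N := by
    rw [mem_closedBall_zero_iff] at hx
    rw [mem_sphere_zero_iff_norm] at hxs
    exact lt_of_le_of_ne hx hxs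
  have hi : ∀ i, -(N : ℝ) < x i ∧ x i < N := fun i => by
    have := lt_of_le_of_lt (norm_le_pi_norm x i) hlt
    rw [Real.norm_eq_abs, abs_lt] at this
    exact this
  constructor
  · intro i _
    constructor
    · have : ((-(N : ℤ) : ℤ) : ℝ) ≤ x i := by push_cast; exact (hi i).1.le
      exact Int.le_floor.2 this
    · refine Int.floor_lt.2 ?_
      push_cast
      exact (hi i).2
  · intro i h
    rw [mem_nz, not_not] at h
    have h2 := hi i
    rw [← h] at h2
    constructor
    · exact_mod_cast h2.1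
    · exact_mod_cast h2.2

theorem nz_eq_of_mem {N k : ℕ} {J : Finset (Fin m)} {a : Fin m → ℤ}
    (hJ : J.card = k) {x : Fin m → ℝ} (hx : x ∈ cell J a) (hxb : x ∈ closedBall 0 (N : ℝ))
    (hxk : x ∉ sk N m k) :
    nz x = J ∧ fl x = a := by
  have hsub := nz_subset_of_mem_cell hx
  have hk : k ≤ (nz x).card := by
    by_contra h
    push Not at h
    exact hxk ⟨hxb, Or.inr h⟩
  have h1 : nz x = J := Finset.eq_of_subset_of_card_le hsub (by rw [hJ]; exact hk)
  refine ⟨h1, ?_⟩
  funext i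
  by_cases hi : i ∈ J
  · have h2 := hx.1 i hi
    rw [← h1, mem_nz] at hi
    have h3 : (⌊x i⌋ : ℝ) < x i := lt_of_le_of_ne (Int.floor_le _) hi
    have h4 : x i < ⌊x i⌋ + 1 := Int.lt_floor_add_one _
    have h5 : a i < ⌊x i⌋ + 1 := by
      have : (a i : ℝ) < ⌊x i⌋ + 1 := lt_of_le_of_lt h2.1 h4
      exact_mod_cast this
    have h6 : ⌊x i⌋ < a i + 1 := by
      have : (⌊x i⌋ : ℝ) < a i + 1 := lt_of_lt_of_le h3 h2.2
      exact_mod_cast this
    show ⌊x i⌋ = a i
    omega
  · have h2 := hx.2 i hi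
    show ⌊x i⌋ = a i
    rw [h2, Int.floor_intCast]

theorem grid_step {E : Type*} [TopologicalSpace E] {N : ℕ} (hN : 0 < N)
    (Y : (Fin m → ℤ) → Set E)
    (hE : ∀ (J : Finset (Fin m)) a, ExtV (J → ℝ) (car Y J a)) (k : ℕ) (g : (Fin m → ℝ) → E)
    (hg : ContinuousOn g (sk N m k))
    (hgY : ∀ x ∈ sk N m k, ∀ b, x ∈ cell Finset.univ b → g x ∈ Y b) :
    ∃ g' : (Fin m → ℝ) → E, ContinuousOn g' (sk N m (k + 1)) ∧
      (∀ x ∈ sk N m (k + 1), ∀ b, x ∈ cell Finset.univ b → g' x ∈ Y b) ∧
      EqOn g' g (sk N m k) := by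
  classical
  have hex : ∀ (J : Finset (Fin m)) (a : Fin m → ℤ), ∃ G : (Fin m → ℝ) → E,
      good N J a → J.card = k → (ContinuousOn G (cell J a) ∧ MapsTo G (cell J a) (car Y J a) ∧
        ∀ x ∈ cell J a, crd J a x ∈ sphere (0 : J → ℝ) 1 → G x = g x) := by
    intro J a
    by_cases h : good N J a ∧ J.card = k
    · obtain ⟨G, hG⟩ := cell_ext (hE J a) g
        (hg.mono (by rintro _ ⟨u, hu, rfl⟩; exact psi_mem_sk h.1 h.2 hu))
        (fun u hu b hb => hgY _ (psi_mem_sk h.1 h.2 hu) b
          (hb (psi_mem (sphere_subset_closedBall hu))))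
      exact ⟨G, fun _ _ => hG⟩
    · exact ⟨g, fun h1 h2 => absurd ⟨h1, h2⟩ h⟩
  choose G hG using hex
  let F : (Fin m → ℝ) → E := fun x => if x ∈ sk N m k then g x else G (nz x) (fl x) x
  have hF1 : EqOn F g (sk N m k) := fun x hx => if_pos hx
  have hF2 : ∀ (J : Finset (Fin m)) (a : Fin m → ℤ), good N J a → J.card = k →
      EqOn F (G J a) (cell J a) := by
    intro J a hga hJ x hx
    by_cases hxk : x ∈ sk N m k
    · rw [hF1 hxk]
      exact ((hG J a hga hJ).2.2 x hx (crd_mem_sphere hN hga hJ hx hxk)).symm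
    · have := nz_eq_of_mem hJ hx (good_cell_subset hga hx) hxk
      show (if x ∈ sk N m k then g x else G (nz x) (fl x) x) = _
      rw [if_neg hxk, this.1, this.2]
  have hcov : sk N m (k + 1) ⊆ sk N m k ∪
      ⋃ p : {p : Finset (Fin m) × (Fin m → ℤ) // good N p.1 p.2},
        (if p.1.1.card = k then cell p.1.1 p.1.2 else ∅) := by
    intro x hx
    by_cases hxk : x ∈ sk N m k
    · exact Or.inl hxk
    · right
      have hxs : x ∉ sphere 0 (N : ℝ) := fun h => hxk ⟨hx.1, Or.inl h⟩
      have hcard : (nz x).card = k := by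
        rcases hx.2 with h | h
        · exact absurd h hxs
        · have : ¬ (nz x).card < k := fun h => hxk ⟨hx.1, Or.inr h⟩
          omega
      refine mem_iUnion.2 ⟨⟨(nz x, fl x), good_of_notMem hx.1 hxs⟩, ?_⟩
      simp only [hcard, if_true]
      exact mem_cell_self x
  refine ⟨F, ?_, ?_, hF1⟩
  · refine ContinuousOn.mono ?_ hcov
    have := finite_good (m := m) N
    have hclp : ∀ p : {p : Finset (Fin m) × (Fin m → ℤ) // good N p.1 p.2},
        IsClosed (if p.1.1.card = k then cell p.1.1 p.1.2 else ∅) := by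
      intro p
      split_ifs
      · exact isClosed_cell _ _
      · exact isClosed_empty
    refine ContinuousOn.union_of_isClosed ?_ ?_ (isClosed_sk N k) ?_
    · exact hg.congr hF1
    · refine (locallyFinite_of_finite _).continuousOn_iUnion hclp ?_
      intro p
      split_ifs with h
      · exact (hG _ _ p.2 h).1.congr (hF2 _ _ p.2 h)
      · exact continuousOn_empty _
    · exact isClosed_iUnion_of_finite hclp
  · intro x hx b hb
    by_cases hxk : x ∈ sk N m k
    · rw [hF1 hxk]; exact hgY x hxk b hb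
    · have hxs : x ∉ sphere 0 (N : ℝ) := fun h => hxk ⟨hx.1, Or.inl h⟩
      have hcard : (nz x).card = k := by
        rcases hx.2 with h | h
        · exact absurd h hxs
        · have : ¬ (nz x).card < k := fun h => hxk ⟨hx.1, Or.inr h⟩
          omega
      have hgd := good_of_notMem hx.1 hxs
      have h1 := hF2 _ _ hgd hcard (mem_cell_self x)
      rw [h1]
      exact (hG _ _ hgd hcard).2.1 (mem_cell_self x) b (cell_subset_of_mem hb)

theorem grid_ext {E : Type*} [TopologicalSpace E] {N : ℕ} (hN : 0 < N)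
    (Y : (Fin m → ℤ) → Set E)
    (hE : ∀ (J : Finset (Fin m)) a, ExtV (J → ℝ) (car Y J a)) (f : (Fin m → ℝ) → E)
    (hf : ContinuousOn f (sphere 0 (N : ℝ)))
    (hfY : ∀ x ∈ sphere (0 : Fin m → ℝ) (N : ℝ), ∀ b, x ∈ cell Finset.univ b → f x ∈ Y b) :
    ∃ g : (Fin m → ℝ) → E, ContinuousOn g (closedBall 0 (N : ℝ)) ∧
      (∀ x ∈ closedBall (0 : Fin m → ℝ) (N : ℝ), ∀ b, x ∈ cell Finset.univ b → g x ∈ Y b) ∧
      EqOn g f (sphere 0 (N : ℝ)) := by
  have hsk0 : sk N m 0 = sphere 0 (N : ℝ) := by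
    ext x
    constructor
    · rintro ⟨_, h | h⟩
      · exact h
      · exact absurd h (Nat.not_lt_zero _)
    · intro h
      exact ⟨sphere_subset_closedBall h, Or.inl h⟩
  have key : ∀ k, ∃ g : (Fin m → ℝ) → E, ContinuousOn g (sk N m k) ∧
      (∀ x ∈ sk N m k, ∀ b, x ∈ cell Finset.univ b → g x ∈ Y b) ∧
      EqOn g f (sphere 0 (N : ℝ)) := by
    intro k
    induction k with
    | zero =>
      refine ⟨f, ?_, ?_, fun x _ => rfl⟩
      · rw [hsk0]; exact hf
      · rw [hsk0]; exact hfY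
    | succ k ih =>
      obtain ⟨g, h1, h2, h3⟩ := ih
      obtain ⟨g', h1', h2', h3'⟩ := grid_step hN Y hE k g h1 h2
      refine ⟨g', h1', h2', fun x hx => ?_⟩
      rw [h3' ⟨sphere_subset_closedBall hx, Or.inl hx⟩, h3 hx]
  obtain ⟨g, h1, h2, h3⟩ := key (m + 1)
  have hsk : sk N m (m + 1) = closedBall 0 (N : ℝ) := by
    ext x
    constructor
    · exact fun h => h.1
    · intro h
      refine ⟨h, Or.inr ?_⟩
      have := Finset.card_le_univ (nz x)
      rw [Fintype.card_fin] at this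
      omega
  rw [hsk] at h1 h2
  exact ⟨g, h1, h2, h3⟩

end grid

end Pool.Agent.H59.UE
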