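import Pool.Agent.H59.UE1

/-!
The gluing lemma for the extension property of realizations of two subcomplexes.
-/

open Set Metric

namespace Pool.Agent.H59.UE

theorem collar {V : Type*} [NormedAddCommGroup V] [NormedSpace ℝ V] {E : Type*}
    [TopologicalSpace E] {Y : Set E} (f : V → E) (hf : ContinuousOn f (sphere 0 1))
    (hfY : MapsTo f (sphere 0 1) Y) (H : ℝ × E → E)
    (hH : ContinuousOn H (Icc (0 : ℝ) 1 ×ˢ Y)) (hHY : MapsTo H (Icc (0 : ℝ) 1 ×ˢ Y) Y)
    (h0 : ∀ y ∈ Y, H (0, y) = y) (g' : V → E) (hg' : ContinuousOn g' (closedBall 0 1))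
    (hg'Y : MapsTo g' (closedBall 0 1) Y) (hg'f : ∀ x ∈ sphere (0 : V) 1, g' x = H (1, f x)) :
    ∃ g : V → E, ContinuousOn g (closedBall 0 1) ∧ MapsTo g (closedBall 0 1) Y ∧
      EqOn g f (sphere 0 1) := by
  classical
  let F : V → E := fun x => if ‖x‖ ≤ 1 / 2 then g' ((2 : ℝ) • x) else
    H (2 * (1 - ‖x‖), f (‖x‖⁻¹ • x))
  have hF1 : EqOn F (fun x => g' ((2 : ℝ) • x)) {x | ‖x‖ ≤ 1 / 2} := fun x hx => if_pos hx
  have hsph : ∀ x : V, 1 / 2 ≤ ‖x‖ → ‖x‖⁻¹ • x ∈ sphere (0 : V) 1 := by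
    intro x hx
    rw [mem_sphere_zero_iff_norm, norm_smul, norm_inv, norm_norm]
    exact inv_mul_cancel₀ (by linarith)
  have hF2 : EqOn F (fun x => H (2 * (1 - ‖x‖), f (‖x‖⁻¹ • x))) {x | 1 / 2 ≤ ‖x‖ ∧ ‖x‖ ≤ 1} := by
    intro x hx
    by_cases h : ‖x‖ ≤ 1 / 2
    · have h2 : ‖x‖ = 1 / 2 := le_antisymm h hx.1
      rw [hF1 h]
      have h3 : ‖x‖⁻¹ = 2 := by rw [h2]; norm_num
      have h4 := hsph x hx.1
      rw [h3] at h4
      show g' ((2 : ℝ) • x) = H (2 * (1 - ‖x‖), f (‖x‖⁻¹ • x))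
      rw [h3, hg'f _ h4, h2]
      norm_num
    · exact if_neg h
  have hcov : closedBall (0 : V) 1 = {x | ‖x‖ ≤ 1 / 2} ∪ {x | 1 / 2 ≤ ‖x‖ ∧ ‖x‖ ≤ 1} := by
    ext x
    simp only [mem_closedBall_zero_iff, mem_union, mem_ofPred_eq]
    constructor
    · intro h
      rcases le_total ‖x‖ (1 / 2) with h1 | h1
      · exact Or.inl h1
      · exact Or.inr ⟨h1, h⟩
    · rintro (h | h)
      · linarith
      · exact h.2
  have hm1 : ∀ x : V, ‖x‖ ≤ 1 / 2 → (2 : ℝ) • x ∈ closedBall (0 : V) 1 := by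
    intro x hx
    rw [mem_closedBall_zero_iff, norm_smul]
    norm_num
    linarith
  have hm2 : ∀ x : V, 1 / 2 ≤ ‖x‖ → ‖x‖ ≤ 1 →
      (2 * (1 - ‖x‖), f (‖x‖⁻¹ • x)) ∈ Icc (0 : ℝ) 1 ×ˢ Y := by
    intro x hx hx2
    exact ⟨⟨by linarith, by linarith⟩, hfY (hsph x hx)⟩
  refine ⟨F, ?_, ?_, ?_⟩
  · rw [hcov]
    refine ContinuousOn.union_of_isClosed ?_ ?_ (isClosed_le continuous_norm continuous_const)
      ((isClosed_le continuous_const continuous_norm).inter
        (isClosed_le continuous_norm continuous_const))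
    · refine ContinuousOn.congr ?_ hF1
      exact hg'.comp (by fun_prop) (fun x hx => hm1 x hx)
    · refine ContinuousOn.congr ?_ hF2
      have hc : ContinuousOn (fun x : V => (2 * (1 - ‖x‖), f (‖x‖⁻¹ • x)))
          {x | 1 / 2 ≤ ‖x‖ ∧ ‖x‖ ≤ 1} := by
        refine ContinuousOn.prodMk (by fun_prop) ?_
        refine hf.comp ?_ (fun x hx => hsph x hx.1)
        refine ContinuousOn.smul (ContinuousOn.inv₀ continuous_norm.continuousOn ?_)
          continuousOn_id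
        intro x hx
        have := hx.1
        positivity
      exact hH.comp hc (fun x hx => hm2 x hx.1 hx.2)
  · intro x hx
    rw [hcov] at hx
    rcases hx with hx | hx
    · rw [hF1 hx]; exact hg'Y (hm1 x hx)
    · rw [hF2 hx]; exact hHY (hm2 x hx.1 hx.2)
  · intro x hx
    have hx1 : ‖x‖ = 1 := mem_sphere_zero_iff_norm.1 hx
    rw [hF2 ⟨by rw [hx1]; norm_num, hx1.le⟩]
    simp only [hx1, sub_self, mul_zero, inv_one, one_smul]
    exact h0 _ (hfY hx)

section real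

variable {ι : Type*} [Fintype ι]

/-- geometric realization of a family of vertex sets -/
def Rz (A : Set (Set ι)) : Set (ι → ℝ) :=
  {x | (∀ i, 0 ≤ x i) ∧ ∑ i, x i = 1 ∧ Function.support x ∈ A}

/-- threshold map -/
noncomputable def thr (s : ℝ) (y : ι → ℝ) : ι → ℝ :=
  fun i => max (y i - s) 0 / ∑ j, max (y j - s) 0

/-- threshold level -/
noncomputable def eps (ι : Type*) [Fintype ι] : ℝ := 1 / (Fintype.card ι + 1)

theorem eps_pos : 0 < eps ι := by unfold eps; positivity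

theorem thr_sum_pos {s : ℝ} (hs : s ≤ eps ι) {y : ι → ℝ} (hy : ∑ i, y i = 1) :
    0 < ∑ j, max (y j - s) 0 := by
  have h1 : ∑ j, (y j - s) ≤ ∑ j, max (y j - s) 0 :=
    Finset.sum_le_sum fun j _ => le_max_left _ _
  rw [Finset.sum_sub_distrib, hy, Finset.sum_const, Finset.card_univ, nsmul_eq_mul] at h1
  refine lt_of_lt_of_le ?_ h1
  have h2 : (Fintype.card ι : ℝ) * s ≤ Fintype.card ι * eps ι :=
    mul_le_mul_of_nonneg_left hs (Nat.cast_nonneg _)
  have h3 : (Fintype.card ι : ℝ) * eps ι < 1 := by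
    unfold eps
    rw [mul_one_div, div_lt_one (by positivity)]
    linarith
  linarith

theorem thr_nonneg {s : ℝ} (y : ι → ℝ) (i : ι) : 0 ≤ thr s y i :=
  div_nonneg (le_max_right _ _) (Finset.sum_nonneg fun _ _ => le_max_right _ _)

theorem thr_sum {s : ℝ} (hs : s ≤ eps ι) {y : ι → ℝ} (hy : ∑ i, y i = 1) :
    ∑ i, thr s y i = 1 := by
  unfold thr
  rw [← Finset.sum_div]
  exact div_self (thr_sum_pos hs hy).ne'

theorem support_thr {s : ℝ} (y : ι → ℝ) : Function.support (thr s y) ⊆ {i | s < y i} := by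
  intro i hi
  by_contra h
  apply hi
  have : y i - s ≤ 0 := by
    have : ¬ s < y i := h
    linarith
  unfold thr
  rw [max_eq_right this, zero_div]

theorem support_nonempty {x : ι → ℝ} (h : ∑ i, x i = 1) : (Function.support x).Nonempty := by
  by_contra hc
  rw [not_nonempty_iff_eq_empty, Function.support_eq_empty_iff] at hc
  rw [hc] at h
  simp at h

/-- closed under nonempty subsets -/
def Dn (A : Set (Set ι)) : Prop := ∀ s ∈ A, ∀ t ⊆ s, t.Nonempty → t ∈ A

theorem thr_mem {A : Set (Set ι)} (hA : Dn A) {s : ℝ} (hs : s ≤ eps ι) {y : ι → ℝ}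
    (hy : ∑ i, y i = 1) {t : Set ι} (ht : t ∈ A) (h : ∀ i, s < y i → i ∈ t) :
    thr s y ∈ Rz A := by
  refine ⟨thr_nonneg y, thr_sum hs hy, ?_⟩
  exact hA t ht _ ((support_thr y).trans h) (support_nonempty (thr_sum hs hy))

theorem thr_mem' {A : Set (Set ι)} (hA : Dn A) {s : ℝ} (h0 : 0 ≤ s) (hs : s ≤ eps ι) {y : ι → ℝ}
    (hy : y ∈ Rz A) : thr s y ∈ Rz A :=
  thr_mem hA hs hy.2.1 hy.2.2 fun _ hi => (lt_of_le_of_lt h0 hi).ne'

theorem thr_zero {y : ι → ℝ} (hy0 : ∀ i, 0 ≤ y i) (hy : ∑ i, y i = 1) : thr 0 y = y := by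
  have h : ∀ i, max (y i - 0) 0 = y i := fun i => by rw [sub_zero, max_eq_left (hy0 i)]
  funext i
  unfold thr
  simp only [h, hy, div_one]

theorem continuousOn_thr (A : Set (Set ι)) :
    ContinuousOn (fun p : ℝ × (ι → ℝ) => thr p.1 p.2) (Iic (eps ι) ×ˢ Rz A) := by
  refine continuousOn_pi.2 fun i => ?_
  unfold thr
  refine ContinuousOn.div (by fun_prop) (by fun_prop) ?_
  rintro ⟨s, y⟩ ⟨hs, hy⟩
  exact (thr_sum_pos hs hy.2.1).ne'

theorem Rz_union (A B : Set (Set ι)) : Rz (A ∪ B) = Rz A ∪ Rz B := by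
  ext x
  constructor
  · rintro ⟨h1, h2, h3 | h3⟩
    · exact Or.inl ⟨h1, h2, h3⟩
    · exact Or.inr ⟨h1, h2, h3⟩
  · rintro (⟨h1, h2, h3⟩ | ⟨h1, h2, h3⟩)
    · exact ⟨h1, h2, Or.inl h3⟩
    · exact ⟨h1, h2, Or.inr h3⟩

theorem Rz_inter (A B : Set (Set ι)) : Rz (A ∩ B) = Rz A ∩ Rz B := by
  ext x
  constructor
  · rintro ⟨h1, h2, h3⟩
    exact ⟨⟨h1, h2, h3.1⟩, ⟨h1, h2, h3.2⟩⟩
  · rintro ⟨⟨h1, h2, h3⟩, ⟨_, _, h4⟩⟩
    exact ⟨h1, h2, h3, h4⟩

theorem cell_subset_univ {m : ℕ} (J : Finset (Fin m)) (a : Fin m → ℤ) :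
    cell J a ⊆ cell Finset.univ a := by
  intro x hx
  refine ⟨fun i _ => ?_, fun i hi => absurd (Finset.mem_univ i) hi⟩
  by_cases hi : i ∈ J
  · exact hx.1 i hi
  · rw [hx.2 i hi]; exact ⟨le_refl _, by linarith⟩

theorem cell_univ_inj {m : ℕ} {a b : Fin m → ℤ}
    (h : cell Finset.univ a ⊆ cell Finset.univ b) : a = b := by
  funext i
  have h1 : (fun i => (a i : ℝ)) ∈ cell Finset.univ a :=
    ⟨fun i _ => ⟨le_refl _, by linarith⟩, fun i hi => absurd (Finset.mem_univ i) hi⟩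
  have h2 : (fun i => (a i : ℝ) + 1) ∈ cell Finset.univ a :=
    ⟨fun i _ => ⟨by linarith, le_refl _⟩, fun i hi => absurd (Finset.mem_univ i) hi⟩
  have h3 : (b i : ℝ) ≤ a i ∧ (a i : ℝ) ≤ b i + 1 := (h h1).1 i (Finset.mem_univ i)
  have h4 : (b i : ℝ) ≤ a i + 1 ∧ (a i : ℝ) + 1 ≤ b i + 1 := (h h2).1 i (Finset.mem_univ i)
  have h5 : b i ≤ a i := by exact_mod_cast h3.1
  have h6 : a i ≤ b i := by
    have : (a i : ℝ) ≤ b i := by linarith [h4.2]
    exact_mod_cast this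
  omega

/-- the extension property in dimension `m`, with the Euclidean ball -/
def Ext (m : ℕ) {E : Type*} [TopologicalSpace E] (Y : Set E) : Prop :=
  ExtV (EuclideanSpace ℝ (Fin m)) Y

theorem Ext.toJ {m : ℕ} {E : Type*} [TopologicalSpace E] {Y : Set E} (h : Ext m Y)
    {J : Type*} [Fintype J] (hJ : Fintype.card J = m) : ExtV (J → ℝ) Y :=
  extV_of_finrank _ _ (by simp [hJ]) h

theorem union_ext (A B : Set (Set ι)) (hA : Dn A) (hB : Dn B) (n : ℕ)
    (h1 : ∀ m ≤ n, Ext m (Rz A)) (h2 : ∀ m ≤ n, Ext m (Rz B))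
    (h3 : ∀ m < n, Ext m (Rz (A ∩ B))) : ∀ m ≤ n, Ext m (Rz (A ∪ B)) := by
  classical
  intro m hm
  refine extV_of_finrank (Fin m → ℝ) _ (by simp) ?_
  intro f hf hfY
  have huc : UniformContinuousOn f (sphere 0 1) :=
    (isCompact_sphere _ _).uniformContinuousOn_of_continuous hf
  rw [Metric.uniformContinuousOn_iff] at huc
  obtain ⟨δ, hδ, hfδ⟩ := huc (eps ι) eps_pos
  obtain ⟨M, hM⟩ := exists_nat_one_div_lt hδ
  let N : ℕ := M + 1
  have hN : 0 < N := Nat.succ_pos M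
  have hNr : (0 : ℝ) < N := by exact_mod_cast hN
  have hND : (N : ℝ)⁻¹ < δ := by
    have : (N : ℝ)⁻¹ = 1 / ((M : ℝ) + 1) := by simp [N]
    rw [this]; exact hM
  have hsc : ∀ x ∈ sphere (0 : Fin m → ℝ) (N : ℝ), (N : ℝ)⁻¹ • x ∈ sphere (0 : Fin m → ℝ) 1 := by
    intro x hx
    rw [mem_sphere_zero_iff_norm] at hx ⊢
    rw [norm_smul, hx, norm_inv, Real.norm_natCast]
    exact inv_mul_cancel₀ hNr.ne'
  let P : (Fin m → ℤ) → Prop := fun b => ∃ x0 ∈ sphere (0 : Fin m → ℝ) (N : ℝ),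
    x0 ∈ cell Finset.univ b ∧ f ((N : ℝ)⁻¹ • x0) ∈ Rz A
  let Y : (Fin m → ℤ) → Set (ι → ℝ) := fun b => if P b then Rz A else Rz B
  have hYA : ∀ b, P b → Y b = Rz A := fun b hb => if_pos hb
  have hYB : ∀ b, ¬ P b → Y b = Rz B := fun b hb => if_neg hb
  have hYU : ∀ b, Y b ⊆ Rz (A ∪ B) := by
    intro b
    rw [Rz_union]
    by_cases hb : P b
    · rw [hYA b hb]; exact subset_union_left
    · rw [hYB b hb]; exact subset_union_right
  have hE : ∀ (J : Finset (Fin m)) a, ExtV (J → ℝ) (car Y J a) := by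
    intro J a
    have hJm : J.card ≤ m := by
      have := Finset.card_le_univ J
      rwa [Fintype.card_fin] at this
    have hcJ : Fintype.card J = J.card := Fintype.card_coe J
    by_cases hP : ∃ b, cell J a ⊆ cell Finset.univ b ∧ P b
    · by_cases hQ : ∃ b, cell J a ⊆ cell Finset.univ b ∧ ¬ P b
      · have hJlt : J.card < m := by
          refine lt_of_le_of_ne hJm ?_
          intro hc
          have hJu : J = Finset.univ := by
            apply Finset.eq_univ_of_card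
            rw [hc, Fintype.card_fin]
          subst hJu
          obtain ⟨b, hb, hPb⟩ := hP
          obtain ⟨c, hc', hPc⟩ := hQ
          rw [← cell_univ_inj hb] at hPb
          rw [← cell_univ_inj hc'] at hPc
          exact hPc hPb
        have hcar : car Y J a = Rz (A ∩ B) := by
          rw [Rz_inter]
          ext y
          constructor
          · intro hy
            obtain ⟨b, hb, hPb⟩ := hP
            obtain ⟨c, hc', hPc⟩ := hQ
            have e1 := hy b hb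
            have e2 := hy c hc'
            rw [hYA b hPb] at e1
            rw [hYB c hPc] at e2
            exact ⟨e1, e2⟩
          · rintro ⟨e1, e2⟩ b hb
            by_cases hPb : P b
            · rw [hYA b hPb]; exact e1
            · rw [hYB b hPb]; exact e2
        rw [hcar]
        exact (h3 _ (lt_of_lt_of_le hJlt hm)).toJ hcJ
      · have hcar : car Y J a = Rz A := by
          ext y
          constructor
          · intro hy
            obtain ⟨b, hb, hPb⟩ := hP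
            have e1 := hy b hb
            rwa [hYA b hPb] at e1
          · intro e1 b hb
            have hPb : P b := by
              by_contra hc
              exact hQ ⟨b, hb, hc⟩
            rw [hYA b hPb]; exact e1
        rw [hcar]
        exact (h1 _ (hJm.trans hm)).toJ hcJ
    · have hcar : car Y J a = Rz B := by
        ext y
        constructor
        · intro hy
          have e1 := hy a (cell_subset_univ J a)
          have hPb : ¬ P a := fun hc => hP ⟨a, cell_subset_univ J a, hc⟩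
          rwa [hYB a hPb] at e1
        · intro e1 b hb
          have hPb : ¬ P b := fun hc => hP ⟨b, hb, hc⟩
          rw [hYB b hPb]; exact e1
      rw [hcar]
      exact (h2 _ (hJm.trans hm)).toJ hcJ
  have hfN : ContinuousOn (fun x => thr (eps ι) (f ((N : ℝ)⁻¹ • x)))
      (sphere (0 : Fin m → ℝ) (N : ℝ)) := by
    have hc : ContinuousOn (fun x : Fin m → ℝ => (eps ι, f ((N : ℝ)⁻¹ • x)))
        (sphere (0 : Fin m → ℝ) (N : ℝ)) :=
      ContinuousOn.prodMk continuousOn_const (hf.comp (by fun_prop) (fun x hx => hsc x hx))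
    exact (continuousOn_thr (A ∪ B)).comp hc
      (fun x hx => ⟨le_refl (eps ι), hfY (hsc x hx)⟩)
  have hfNY : ∀ x ∈ sphere (0 : Fin m → ℝ) (N : ℝ), ∀ b, x ∈ cell Finset.univ b →
      thr (eps ι) (f ((N : ℝ)⁻¹ • x)) ∈ Y b := by
    intro x hx b hb
    have hfx := hfY (hsc x hx)
    by_cases hPb : P b
    · obtain ⟨x0, hx0, hx0b, hx0A⟩ := hPb
      rw [hYA b ⟨x0, hx0, hx0b, hx0A⟩]
      refine thr_mem hA le_rfl hfx.2.1 hx0A.2.2 ?_
      intro i hi
      have hd : dist ((N : ℝ)⁻¹ • x) ((N : ℝ)⁻¹ • x0) < δ := by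
        rw [dist_smul₀, norm_inv, Real.norm_natCast]
        have hd1 : dist x x0 ≤ 1 := by
          rw [dist_pi_le_iff zero_le_one]
          intro j
          have e1 := hb.1 j (Finset.mem_univ j)
          have e2 := hx0b.1 j (Finset.mem_univ j)
          rw [Real.dist_eq, abs_le]
          constructor <;> linarith [e1.1, e1.2, e2.1, e2.2]
        calc (N : ℝ)⁻¹ * dist x x0 ≤ (N : ℝ)⁻¹ * 1 :=
              mul_le_mul_of_nonneg_left hd1 (by positivity)
          _ < δ := by rw [mul_one]; exact hND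
      have h4 := hfδ _ (hsc x hx) _ (hsc x0 hx0) hd
      have h5 := lt_of_le_of_lt (dist_le_pi_dist (f ((N : ℝ)⁻¹ • x)) (f ((N : ℝ)⁻¹ • x0)) i) h4
      rw [Real.dist_eq, abs_lt] at h5
      have h6 : 0 < f ((N : ℝ)⁻¹ • x0) i := by linarith [h5.2]
      exact h6.ne'
    · rw [hYB b hPb]
      rw [Rz_union] at hfx
      rcases hfx with hfx | hfx
      · exact absurd ⟨x, hx, hb, hfx⟩ hPb
      · exact thr_mem' hB eps_pos.le le_rfl hfx
  obtain ⟨g, hg1, hg2, hg3⟩ := grid_ext hN Y hE _ hfN hfNY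
  have hAB : Dn (A ∪ B) := by
    rintro s (hs | hs) t hts htn
    · exact Or.inl (hA s hs t hts htn)
    · exact Or.inr (hB s hs t hts htn)
  have hsc2 : ∀ x ∈ closedBall (0 : Fin m → ℝ) 1, (N : ℝ) • x ∈ closedBall (0 : Fin m → ℝ) (N : ℝ) := by
    intro x hx
    rw [mem_closedBall_zero_iff] at hx ⊢
    rw [norm_smul, Real.norm_natCast]
    calc (N : ℝ) * ‖x‖ ≤ N * 1 := mul_le_mul_of_nonneg_left hx hNr.le
      _ = N := mul_one _
  have hsc3 : ∀ x ∈ sphere (0 : Fin m → ℝ) 1, (N : ℝ) • x ∈ sphere (0 : Fin m → ℝ) (N : ℝ) := by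
    intro x hx
    rw [mem_sphere_zero_iff_norm] at hx ⊢
    rw [norm_smul, Real.norm_natCast, hx, mul_one]
  have heps : ∀ t ∈ Icc (0 : ℝ) 1, 0 ≤ t * eps ι ∧ t * eps ι ≤ eps ι := by
    intro t ht
    have := eps_pos (ι := ι)
    exact ⟨mul_nonneg ht.1 this.le, by nlinarith [ht.2]⟩
  refine collar f hf hfY (fun p => thr (p.1 * eps ι) p.2) ?_ ?_ ?_ (fun x => g ((N : ℝ) • x))
    ?_ ?_ ?_
  · have hc : ContinuousOn (fun p : ℝ × (ι → ℝ) => (p.1 * eps ι, p.2))
        (Icc (0 : ℝ) 1 ×ˢ Rz (A ∪ B)) := by fun_prop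
    exact (continuousOn_thr (A ∪ B)).comp hc (fun p hp => ⟨(heps _ hp.1).2, hp.2⟩)
  · intro p hp
    exact thr_mem' hAB (heps _ hp.1).1 (heps _ hp.1).2 hp.2
  · intro y hy
    simp only [zero_mul]
    exact thr_zero hy.1 hy.2.1
  · exact hg1.comp (by fun_prop) (fun x hx => hsc2 x hx)
  · intro x hx
    refine hYU (fl ((N : ℝ) • x)) (hg2 _ (hsc2 x hx) _ ?_)
    exact ⟨fun i _ => ⟨Int.floor_le _, (Int.lt_floor_add_one _).le⟩,
      fun i hi => absurd (Finset.mem_univ i) hi⟩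
  · intro x hx
    show g ((N : ℝ) • x) = thr (1 * eps ι) (f x)
    rw [hg3 (hsc3 x hx), one_mul]
    show thr (eps ι) (f ((N : ℝ)⁻¹ • ((N : ℝ) • x))) = thr (eps ι) (f x)
    rw [smul_smul, inv_mul_cancel₀ hNr.ne', one_smul]

end real

end Pool.Agent.H59.UE
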